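import Mathlib

/-! Components of a finite set of cells of the grid: a few components contain almost all cells. -/

set_option autoImplicit false
open scoped Classical

namespace MP9b2b.PG

/-- neighbouring cells of `G` -/
def Ad (G : Finset (ℕ × ℕ)) (c d : ℕ × ℕ) : Prop :=
  c ∈ G ∧ d ∈ G ∧ (d = (c.1 + 1, c.2) ∨ c = (d.1 + 1, d.2) ∨ d = (c.1, c.2 + 1) ∨
    c = (d.1, d.2 + 1))

theorem Ad.symm {G : Finset (ℕ × ℕ)} {c d : ℕ × ℕ} (h : Ad G c d) : Ad G d c := by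
  obtain ⟨h1, h2, h3 | h3 | h3 | h3⟩ := h
  · exact ⟨h2, h1, Or.inr (Or.inl h3)⟩
  · exact ⟨h2, h1, Or.inl h3⟩
  · exact ⟨h2, h1, Or.inr (Or.inr (Or.inr h3))⟩
  · exact ⟨h2, h1, Or.inr (Or.inr (Or.inl h3))⟩

/-- the component of a cell -/
noncomputable def cp (G : Finset (ℕ × ℕ)) (c : ℕ × ℕ) : Finset (ℕ × ℕ) :=
  G.filter (fun d => Relation.ReflTransGen (Ad G) c d)

theorem rtg_symm {G : Finset (ℕ × ℕ)} {c d : ℕ × ℕ} (h : Relation.ReflTransGen (Ad G) c d) :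
    Relation.ReflTransGen (Ad G) d c := by
  induction h with
  | refl => exact Relation.ReflTransGen.refl
  | tail _ hbc ih => exact Relation.ReflTransGen.head hbc.symm ih

theorem mem_cp {G : Finset (ℕ × ℕ)} {c d : ℕ × ℕ} :
    d ∈ cp G c ↔ d ∈ G ∧ Relation.ReflTransGen (Ad G) c d := by
  unfold cp
  rw [Finset.mem_filter]

theorem self_cp {G : Finset (ℕ × ℕ)} {c : ℕ × ℕ} (h : c ∈ G) : c ∈ cp G c :=
  mem_cp.2 ⟨h, Relation.ReflTransGen.refl⟩

theorem cp_eq {G : Finset (ℕ × ℕ)} {c d : ℕ × ℕ} (h : Relation.ReflTransGen (Ad G) c d) :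
    cp G d = cp G c := by
  ext e
  rw [mem_cp, mem_cp]
  constructor
  · rintro ⟨h1, h2⟩
    exact ⟨h1, h.trans h2⟩
  · rintro ⟨h1, h2⟩
    exact ⟨h1, (rtg_symm h).trans h2⟩

noncomputable def E1 (G : Finset (ℕ × ℕ)) : Finset (ℕ × ℕ) := G.filter (fun c => (c.1, c.2 + 1) ∉ G)
noncomputable def E2 (G : Finset (ℕ × ℕ)) : Finset (ℕ × ℕ) := G.filter (fun c => (c.1 + 1, c.2) ∉ G)

theorem exit1 {G : Finset (ℕ × ℕ)} {c d : ℕ × ℕ} (hd : d ∈ cp G c) :
    ∃ e ∈ E1 G, cp G e = cp G c ∧ e.1 = d.1 := by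
  obtain ⟨e, he, hmax⟩ := Finset.exists_max_image ((cp G c).filter (fun e => e.1 = d.1))
    (fun e => e.2) ⟨d, Finset.mem_filter.2 ⟨hd, rfl⟩⟩
  rw [Finset.mem_filter] at he
  obtain ⟨he1, he2⟩ := he
  have hm := mem_cp.1 he1
  refine ⟨e, ?_, cp_eq hm.2, he2⟩
  unfold E1
  rw [Finset.mem_filter]
  refine ⟨hm.1, fun hn => ?_⟩
  have ha : Ad G e (e.1, e.2 + 1) := ⟨hm.1, hn, Or.inr (Or.inr (Or.inl rfl))⟩
  have := hmax (e.1, e.2 + 1) (Finset.mem_filter.2 ⟨mem_cp.2 ⟨hn, hm.2.tail ha⟩, he2⟩)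
  simp only at this
  omega

theorem exit2 {G : Finset (ℕ × ℕ)} {c d : ℕ × ℕ} (hd : d ∈ cp G c) :
    ∃ e ∈ E2 G, cp G e = cp G c ∧ e.2 = d.2 := by
  obtain ⟨e, he, hmax⟩ := Finset.exists_max_image ((cp G c).filter (fun e => e.2 = d.2))
    (fun e => e.1) ⟨d, Finset.mem_filter.2 ⟨hd, rfl⟩⟩
  rw [Finset.mem_filter] at he
  obtain ⟨he1, he2⟩ := he
  have hm := mem_cp.1 he1
  refine ⟨e, ?_, cp_eq hm.2, he2⟩
  unfold E2
  rw [Finset.mem_filter]
  refine ⟨hm.1, fun hn => ?_⟩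
  have ha : Ad G e (e.1 + 1, e.2) := ⟨hm.1, hn, Or.inl rfl⟩
  have := hmax (e.1 + 1, e.2) (Finset.mem_filter.2 ⟨mem_cp.2 ⟨hn, hm.2.tail ha⟩, he2⟩)
  simp only at this
  omega

theorem iso {G : Finset (ℕ × ℕ)} (c : ℕ × ℕ) :
    (cp G c).card ≤ ((E1 G).filter (fun e => cp G e = cp G c)).card *
      ((E2 G).filter (fun e => cp G e = cp G c)).card := by
  have h1 : cp G c ⊆ ((cp G c).image Prod.fst) ×ˢ ((cp G c).image Prod.snd) := by
    intro d hd
    rw [Finset.mem_product]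
    exact ⟨Finset.mem_image_of_mem _ hd, Finset.mem_image_of_mem _ hd⟩
  have h2 : ((cp G c).image Prod.fst).card ≤ ((E1 G).filter (fun e => cp G e = cp G c)).card := by
    have : (cp G c).image Prod.fst ⊆ ((E1 G).filter (fun e => cp G e = cp G c)).image Prod.fst := by
      intro x hx
      rw [Finset.mem_image] at hx
      obtain ⟨d, hd, rfl⟩ := hx
      obtain ⟨e, he, h3, h4⟩ := exit1 hd
      rw [Finset.mem_image]
      exact ⟨e, Finset.mem_filter.2 ⟨he, h3⟩, h4⟩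
    exact (Finset.card_le_card this).trans Finset.card_image_le
  have h3 : ((cp G c).image Prod.snd).card ≤ ((E2 G).filter (fun e => cp G e = cp G c)).card := by
    have : (cp G c).image Prod.snd ⊆ ((E2 G).filter (fun e => cp G e = cp G c)).image Prod.snd := by
      intro x hx
      rw [Finset.mem_image] at hx
      obtain ⟨d, hd, rfl⟩ := hx
      obtain ⟨e, he, h3, h4⟩ := exit2 hd
      rw [Finset.mem_image]
      exact ⟨e, Finset.mem_filter.2 ⟨he, h3⟩, h4⟩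
    exact (Finset.card_le_card this).trans Finset.card_image_le
  have h4 := Finset.card_le_card h1
  rw [Finset.card_product] at h4
  exact h4.trans (Nat.mul_le_mul h2 h3)

theorem comps (G : Finset (ℕ × ℕ)) (t : ℝ) (ht : 0 < t) : ∃ Big : Finset (ℕ × ℕ), Big ⊆ G ∧
    (Big.card : ℝ) * t ≤ ((E1 G).card : ℝ) ∧
    ((G.filter (fun c => ∀ b ∈ Big, ¬ Relation.ReflTransGen (Ad G) b c)).card : ℝ) ≤
      t * ((E2 G).card : ℝ) := by
  set Cs := G.image (cp G) with hCs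
  set e1 : Finset (ℕ × ℕ) → ℕ := fun K => ((E1 G).filter (fun e => cp G e = K)).card with he1
  set e2 : Finset (ℕ × ℕ) → ℕ := fun K => ((E2 G).filter (fun e => cp G e = K)).card with he2
  have s1 : ∑ K ∈ Cs, e1 K = (E1 G).card := by
    symm
    apply Finset.card_eq_sum_card_fiberwise
    intro e he
    unfold E1 at he
    rw [Finset.mem_coe, Finset.mem_filter] at he
    exact Finset.mem_coe.2 (Finset.mem_image_of_mem _ he.1)
  have s2 : ∑ K ∈ Cs, e2 K = (E2 G).card := by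
    symm
    apply Finset.card_eq_sum_card_fiberwise
    intro e he
    unfold E2 at he
    rw [Finset.mem_coe, Finset.mem_filter] at he
    exact Finset.mem_coe.2 (Finset.mem_image_of_mem _ he.1)
  have hrep : ∀ K : Finset (ℕ × ℕ), ∃ c : ℕ × ℕ, K ∈ Cs → c ∈ G ∧ cp G c = K := by
    intro K
    by_cases hK : K ∈ Cs
    · rw [hCs, Finset.mem_image] at hK
      obtain ⟨c, hc, h⟩ := hK
      exact ⟨c, fun _ => ⟨hc, h⟩⟩
    · exact ⟨(0, 0), fun h => absurd h hK⟩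
  choose rep hrep using hrep
  set Bg := Cs.filter (fun K => t ≤ (e1 K : ℝ)) with hBg
  refine ⟨Bg.image rep, ?_, ?_, ?_⟩
  · intro c hc
    rw [Finset.mem_image] at hc
    obtain ⟨K, hK, rfl⟩ := hc
    exact (hrep K (Finset.mem_filter.1 hK).1).1
  · have h1 : ((Bg.image rep).card : ℝ) ≤ (Bg.card : ℝ) := by exact_mod_cast Finset.card_image_le
    have h2 : (Bg.card : ℝ) * t ≤ ∑ K ∈ Bg, (e1 K : ℝ) := by
      have := Finset.card_nsmul_le_sum Bg (fun K => (e1 K : ℝ)) t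
        (fun K hK => (Finset.mem_filter.1 hK).2)
      rwa [nsmul_eq_mul] at this
    have h3 : ∑ K ∈ Bg, (e1 K : ℝ) ≤ ∑ K ∈ Cs, (e1 K : ℝ) :=
      Finset.sum_le_sum_of_subset_of_nonneg (Finset.filter_subset _ _)
        (fun K _ _ => Nat.cast_nonneg _)
    have h4 : ∑ K ∈ Cs, (e1 K : ℝ) = ((E1 G).card : ℝ) := by rw [← s1]; push_cast; rfl
    have h5 := mul_le_mul_of_nonneg_right h1 ht.le
    linarith
  · have h1 : G.filter (fun c => ∀ b ∈ Bg.image rep, ¬ Relation.ReflTransGen (Ad G) b c) ⊆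
        (Cs.filter (fun K => ¬ t ≤ (e1 K : ℝ))).biUnion id := by
      intro c hc
      rw [Finset.mem_filter] at hc
      rw [Finset.mem_biUnion]
      have hK : cp G c ∈ Cs := Finset.mem_image_of_mem _ hc.1
      refine ⟨cp G c, Finset.mem_filter.2 ⟨hK, fun hle => ?_⟩, self_cp hc.1⟩
      obtain ⟨h2, h3⟩ := hrep _ hK
      apply hc.2 (rep (cp G c)) (Finset.mem_image_of_mem _ (Finset.mem_filter.2 ⟨hK, hle⟩))
      have h4 : c ∈ cp G (rep (cp G c)) := by rw [h3]; exact self_cp hc.1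
      exact (mem_cp.1 h4).2
    have h2 : ((G.filter (fun c => ∀ b ∈ Bg.image rep, ¬ Relation.ReflTransGen (Ad G) b c)).card : ℝ) ≤
        ∑ K ∈ Cs.filter (fun K => ¬ t ≤ (e1 K : ℝ)), (K.card : ℝ) := by
      have := (Finset.card_le_card h1).trans Finset.card_biUnion_le
      exact_mod_cast this
    have h3 : ∑ K ∈ Cs.filter (fun K => ¬ t ≤ (e1 K : ℝ)), (K.card : ℝ) ≤
        ∑ K ∈ Cs.filter (fun K => ¬ t ≤ (e1 K : ℝ)), t * (e2 K : ℝ) := by
      apply Finset.sum_le_sum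
      intro K hK
      rw [Finset.mem_filter] at hK
      obtain ⟨c, hc, rfl⟩ := Finset.mem_image.1 hK.1
      have h4 : ((cp G c).card : ℝ) ≤ (e1 (cp G c) : ℝ) * (e2 (cp G c) : ℝ) := by
        exact_mod_cast iso c
      exact h4.trans (mul_le_mul_of_nonneg_right (not_le.1 hK.2).le (Nat.cast_nonneg _))
    have h4 : ∑ K ∈ Cs.filter (fun K => ¬ t ≤ (e1 K : ℝ)), t * (e2 K : ℝ) ≤
        ∑ K ∈ Cs, t * (e2 K : ℝ) :=
      Finset.sum_le_sum_of_subset_of_nonneg (Finset.filter_subset _ _)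
        (fun K _ _ => mul_nonneg ht.le (Nat.cast_nonneg _))
    have h5 : ∑ K ∈ Cs, t * (e2 K : ℝ) = t * ((E2 G).card : ℝ) := by
      rw [← s2, ← Finset.mul_sum]; push_cast; rfl
    linarith

/-- transport along a component -/
theorem along {G : Finset (ℕ × ℕ)} (Φ : ℕ × ℕ → Prop)
    (h1 : ∀ x y, (x, y) ∈ G → (x + 1, y) ∈ G → (Φ (x, y) ↔ Φ (x + 1, y)))
    (h2 : ∀ x y, (x, y) ∈ G → (x, y + 1) ∈ G → (Φ (x, y) ↔ Φ (x, y + 1)))
    {c d : ℕ × ℕ} (h : Relation.ReflTransGen (Ad G) c d) (hc : Φ c) : Φ d := by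
  induction h with
  | refl => exact hc
  | @tail b e _ hbe ih =>
    obtain ⟨k1, k2, k3⟩ := hbe
    obtain ⟨bx, byy⟩ := b
    obtain ⟨ex, ey⟩ := e
    simp only [Prod.mk.injEq] at k3
    rcases k3 with ⟨k3, k4⟩ | ⟨k3, k4⟩ | ⟨k3, k4⟩ | ⟨k3, k4⟩ <;> subst k3 <;> subst k4
    · exact (h1 _ _ k1 k2).1 ih
    · exact (h1 _ _ k2 k1).2 ih
    · exact (h2 _ _ k1 k2).1 ih
    · exact (h2 _ _ k2 k1).2 ih

end MP9b2b.PG
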