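import Pool.Agent.Lib.MP_9b2b7a_co.PG.Chas
import Pool.Agent.Lib.MP_9b2b7a_co.PG.Comps

/-! Rectangles of good chords of a convex polygon: Chasles' theorem moves a cubic through them. -/

set_option autoImplicit false
open scoped Classical

namespace MP9b2b.PG

/-- a bad chord: not pierced, or pierced twice, or next to a separation -/
def Df (n : ℕ) (p : ℕ → ℝ × ℝ) (R : Finset (ℝ × ℝ)) (a b : ℕ) : Prop :=
  (¬ ∃ r ∈ R, Mt n p r a b) ∨ (∃ r ∈ R, ∃ r' ∈ R, r ≠ r' ∧ Mt n p r a b ∧ Mt n p r' a b) ∨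
    (∃ r ∈ R, X p r b a) ∨ (∃ r ∈ R, X p r a b)

/-- data: convex polygon, outside points, the piercing points of good chords -/
structure Dat (n : ℕ) (p : ℕ → ℝ × ℝ) (R : Finset (ℝ × ℝ)) (ρ : ℕ → ℕ → ℝ × ℝ) (ε : ℝ) : Prop where
  hp : Cvx n p
  hR : ∀ r ∈ R, ∀ i < n, r ≠ p i
  hO : ∀ r ∈ R, IsOut n p r
  hm : ∀ a b, ¬ Df n p R a b → ρ a b ∈ R ∧ Mt n p (ρ a b) a b
  hε : ∀ i < n, ∀ j < n, i ≠ j → (p i).1 + ε * (p i).2 ≠ (p j).1 + ε * (p j).2

/-- a rectangle of good chords -/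
structure Rc (n : ℕ) (p : ℕ → ℝ × ℝ) (R : Finset (ℝ × ℝ)) (x0 x1 y0 y1 : ℕ) : Prop where
  g : ∀ a b, x0 ≤ a → a ≤ x1 → y0 ≤ b → b ≤ y1 → ¬ Df n p R a b
  xy : x1 < y0
  yn : y1 < n

variable {n : ℕ} {p : ℕ → ℝ × ℝ} {R : Finset (ℝ × ℝ)} {ρ : ℕ → ℕ → ℝ × ℝ} {ε : ℝ}
  {x0 x1 y0 y1 : ℕ}

theorem Dat.uniqR (D : Dat n p R ρ ε) {a b : ℕ} (h : ¬ Df n p R a b) {r : ℝ × ℝ} (hr : r ∈ R)
    (hm : Mt n p r a b) : r = ρ a b := by
  by_contra hne
  exact h (Or.inr (Or.inl ⟨r, hr, ρ a b, (D.hm a b h).1, hne, hm, (D.hm a b h).2⟩))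

theorem Dat.pers (D : Dat n p R ρ ε) {a b : ℕ} (hab : a + 1 < b) (h1 : ¬ Df n p R a (b + 1))
    (h2 : ¬ Df n p R (a + 1) b) (h3 : ¬ Df n p R a b) : ρ a (b + 1) = ρ (a + 1) b := by
  obtain ⟨m1, m2⟩ := D.hm a (b + 1) h1
  apply D.uniqR h2 m1
  rcases chain D.hp (D.hR _ m1) (D.hO _ m1) hab (by omega : a < a + 1) (by omega : b < b + 1) m2
    (by
      intro k k1 k2 hX
      have : k = a := by omega
      subst this
      exact h3 (Or.inr (Or.inr (Or.inl ⟨_, m1, hX⟩))))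
    (by
      intro k k1 k2 hX
      have : k = b := by omega
      subst this
      exact h2 (Or.inr (Or.inr (Or.inr ⟨_, m1, hX⟩)))) with h | ⟨k, k1, k2, -⟩ | ⟨k, k1, k2, -⟩
  · exact h
  · omega
  · omega

theorem Dat.rho_k (D : Dat n p R ρ ε) (H : Rc n p R x0 x1 y0 y1) : ∀ (k a b : ℕ), x0 ≤ a →
    a + k ≤ x1 → y0 ≤ b → b + k ≤ y1 → ρ a (b + k) = ρ (a + k) b := by
  intro k
  induction k with
  | zero => intro a b _ _ _ _; rfl
  | succ k ih =>
    intro a b h1 h2 h3 h4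
    have hxy := H.xy
    have e1 : ρ a (b + k + 1) = ρ (a + 1) (b + k) :=
      D.pers (by omega) (H.g _ _ (by omega) (by omega) (by omega) (by omega))
        (H.g _ _ (by omega) (by omega) (by omega) (by omega))
        (H.g _ _ (by omega) (by omega) (by omega) (by omega))
    have e2 := ih (a + 1) b (by omega) (by omega) h3 (by omega)
    have e3 : b + (k + 1) = b + k + 1 := by ring
    have e4 : a + (k + 1) = a + 1 + k := by ring
    rw [e3, e4, e1, e2]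

theorem Dat.rho_sum (D : Dat n p R ρ ε) (H : Rc n p R x0 x1 y0 y1) {a b c d : ℕ}
    (h1 : x0 ≤ a) (h2 : a ≤ x1) (h3 : y0 ≤ b) (h4 : b ≤ y1) (h5 : x0 ≤ c) (h6 : c ≤ x1)
    (h7 : y0 ≤ d) (h8 : d ≤ y1) (h : a + b = c + d) : ρ a b = ρ c d := by
  have main : ∀ {a b c d : ℕ}, x0 ≤ a → c ≤ x1 → y0 ≤ d → b ≤ y1 → a + b = c + d → a ≤ c →
      ρ a b = ρ c d := by
    intro a b c d g1 g2 g3 g4 g5 g6
    obtain ⟨k, rfl⟩ : ∃ k, c = a + k := ⟨c - a, by omega⟩
    have : b = d + k := by omega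
    subst this
    exact D.rho_k H k a d g1 g2 g3 g4
  by_cases hac : a ≤ c
  · exact main h1 h6 h7 h4 h hac
  · exact (main h5 h2 h3 h8 h.symm (by omega)).symm

/-- the points of a block: vertices and piercing points -/
noncomputable def pt (n : ℕ) (p : ℕ → ℝ × ℝ) (ρ : ℕ → ℕ → ℝ × ℝ) (x c : ℕ) : ℝ × ℝ :=
  if c < n then p c else ρ (x + 1) (c - n - (x + 1))

theorem Dat.ori_pt (D : Dat n p R ρ ε) (H : Rc n p R x0 x1 y0 y1) {x y : ℕ} (hx : x0 ≤ x)
    (hx' : x + 2 ≤ x1) (hy : y0 ≤ y) (hy' : y + 2 ≤ y1) {a b c : ℕ} (a1 : x ≤ a) (a2 : a ≤ x + 2)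
    (b1 : y ≤ b) (b2 : b ≤ y + 2) (s1 : x + y + 1 ≤ a + b) (s2 : a + b ≤ x + y + 3)
    (hc : c < n ∨ (n + (x + y + 1) ≤ c ∧ c ≤ n + (x + y + 3))) :
    ori (p a) (p b) (pt n p ρ x c) = 0 ↔ c = a ∨ c = b ∨ c = n + (a + b) := by
  have hxy := H.xy
  have hyn := H.yn
  rcases hc with hc | ⟨hc1, hc2⟩
  · unfold pt
    rw [if_pos hc]
    constructor
    · intro h0
      by_contra hcon
      push Not at hcon
      exact (sgn D.hp (by omega : a < n) (by omega : b < n) hc (by omega) hcon.1 hcon.2.1).1 h0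
    · rintro (h | h | h)
      · rw [h]; exact ori_self _ _
      · rw [h]; exact ori_self' _ _
      · omega
  · unfold pt
    rw [if_neg (by omega)]
    obtain ⟨v, hv⟩ : ∃ v, c = n + (x + 1 + v) := ⟨c - n - (x + 1), by omega⟩
    subst hv
    have ev : n + (x + 1 + v) - n - (x + 1) = v := by omega
    rw [ev]
    have gv : ¬ Df n p R (x + 1) v := H.g _ _ (by omega) (by omega) (by omega) (by omega)
    have gab : ¬ Df n p R a b := H.g _ _ (by omega) (by omega) (by omega) (by omega)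
    obtain ⟨m1, m2⟩ := D.hm _ _ gv
    constructor
    · intro h0
      right; right
      have hM : Mt n p (ρ (x + 1) v) a b := ⟨by omega, by omega, by omega, h0⟩
      have e1 := D.uniqR gab m1 hM
      obtain ⟨w, hw⟩ : ∃ w, a + b = x + 1 + w := ⟨a + b - (x + 1), by omega⟩
      have e2 : ρ a b = ρ (x + 1) w := D.rho_sum H (by omega) (by omega) (by omega) (by omega)
        (by omega) (by omega) (by omega) (by omega) hw
      have gw : ¬ Df n p R (x + 1) w := H.g _ _ (by omega) (by omega) (by omega) (by omega)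
      have m3 := (D.hm _ _ gw).2
      rw [← e2, ← e1] at m3
      have := Mt.uniq D.hp (D.hR _ m1) m2 m3
      omega
    · rintro (h | h | h)
      · omega
      · omega
      · have e2 : ρ (x + 1) v = ρ a b := D.rho_sum H (by omega) (by omega) (by omega) (by omega)
          (by omega) (by omega) (by omega) (by omega) (by omega)
        rw [e2]
        exact (D.hm _ _ gab).2.2.2.2

/-- three points on a line -/
theorem col3 {a b u v w : ℝ × ℝ} (hab : a ≠ b) (h1 : ori a b u = 0) (h2 : ori a b v = 0)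
    (h3 : ori a b w = 0) : ori u v w = 0 := by
  have he : b - a ≠ 0 := sub_ne_zero.2 hab.symm
  have f : ∀ q : ℝ × ℝ, ori a b q = 0 → cr (q - a) (b - a) = 0 := by
    intro q hq
    unfold ori at hq
    simp only [cr, Prod.fst_sub, Prod.snd_sub]
    linarith
  have b1 := PG.par he (f _ h1) (f _ h2)
  have b2 := PG.par he (f _ h1) (f _ h3)
  have b3 := PG.par he (f _ h2) (f _ h3)
  have : ori u v w = cr (v - a) (w - a) - cr (u - a) (w - a) + cr (u - a) (v - a) := by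
    simp only [cr, ori, Prod.fst_sub, Prod.snd_sub]; ring
  rw [this, b1, b2, b3]; ring

/-- a cubic through nine points in grid position and any tenth point -/
theorem pencil9 {r1 r2 c1 c2 : Fin 3 → ℝ × ℝ} {g : Fin 3 → Fin 3 → ℝ × ℝ}
    (hr0 : ∀ i, r1 i ≠ r2 i) (hc0 : ∀ i, c1 i ≠ c2 i)
    (hr : ∀ i i' j, ori (r1 i) (r2 i) (g i' j) = 0 ↔ i' = i)
    (hc : ∀ j i j', ori (c1 j) (c2 j) (g i j') = 0 ↔ j' = j) (z : ℝ × ℝ) :
    ∃ q : MvPolynomial (Fin 2) ℝ, q ≠ 0 ∧ q.totalDegree ≤ 3 ∧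
      (∀ i j, MvPolynomial.eval ![(g i j).1, (g i j).2] q = 0) ∧
      MvPolynomial.eval ![z.1, z.2] q = 0 := by
  have hinj : Function.Injective (fun t : Fin 3 × Fin 3 => g t.1 t.2) := by
    rintro ⟨i, j⟩ ⟨i', j'⟩ he
    have he : g i j = g i' j' := he
    have h1 := (hr i i j).2 rfl
    have h2 := (hc j i j).2 rfl
    rw [he] at h1 h2
    rw [(hr i i' j').1 h1, (hc j i' j').1 h2]
  set N := (Finset.univ : Finset (Fin 3 × Fin 3)).image (fun t => g t.1 t.2) with hN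
  have hnine : N.card = 9 := by
    rw [hN, Finset.card_image_of_injective _ hinj]
    simp
  obtain ⟨w, hw, hz⟩ : ∃ w, w ∉ N ∧ z ∈ insert w N := by
    by_cases hz : z ∈ N
    · obtain ⟨w, hw⟩ := Infinite.exists_notMem_finset N
      exact ⟨w, hw, Finset.mem_insert_of_mem hz⟩
    · exact ⟨z, hz, Finset.mem_insert_self _ _⟩
  have hcard : (insert w N).card = 10 := by rw [Finset.card_insert_of_notMem hw, hnine]
  have hgN : ∀ i j, g i j ∈ insert w N := fun i j =>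
    Finset.mem_insert_of_mem (Finset.mem_image.2 ⟨(i, j), Finset.mem_univ _, rfl⟩)
  obtain ⟨B, hB, hBc, q, hq0, hqd, hqv⟩ := grid_ten' (A := insert w N) (by rw [hcard]) hgN hinj
    (fun i => col3 (hr0 i) ((hr i i 0).2 rfl) ((hr i i 1).2 rfl) ((hr i i 2).2 rfl))
    (fun j => col3 (hc0 j) ((hc j 0 j).2 rfl) ((hc j 1 j).2 rfl) ((hc j 2 j).2 rfl))
    (by
      intro j
      refine ⟨1, fun h0 => ?_⟩
      have h1 := (hr 0 0 0).2 rfl
      have h2 := (hr 0 0 1).2 rfl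
      have hne : g 0 0 ≠ g 0 1 := by
        intro he
        have := @hinj (0, 0) (0, 1) he
        simp at this
      have k1 : ori (g 0 0) (g 0 1) (r1 0) = 0 := col3 (hr0 0) h1 h2 (ori_self _ _)
      have k2 : ori (g 0 0) (g 0 1) (r2 0) = 0 := col3 (hr0 0) h1 h2 (ori_self' _ _)
      have k3 := col3 hne k1 k2 h0
      exact absurd ((hr 0 1 j).1 k3) (by decide))
  have hBA : B = insert w N := Finset.eq_of_subset_of_card_le hB (by rw [hBc, hcard])
  rw [hBA] at hqv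
  exact ⟨q, hq0, hqd, fun i j => hqv _ (hgN i j), hqv _ hz⟩

section
variable (n x y : ℕ)
def code : Fin 3 → Fin 3 → ℕ :=
  ![![n + (x + y + 1), x, y + 1], ![y, n + (x + y + 2), x + 2], ![x + 1, y + 2, n + (x + y + 3)]]
def ra : Fin 3 → ℕ := ![x, x + 2, x + 1]
def rb : Fin 3 → ℕ := ![y + 1, y, y + 2]
def ca : Fin 3 → ℕ := ![x + 1, x, x + 2]
def cb : Fin 3 → ℕ := ![y, y + 2, y + 1]

theorem bd_r (i : Fin 3) : x ≤ ra x i ∧ ra x i ≤ x + 2 ∧ y ≤ rb y i ∧ rb y i ≤ y + 2 ∧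
    x + y + 1 ≤ ra x i + rb y i ∧ ra x i + rb y i ≤ x + y + 3 := by
  fin_cases i <;> simp [ra, rb] <;> omega

theorem bd_c (i : Fin 3) : x ≤ ca x i ∧ ca x i ≤ x + 2 ∧ y ≤ cb y i ∧ cb y i ≤ y + 2 ∧
    x + y + 1 ≤ ca x i + cb y i ∧ ca x i + cb y i ≤ x + y + 3 := by
  fin_cases i <;> simp [ca, cb] <;> omega

theorem code_bd (h1 : x + 2 < y) (h2 : y + 2 < n) (i j : Fin 3) : code n x y i j < n ∨
    (n + (x + y + 1) ≤ code n x y i j ∧ code n x y i j ≤ n + (x + y + 3)) := by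
  fin_cases i <;> fin_cases j <;> simp [code] <;> omega

theorem code_r (h1 : x + 2 < y) (h2 : y + 2 < n) (i i' j : Fin 3) :
    (code n x y i' j = ra x i ∨ code n x y i' j = rb y i ∨
      code n x y i' j = n + (ra x i + rb y i)) ↔ i' = i := by
  fin_cases i <;> fin_cases i' <;> fin_cases j <;> simp [code, ra, rb] <;> omega

theorem code_c (h1 : x + 2 < y) (h2 : y + 2 < n) (j i j' : Fin 3) :
    (code n x y i j' = ca x j ∨ code n x y i j' = cb y j ∨
      code n x y i j' = n + (ca x j + cb y j)) ↔ j' = j := by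
  fin_cases j <;> fin_cases i <;> fin_cases j' <;> simp [code, ca, cb] <;> omega

end

end MP9b2b.PG
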