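import Pool.Agent.Lib.MP_9b2b7a_co.PG.Fin

/-! The polygon piercing theorem: counting. -/

set_option autoImplicit false
open scoped Classical

namespace MP9b2b.PG

/-- the line through `r` and the vertex `p i` contains a second vertex -/
def Joined (n : ℕ) (p : ℕ → ℝ × ℝ) (r : ℝ × ℝ) (i : ℕ) : Prop :=
  ∃ j < n, j ≠ i ∧ Collinear ℝ ({p i, p j, r} : Set (ℝ × ℝ))

theorem mt_iff {n : ℕ} {p : ℕ → ℝ × ℝ} {r : ℝ × ℝ} {i j : ℕ} :
    Mt n p r i j ↔ i < n ∧ j < n ∧ i ≠ j ∧ Collinear ℝ ({p i, p j, r} : Set (ℝ × ℝ)) := by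
  unfold Mt
  rw [collinear_iff_ori]

theorem joined_iff {n : ℕ} {p : ℕ → ℝ × ℝ} {r : ℝ × ℝ} {i : ℕ} (hi : i < n) :
    (∃ j, Mt n p r i j) ↔ Joined n p r i := by
  unfold Joined
  constructor
  · rintro ⟨j, hj⟩
    rw [mt_iff] at hj
    exact ⟨j, hj.2.1, hj.2.2.1.symm, hj.2.2.2⟩
  · rintro ⟨j, h1, h2, h3⟩
    exact ⟨j, mt_iff.2 ⟨hi, h1, h2.symm, h3⟩⟩

theorem polygon (n : ℕ) (p : ℕ → ℝ × ℝ) (hn : 0 < n) (hp : Cvx n p) (R : Finset (ℝ × ℝ))
    (hR : ∀ r ∈ R, ∀ i < n, r ≠ p i) (c : ℝ) (hc0 : 0 < c) (hc1 : c ≤ 1)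
    (hT : c * (n : ℝ) ^ 2 ≤ (((Finset.range n ×ˢ Finset.range n ×ˢ R).filter (fun t =>
      t.1 < t.2.1 ∧ Collinear ℝ ({p t.1, p t.2.1, t.2.2} : Set (ℝ × ℝ)))).card : ℝ))
    (hS : (R.card : ℝ) + (((Finset.range (n - 1) ×ˢ R).filter (fun t =>
      ¬ (Joined n p t.2 t.1 ↔ Joined n p t.2 (t.1 + 1)))).card : ℝ) ≤ c ^ 2 * (n : ℝ) ^ 2 / 40) :
    Ten ((Finset.range n).image p ∪ R) := by
  set TT := (Finset.range n ×ˢ Finset.range n ×ˢ R).filter (fun t =>
      t.1 < t.2.1 ∧ Collinear ℝ ({p t.1, p t.2.1, t.2.2} : Set (ℝ × ℝ))) with hTT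
  set SS := (Finset.range (n - 1) ×ˢ R).filter (fun t =>
      ¬ (Joined n p t.2 t.1 ↔ Joined n p t.2 (t.1 + 1))) with hSS
  set JJ := (Finset.range n ×ˢ R).filter (fun u => ∃ j, Mt n p u.2 u.1 j) with hJJ
  have hJ : JJ.card = ∑ r ∈ R, ((Finset.range n).filter (fun i => ∃ j, Mt n p r i j)).card := by
    rw [hJJ]
    simp only [Finset.card_filter]
    rw [Finset.sum_product_right]
  have hSs : SS.card = ∑ r ∈ R, sw n (fun i => ∃ j, Mt n p r i j) := by
    rw [hSS]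
    unfold sw
    simp only [Finset.card_filter]
    rw [Finset.sum_product_right]
    apply Finset.sum_congr rfl
    intro r _
    apply Finset.sum_congr rfl
    intro i hi
    rw [Finset.mem_range] at hi
    rw [joined_iff (by omega), joined_iff (by omega)]
  have hJm : JJ.card ≤ n * R.card := by
    refine (Finset.card_filter_le _ _).trans ?_
    rw [Finset.card_product, Finset.card_range]
  have h2T : 2 * TT.card ≤ JJ.card := by
    have hfun : ∀ r ∈ R, ∀ i j j', Mt n p r i j → Mt n p r i j' → j = j' := fun r hr i j j' h h' =>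
      Mt.uniq hp (hR r hr) h h'
    have hmt : ∀ t ∈ TT, Mt n p t.2.2 t.1 t.2.1 ∧ t.2.2 ∈ R ∧ t.1 < t.2.1 := by
      intro t ht
      rw [hTT, Finset.mem_filter, Finset.mem_product, Finset.mem_product, Finset.mem_range,
        Finset.mem_range] at ht
      obtain ⟨⟨h1, h2, h3⟩, h4, h5⟩ := ht
      exact ⟨mt_iff.2 ⟨h1, h2, h4.ne, h5⟩, h3, h4⟩
    have i1 : (TT.image (fun t => (t.1, t.2.2))).card = TT.card := by
      apply Finset.card_image_of_injOn
      intro t ht t' ht' he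
      obtain ⟨a1, a2, a3⟩ := hmt t ht
      obtain ⟨b1, b2, b3⟩ := hmt t' ht'
      obtain ⟨e1, e2⟩ : t.1 = t'.1 ∧ t.2.2 = t'.2.2 := by
        have he' : (t.1, t.2.2) = (t'.1, t'.2.2) := he
        rwa [Prod.mk.injEq] at he'
      rw [← e1, ← e2] at b1
      have e3 := hfun _ a2 _ _ _ a1 b1
      exact Prod.ext e1 (Prod.ext e3 e2)
    have i2 : (TT.image (fun t => (t.2.1, t.2.2))).card = TT.card := by
      apply Finset.card_image_of_injOn
      intro t ht t' ht' he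
      obtain ⟨a1, a2, a3⟩ := hmt t ht
      obtain ⟨b1, b2, b3⟩ := hmt t' ht'
      obtain ⟨e1, e2⟩ : t.2.1 = t'.2.1 ∧ t.2.2 = t'.2.2 := by
        have he' : (t.2.1, t.2.2) = (t'.2.1, t'.2.2) := he
        rwa [Prod.mk.injEq] at he'
      rw [← e1, ← e2] at b1
      have e3 := hfun _ a2 _ _ _ a1.symm b1.symm
      exact Prod.ext e3 (Prod.ext e1 e2)
    have hdis : Disjoint (TT.image (fun t => (t.1, t.2.2))) (TT.image (fun t => (t.2.1, t.2.2))) := by
      rw [Finset.disjoint_left]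
      intro u hu hu'
      rw [Finset.mem_image] at hu hu'
      obtain ⟨t, ht, rfl⟩ := hu
      obtain ⟨t', ht', he⟩ := hu'
      obtain ⟨a1, a2, a3⟩ := hmt t ht
      obtain ⟨b1, b2, b3⟩ := hmt t' ht'
      obtain ⟨e1, e2⟩ : t'.2.1 = t.1 ∧ t'.2.2 = t.2.2 := by
        rwa [Prod.mk.injEq] at he
      rw [e1, e2] at b1
      have e3 := hfun _ a2 _ _ _ a1 b1.symm
      rw [e1] at b3
      omega
    have hsub : TT.image (fun t => (t.1, t.2.2)) ∪ TT.image (fun t => (t.2.1, t.2.2)) ⊆ JJ := by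
      intro u hu
      rw [Finset.mem_union, Finset.mem_image, Finset.mem_image] at hu
      rw [hJJ, Finset.mem_filter, Finset.mem_product, Finset.mem_range]
      rcases hu with ⟨t, ht, rfl⟩ | ⟨t, ht, rfl⟩
      · obtain ⟨a1, a2, a3⟩ := hmt t ht
        exact ⟨⟨a1.1, a2⟩, _, a1⟩
      · obtain ⟨a1, a2, a3⟩ := hmt t ht
        exact ⟨⟨a1.2.1, a2⟩, _, a1.symm⟩
    have := Finset.card_le_card hsub
    rw [Finset.card_union_of_disjoint hdis, i1, i2] at this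
    omega
  -- numbers
  have hnR : (0 : ℝ) < n := by exact_mod_cast hn
  have hm : 2 * c * (n : ℝ) ≤ R.card := by
    have e1 : (2 : ℝ) * TT.card ≤ (n : ℝ) * R.card := by exact_mod_cast h2T.trans hJm
    have e2 : (2 * c * n) * (n : ℝ) ≤ R.card * n := by nlinarith
    exact le_of_mul_le_mul_right e2 hnR
  have hSS0 : (0 : ℝ) ≤ SS.card := by positivity
  have hcn : 80 ≤ c * n := by
    have e1 : 2 * c * (n : ℝ) ≤ c ^ 2 * (n : ℝ) ^ 2 / 40 := by linarith
    have e2 : (c * n) * 80 ≤ (c * n) * (c * n) := by nlinarith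
    exact le_of_mul_le_mul_left e2 (by positivity)
  have hn80 : 80 ≤ n := by
    have : (80 : ℝ) ≤ n := by nlinarith
    exact_mod_cast this
  set ℓ := ⌈8 / c⌉₊ with hℓdef
  have hℓ1 : 8 / c ≤ ℓ := Nat.le_ceil _
  have hℓ2 : (ℓ : ℝ) < 8 / c + 1 := Nat.ceil_lt_add_one (by positivity)
  have hℓpos : (0 : ℝ) < ℓ := lt_of_lt_of_le (by positivity) hℓ1
  have hℓ0 : 0 < ℓ := by exact_mod_cast hℓpos
  have hℓ3 : c * ℓ ≤ 9 := by
    have : c * (8 / c + 1) = 8 + c := by field_simp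
    nlinarith
  have hℓ4 : 8 ≤ c * ℓ := by
    have : c * (8 / c) = 8 := by field_simp
    nlinarith
  have hsym : ∀ r, (fun j => ∃ i, Mt n p r i j) = (fun i => ∃ j, Mt n p r i j) := by
    intro r
    funext i
    exact propext ⟨fun ⟨j, h⟩ => ⟨j, h.symm⟩, fun ⟨j, h⟩ => ⟨j, h.symm⟩⟩
  have hfin : n * (4 * ((n + n) / ℓ + 1)) + (2 * ℓ) * (∑ r ∈ R,
        (sw n (fun i => ∃ j, Mt n p r i j) + sw n (fun j => ∃ i, Mt n p r i j) + 2)) <
      ∑ r ∈ R, ((Finset.range n).filter (fun i => ∃ j, Mt n p r i j)).card := by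
    rw [← hJ]
    refine lt_of_lt_of_le ?_ h2T
    have e0 : ∑ r ∈ R, (sw n (fun i => ∃ j, Mt n p r i j) + sw n (fun j => ∃ i, Mt n p r i j) + 2) =
        2 * (R.card + SS.card) := by
      rw [hSs]
      simp only [hsym]
      rw [Finset.sum_add_distrib, Finset.sum_add_distrib, Finset.sum_const, smul_eq_mul]
      ring
    rw [e0]
    have hdiv : (((n + n) / ℓ : ℕ) : ℝ) ≤ ((n : ℝ) + n) / ℓ := by
      have := @Nat.cast_div_le ℝ _ _ _ (n + n) ℓ
      push_cast at this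
      exact this
    have hq : (((n + n) / ℓ : ℕ) : ℝ) * ℓ ≤ 2 * n := by
      rw [le_div_iff₀ hℓpos] at hdiv
      linarith
    have hq2 : 4 * (((n + n) / ℓ : ℕ) : ℝ) ≤ c * n := by
      have h0 : (0 : ℝ) ≤ (((n + n) / ℓ : ℕ) : ℝ) := by positivity
      -- q * 8 ≤ q * c * ℓ ≤ 2 * c * n
      have h1 : (((n + n) / ℓ : ℕ) : ℝ) * 8 ≤ (((n + n) / ℓ : ℕ) : ℝ) * (c * ℓ) :=
        mul_le_mul_of_nonneg_left hℓ4 h0
      have h2 : c * ((((n + n) / ℓ : ℕ) : ℝ) * ℓ) ≤ c * (2 * n) :=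
        mul_le_mul_of_nonneg_left hq hc0.le
      nlinarith
    have hgoal : (n : ℝ) * (4 * ((((n + n) / ℓ : ℕ) : ℝ) + 1)) +
        (2 * ℓ) * (2 * ((R.card : ℝ) + SS.card)) < 2 * TT.card := by
      have g1 : (n : ℝ) * (4 * ((((n + n) / ℓ : ℕ) : ℝ) + 1)) ≤ n * (c * n + 4) :=
        mul_le_mul_of_nonneg_left (by linarith) hnR.le
      have g2 : (2 * (ℓ : ℝ)) * (2 * ((R.card : ℝ) + SS.card)) ≤
          4 * ℓ * (c ^ 2 * (n : ℝ) ^ 2 / 40) := by
        have := mul_le_mul_of_nonneg_left hS (by positivity : (0 : ℝ) ≤ 4 * ℓ)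
        linarith
      have g3 : 4 * (ℓ : ℝ) * (c ^ 2 * (n : ℝ) ^ 2 / 40) ≤ 9 / 10 * (c * n ^ 2) := by
        have h : (c * ℓ) * (c * (n : ℝ) ^ 2 / 10) ≤ 9 * (c * (n : ℝ) ^ 2 / 10) :=
          mul_le_mul_of_nonneg_right hℓ3 (by positivity)
        nlinarith
      have g4 : (80 : ℝ) * n ≤ c * n ^ 2 := by nlinarith
      nlinarith
    exact_mod_cast hgoal
  obtain ⟨a, b, r1, r2, r3, k1, k2, k3, -, m1, m2, m3, h12, h13, h23, q12, q13, q23, w12, w13, w23,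
    c1, c2, c3⟩ := three_clean (n' := n) R (fun r => Mt n p r)
      (fun r hr => rel hp (hR r hr))
      (fun r _ r' _ hne i j0 j1 j2 => no_three hp hne i j0 j1 j2) ℓ hℓ0 hfin
  have hcard : 10 ≤ ((Finset.range n).image p ∪ R).card := by
    have h1 : ((Finset.range n).image p).card = n := by
      rw [Finset.card_image_of_injOn, Finset.card_range]
      intro i hi j hj he
      rw [Finset.mem_coe, Finset.mem_range] at hi hj
      by_contra hij
      obtain ⟨k, hk, k1, k2⟩ : ∃ k < n, k ≠ i ∧ k ≠ j := by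
        by_cases h0 : 0 ≠ i ∧ 0 ≠ j
        · exact ⟨0, by omega, h0⟩
        · by_cases h1 : 1 ≠ i ∧ 1 ≠ j
          · exact ⟨1, by omega, h1⟩
          · exact ⟨2, by omega, by omega, by omega⟩
      apply (sgn hp hi hj hk hij k1 k2).1
      have he' : p i = p j := he
      rw [he']; unfold ori; ring
    have h2 := Finset.card_le_card (Finset.subset_union_left (s₁ := (Finset.range n).image p) (s₂ := R))
    omega
  exact from_three hp hR hcard ℓ hℓ0 m1 m2 m3 h12 h13 h23 q12 q13 q23 w12 w13 w23 c1 c2 c3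

end MP9b2b.PG
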