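import Pool.Agent.Lib.MP_9b2b7a_co.PG.Out
import Pool.Agent.Lib.MP_9b2b7a_co.PG.Main

/-! Convex polygons whose chords are pierced from outside by fewer than `5n/4` points: counting. -/

set_option autoImplicit false
open scoped Classical

namespace MP9b2b.PG

theorem sym_card (n : ℕ) (S : ℕ → ℕ → Prop) (hS : ∀ i j, S i j → S j i) :
    ((Finset.range n ×ˢ Finset.range n).filter (fun e => e.1 ≠ e.2 ∧ S e.1 e.2)).card =
      2 * ((Finset.range n ×ˢ Finset.range n).filter (fun e => e.1 < e.2 ∧ S e.1 e.2)).card := by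
  have h1 : ((Finset.range n ×ˢ Finset.range n).filter (fun e => e.2 < e.1 ∧ S e.1 e.2)).card =
      ((Finset.range n ×ˢ Finset.range n).filter (fun e => e.1 < e.2 ∧ S e.1 e.2)).card := by
    apply Finset.card_bij (fun e _ => (e.2, e.1))
    · intro e he
      rw [Finset.mem_filter, Finset.mem_product] at he ⊢
      exact ⟨⟨he.1.2, he.1.1⟩, he.2.1, hS _ _ he.2.2⟩
    · intro e _ e' _ h
      rw [Prod.mk.injEq] at h
      exact Prod.ext h.2 h.1
    · intro e he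
      rw [Finset.mem_filter, Finset.mem_product] at he
      refine ⟨(e.2, e.1), ?_, rfl⟩
      rw [Finset.mem_filter, Finset.mem_product]
      exact ⟨⟨he.1.2, he.1.1⟩, he.2.1, hS _ _ he.2.2⟩
  have h2 : (Finset.range n ×ˢ Finset.range n).filter (fun e => e.1 ≠ e.2 ∧ S e.1 e.2) =
      (Finset.range n ×ˢ Finset.range n).filter (fun e => e.1 < e.2 ∧ S e.1 e.2) ∪
      (Finset.range n ×ˢ Finset.range n).filter (fun e => e.2 < e.1 ∧ S e.1 e.2) := by
    ext e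
    simp only [Finset.mem_union, Finset.mem_filter]
    constructor
    · rintro ⟨h, h', hs⟩
      rcases lt_or_gt_of_ne h' with h3 | h3
      · exact Or.inl ⟨h, h3, hs⟩
      · exact Or.inr ⟨h, h3, hs⟩
    · rintro (⟨h, h', hs⟩ | ⟨h, h', hs⟩)
      · exact ⟨h, h'.ne, hs⟩
      · exact ⟨h, h'.ne', hs⟩
  rw [h2, Finset.card_union_of_disjoint, h1]
  · ring
  · rw [Finset.disjoint_left]
    intro e he he'
    rw [Finset.mem_filter] at he he'
    have := he.2.1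
    have := he'.2.1
    omega

theorem lt_card (n : ℕ) :
    2 * ((Finset.range n ×ˢ Finset.range n).filter (fun e => e.1 < e.2)).card = n * (n - 1) := by
  have h := sym_card n (fun _ _ => True) (fun _ _ h => h)
  simp only [and_true] at h
  rw [← h]
  have h2 := Finset.offDiag_card (Finset.range n)
  rw [Finset.card_range] at h2
  have h3 : (Finset.range n).offDiag = (Finset.range n ×ˢ Finset.range n).filter
      (fun e => e.1 ≠ e.2) := by
    ext e
    rw [Finset.mem_offDiag, Finset.mem_filter, Finset.mem_product]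
    tauto
  rw [← h3, h2, Nat.mul_sub, mul_one]

theorem win_card (n : ℕ) :
    (n - 4) * (n - 5) ≤ 2 * ((Finset.range n ×ˢ Finset.range n).filter
      (fun e => e.1 + 2 < e.2 ∧ e.2 + 2 < n)).card := by
  have h := lt_card (n - 4)
  have e : n - 4 - 1 = n - 5 := by omega
  rw [e] at h
  rw [← h]
  apply Nat.mul_le_mul_left
  apply Finset.card_le_card_of_injOn (fun e => (e.1, e.2 + 2))
  · intro e he
    simp only [Finset.coe_filter, Finset.mem_product, Finset.mem_range, Set.mem_ofPred_eq] at he ⊢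
    omega
  · intro e _ e' _ h
    rw [Prod.mk.injEq] at h
    exact Prod.ext h.1 (by omega)

theorem seg_dt {a b r : ℝ × ℝ} (h0 : cr (a - r) (b - r) = 0) (hab : a ≠ b)
    (hs : r ∉ segment ℝ a b) : 0 < dt (a - r) (b - r) := by
  by_contra hcon
  apply hs
  have hd := not_lt.1 hcon
  have hpos : 0 < dt (b - a) (b - a) := dt_pos (sub_ne_zero.2 hab.symm)
  set x := dt (b - r) (b - r) - dt (a - r) (b - r) with hx
  set y := dt (a - r) (a - r) - dt (a - r) (b - r) with hy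
  have hxy : x + y = dt (b - a) (b - a) := by
    rw [hx, hy]; simp only [dt, Prod.fst_sub, Prod.snd_sub]; ring
  have h1 : 0 ≤ dt (b - r) (b - r) := by
    unfold dt; exact add_nonneg (mul_self_nonneg _) (mul_self_nonneg _)
  have h2 : 0 ≤ dt (a - r) (a - r) := by
    unfold dt; exact add_nonneg (mul_self_nonneg _) (mul_self_nonneg _)
  have hx0 : 0 ≤ x := by linarith
  have hy0 : 0 ≤ y := by linarith
  rw [← hxy] at hpos
  have g1 : x * a.1 + y * b.1 = (x + y) * r.1 := by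
    rw [hx, hy]
    simp only [dt, cr, Prod.fst_sub, Prod.snd_sub] at h0 ⊢
    linear_combination (b.2 - a.2) * h0
  have g2 : x * a.2 + y * b.2 = (x + y) * r.2 := by
    rw [hx, hy]
    simp only [dt, cr, Prod.fst_sub, Prod.snd_sub] at h0 ⊢
    linear_combination (a.1 - b.1) * h0
  refine ⟨x / (x + y), y / (x + y), by positivity, by positivity, ?_, ?_⟩
  · field_simp
  · apply Prod.ext
    · simp only [Prod.fst_add, Prod.smul_fst, smul_eq_mul]
      field_simp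
      linarith
    · simp only [Prod.snd_add, Prod.smul_snd, smul_eq_mul]
      field_simp
      linarith

theorem p_inj {n : ℕ} {p : ℕ → ℝ × ℝ} (hp : Cvx n p) (h3 : 3 ≤ n) {i j : ℕ} (hi : i < n)
    (hj : j < n) (he : p i = p j) : i = j := by
  by_contra hij
  obtain ⟨k, hk, k1, k2⟩ : ∃ k < n, k ≠ i ∧ k ≠ j := by
    by_cases h0 : 0 ≠ i ∧ 0 ≠ j
    · exact ⟨0, by omega, h0⟩
    · by_cases h1 : 1 ≠ i ∧ 1 ≠ j
      · exact ⟨1, by omega, h1⟩
      · exact ⟨2, by omega, by omega, by omega⟩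
  apply (sgn hp hi hj hk hij k1 k2).1
  rw [he]; unfold ori; ring

/-- counting incidences: pierced pairs, doubly pierced pairs -/
theorem pierce_card {n : ℕ} {p : ℕ → ℝ × ℝ} (hp : Cvx n p) (R : Finset (ℝ × ℝ))
    (hR : ∀ r ∈ R, ∀ i < n, r ≠ p i) :
    ((Finset.range n ×ˢ Finset.range n).filter (fun e => ∃ r ∈ R, Mt n p r e.1 e.2)).card +
      ((Finset.range n ×ˢ Finset.range n).filter (fun e => ∃ r ∈ R, ∃ r' ∈ R, r ≠ r' ∧
        Mt n p r e.1 e.2 ∧ Mt n p r' e.1 e.2)).card ≤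
      ((R ×ˢ Finset.range n).filter (fun t => ∃ k, Mt n p t.1 t.2 k)).card := by
  have hρ : ∀ e : ℕ × ℕ, ∃ r, (∃ r ∈ R, Mt n p r e.1 e.2) → r ∈ R ∧ Mt n p r e.1 e.2 := by
    intro e
    by_cases h : ∃ r ∈ R, Mt n p r e.1 e.2
    · obtain ⟨r, h1, h2⟩ := h
      exact ⟨r, fun _ => ⟨h1, h2⟩⟩
    · exact ⟨(0, 0), fun h' => absurd h' h⟩
  choose ρ hρ using hρ
  have hσ : ∀ e : ℕ × ℕ, ∃ s, (∃ r ∈ R, ∃ r' ∈ R, r ≠ r' ∧ Mt n p r e.1 e.2 ∧
      Mt n p r' e.1 e.2) → s ∈ R ∧ s ≠ ρ e ∧ Mt n p s e.1 e.2 := by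
    intro e
    by_cases h : ∃ r ∈ R, ∃ r' ∈ R, r ≠ r' ∧ Mt n p r e.1 e.2 ∧ Mt n p r' e.1 e.2
    · obtain ⟨r, h1, r', h2, h3, h4, h5⟩ := h
      by_cases hr : r = ρ e
      · exact ⟨r', fun _ => ⟨h2, by rw [← hr]; exact h3.symm, h5⟩⟩
      · exact ⟨r, fun _ => ⟨h1, hr, h4⟩⟩
    · exact ⟨(0, 0), fun h' => absurd h' h⟩
  choose σ hσ using hσ
  set P1 := (Finset.range n ×ˢ Finset.range n).filter (fun e => ∃ r ∈ R, Mt n p r e.1 e.2) with hP1
  set P2 := (Finset.range n ×ˢ Finset.range n).filter (fun e => ∃ r ∈ R, ∃ r' ∈ R, r ≠ r' ∧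
        Mt n p r e.1 e.2 ∧ Mt n p r' e.1 e.2) with hP2
  have m1 : ∀ e ∈ P1, ρ e ∈ R ∧ Mt n p (ρ e) e.1 e.2 := by
    intro e he
    rw [hP1, Finset.mem_filter] at he
    exact hρ e he.2
  have m2 : ∀ e ∈ P2, σ e ∈ R ∧ σ e ≠ ρ e ∧ Mt n p (σ e) e.1 e.2 := by
    intro e he
    rw [hP2, Finset.mem_filter] at he
    exact hσ e he.2
  have m21 : ∀ e ∈ P2, e ∈ P1 := by
    intro e he
    rw [hP2, Finset.mem_filter] at he
    rw [hP1, Finset.mem_filter]
    obtain ⟨h0, r, h1, r', h2, h3, h4, h5⟩ := he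
    exact ⟨h0, r, h1, h4⟩
  have i1 : (P1.image (fun e => (ρ e, e.1))).card = P1.card := by
    apply Finset.card_image_of_injOn
    intro e he e' he' h
    have h' : (ρ e, e.1) = (ρ e', e'.1) := h
    rw [Prod.mk.injEq] at h'
    obtain ⟨a1, a2⟩ := m1 e he
    obtain ⟨b1, b2⟩ := m1 e' he'
    rw [← h'.1, ← h'.2] at b2
    exact Prod.ext h'.2 (Mt.uniq hp (hR _ a1) a2 b2)
  have i2 : (P2.image (fun e => (σ e, e.1))).card = P2.card := by
    apply Finset.card_image_of_injOn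
    intro e he e' he' h
    have h' : (σ e, e.1) = (σ e', e'.1) := h
    rw [Prod.mk.injEq] at h'
    obtain ⟨a1, -, a2⟩ := m2 e he
    obtain ⟨b1, -, b2⟩ := m2 e' he'
    rw [← h'.1, ← h'.2] at b2
    exact Prod.ext h'.2 (Mt.uniq hp (hR _ a1) a2 b2)
  have hdis : Disjoint (P1.image (fun e => (ρ e, e.1))) (P2.image (fun e => (σ e, e.1))) := by
    rw [Finset.disjoint_left]
    intro u hu hu'
    rw [Finset.mem_image] at hu hu'
    obtain ⟨e, he, rfl⟩ := hu
    obtain ⟨e', he', h⟩ := hu'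
    rw [Prod.mk.injEq] at h
    obtain ⟨a1, a2⟩ := m1 e he
    obtain ⟨b1, b3, b2⟩ := m2 e' he'
    rw [h.1, h.2] at b2
    have : e.2 = e'.2 := Mt.uniq hp (hR _ a1) a2 b2
    have he : e' = e := Prod.ext h.2 this.symm
    rw [he] at b3 h
    exact b3 h.1
  rw [← i1, ← i2, ← Finset.card_union_of_disjoint hdis]
  apply Finset.card_le_card
  intro u hu
  rw [Finset.mem_union, Finset.mem_image, Finset.mem_image] at hu
  rw [Finset.mem_filter, Finset.mem_product, Finset.mem_range]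
  rcases hu with ⟨e, he, rfl⟩ | ⟨e, he, rfl⟩
  · obtain ⟨a1, a2⟩ := m1 e he
    exact ⟨⟨a1, a2.1⟩, _, a2⟩
  · obtain ⟨a1, -, a2⟩ := m2 e he
    exact ⟨⟨a1, a2.1⟩, _, a2⟩

/-- the number of separations is at most the number of unjoined pairs -/
theorem X_card {n : ℕ} {p : ℕ → ℝ × ℝ} (hp : Cvx n p) (R : Finset (ℝ × ℝ))
    (hR : ∀ r ∈ R, ∀ i < n, r ≠ p i) :
    ((R ×ˢ Finset.range n ×ˢ Finset.range n).filter (fun t =>
      t.2.2 + 1 < n ∧ t.2.2 < t.2.1 ∧ t.2.2 + 1 < t.2.1 ∧ X p t.1 t.2.1 t.2.2)).card +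
    ((R ×ˢ Finset.range n ×ˢ Finset.range n).filter (fun t =>
      t.2.2 + 1 < n ∧ t.2.1 < t.2.2 ∧ X p t.1 t.2.1 t.2.2)).card +
      ((R ×ˢ Finset.range n).filter (fun t => ∃ k, Mt n p t.1 t.2 k)).card ≤
      R.card * n := by
  set X1 := (R ×ˢ Finset.range n ×ˢ Finset.range n).filter (fun t =>
      t.2.2 + 1 < n ∧ t.2.2 < t.2.1 ∧ t.2.2 + 1 < t.2.1 ∧ X p t.1 t.2.1 t.2.2) with hX1
  set X2 := (R ×ˢ Finset.range n ×ˢ Finset.range n).filter (fun t =>
      t.2.2 + 1 < n ∧ t.2.1 < t.2.2 ∧ X p t.1 t.2.1 t.2.2) with hX2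
  have hdis : Disjoint X1 X2 := by
    rw [Finset.disjoint_left]
    intro t ht ht'
    rw [hX1, Finset.mem_filter] at ht
    rw [hX2, Finset.mem_filter] at ht'
    omega
  rw [← Finset.card_union_of_disjoint hdis]
  have hU : ∀ t ∈ X1 ∪ X2, t.1 ∈ R ∧ t.2.1 < n ∧ t.2.2 + 1 < n ∧ t.2.2 ≠ t.2.1 ∧
      t.2.2 + 1 ≠ t.2.1 ∧ X p t.1 t.2.1 t.2.2 := by
    intro t ht
    rw [Finset.mem_union, hX1, hX2, Finset.mem_filter, Finset.mem_filter, Finset.mem_product,
      Finset.mem_product, Finset.mem_range] at ht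
    rcases ht with ⟨⟨h1, h2, -⟩, h3, h4, h5, h6⟩ | ⟨⟨h1, h2, -⟩, h3, h4, h6⟩
    · exact ⟨h1, h2, h3, by omega, by omega, h6⟩
    · exact ⟨h1, h2, h3, by omega, by omega, h6⟩
  have i1 : ((X1 ∪ X2).image (fun t => (t.1, t.2.1))).card = (X1 ∪ X2).card := by
    apply Finset.card_image_of_injOn
    intro t ht t' ht' h
    have h' : (t.1, t.2.1) = (t'.1, t'.2.1) := h
    rw [Prod.mk.injEq] at h'
    obtain ⟨a1, a2, a3, a4, a5, a6⟩ := hU t ht
    obtain ⟨b1, b2, b3, b4, b5, b6⟩ := hU t' ht'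
    rw [← h'.1, ← h'.2] at b6
    rw [← h'.2] at b4 b5
    exact Prod.ext h'.1 (Prod.ext h'.2 (X_unique hp a2 a3 b3 a4 a5 b4 b5 a6 b6))
  rw [← i1]
  have hd2 : Disjoint ((X1 ∪ X2).image (fun t => (t.1, t.2.1)))
      ((R ×ˢ Finset.range n).filter (fun t => ∃ k, Mt n p t.1 t.2 k)) := by
    rw [Finset.disjoint_left]
    intro u hu hu'
    rw [Finset.mem_image] at hu
    obtain ⟨t, ht, rfl⟩ := hu
    rw [Finset.mem_filter] at hu'
    obtain ⟨-, k, hk⟩ := hu'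
    obtain ⟨a1, a2, a3, a4, a5, a6⟩ := hU t ht
    exact joined_noX hp (hR _ a1) hk a3 a4 a5 a6
  rw [← Finset.card_union_of_disjoint hd2]
  have : R.card * n = (R ×ˢ Finset.range n).card := by
    rw [Finset.card_product, Finset.card_range]
  rw [this]
  apply Finset.card_le_card
  intro u hu
  rw [Finset.mem_union] at hu
  rcases hu with hu | hu
  · rw [Finset.mem_image] at hu
    obtain ⟨t, ht, rfl⟩ := hu
    obtain ⟨a1, a2, -⟩ := hU t ht
    rw [Finset.mem_product, Finset.mem_range]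
    exact ⟨a1, a2⟩
  · exact (Finset.mem_filter.1 hu).1

theorem sub_card {α β : Type*} {S : Finset α} {T : Finset β} (f : β → α)
    (h : ∀ x ∈ S, ∃ y ∈ T, f y = x) : S.card ≤ T.card := by
  have : S ⊆ T.image f := by
    intro x hx
    rw [Finset.mem_image]
    exact h x hx
  exact (Finset.card_le_card this).trans Finset.card_image_le

theorem outside (n : ℕ) (p : ℕ → ℝ × ℝ) (hn : 10 ≤ n) (hp : Cvx n p) (R : Finset (ℝ × ℝ))
    (hR : ∀ r ∈ R, ∀ i < n, r ≠ p i)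
    (h : 4 * n * R.card + 16 * ((Finset.range n ×ˢ Finset.range n).filter (fun e => e.1 < e.2 ∧
      ∀ r ∈ R, ¬ (Collinear ℝ ({p e.1, p e.2, r} : Set (ℝ × ℝ)) ∧
        r ∉ segment ℝ (p e.1) (p e.2)))).card + 13 * n ≤ 5 * n ^ 2 + 19) :
    Ten ((Finset.range n).image p ∪ R) := by
  set UP := (Finset.range n ×ˢ Finset.range n).filter (fun e => e.1 < e.2 ∧
      ∀ r ∈ R, ¬ (Collinear ℝ ({p e.1, p e.2, r} : Set (ℝ × ℝ)) ∧
        r ∉ segment ℝ (p e.1) (p e.2))) with hUP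
  set R' := R.filter (fun r => IsOut n p r) with hR'
  have hR1 : ∀ r ∈ R', ∀ i < n, r ≠ p i := fun r hr => hR r (Finset.mem_filter.1 hr).1
  set W := (Finset.range n ×ˢ Finset.range n).filter
      (fun e => e.1 + 2 < e.2 ∧ e.2 + 2 < n) with hW
  set U := (Finset.range n ×ˢ Finset.range n).filter
      (fun e => e.1 < e.2 ∧ ¬ ∃ r ∈ R', Mt n p r e.1 e.2) with hU
  set PL := (Finset.range n ×ˢ Finset.range n).filter
      (fun e => e.1 < e.2 ∧ ∃ r ∈ R', Mt n p r e.1 e.2) with hPL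
  set DL := (Finset.range n ×ˢ Finset.range n).filter
      (fun e => e.1 < e.2 ∧ ∃ r ∈ R', ∃ r' ∈ R', r ≠ r' ∧ Mt n p r e.1 e.2 ∧
        Mt n p r' e.1 e.2) with hDL
  set X1 := (R' ×ˢ Finset.range n ×ˢ Finset.range n).filter (fun t =>
      t.2.2 + 1 < n ∧ t.2.2 < t.2.1 ∧ t.2.2 + 1 < t.2.1 ∧ X p t.1 t.2.1 t.2.2) with hX1
  set X2 := (R' ×ˢ Finset.range n ×ˢ Finset.range n).filter (fun t =>
      t.2.2 + 1 < n ∧ t.2.1 < t.2.2 ∧ X p t.1 t.2.1 t.2.2) with hX2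
  set JJ := (R' ×ˢ Finset.range n).filter (fun t => ∃ k, Mt n p t.1 t.2 k) with hJJ
  have q1 : X1.card + X2.card + JJ.card ≤ R'.card * n := X_card hp R' hR1
  have q2 : 2 * PL.card + 2 * DL.card ≤ JJ.card := by
    have g := pierce_card hp R' hR1
    have g1 : ((Finset.range n ×ˢ Finset.range n).filter
        (fun e => e.1 ≠ e.2 ∧ ∃ r ∈ R', Mt n p r e.1 e.2)).card = 2 * PL.card := by
      rw [hPL]
      convert sym_card n (fun i j => ∃ r ∈ R', Mt n p r i j)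
        (fun i j ⟨r, hr, hm⟩ => ⟨r, hr, hm.symm⟩)
    have g2 : ((Finset.range n ×ˢ Finset.range n).filter
        (fun e => e.1 ≠ e.2 ∧ ∃ r ∈ R', ∃ r' ∈ R', r ≠ r' ∧ Mt n p r e.1 e.2 ∧
          Mt n p r' e.1 e.2)).card = 2 * DL.card := by
      rw [hDL]
      convert sym_card n (fun i j => ∃ r ∈ R', ∃ r' ∈ R', r ≠ r' ∧ Mt n p r i j ∧ Mt n p r' i j)
        (fun i j ⟨r, hr, r', hr', hne, hm, hm'⟩ => ⟨r, hr, r', hr', hne, hm.symm, hm'.symm⟩)
    rw [← g1, ← g2]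
    refine le_trans (add_le_add (Finset.card_le_card ?_) (Finset.card_le_card ?_)) g
    · intro e he
      rw [Finset.mem_filter] at he ⊢
      exact ⟨he.1, he.2.2⟩
    · intro e he
      rw [Finset.mem_filter] at he ⊢
      exact ⟨he.1, he.2.2⟩
  have q3 : 2 * (PL.card + U.card) = n * (n - 1) := by
    rw [← lt_card n]
    have : (Finset.range n ×ˢ Finset.range n).filter (fun e => e.1 < e.2) = PL ∪ U := by
      ext e
      rw [Finset.mem_union, hPL, hU, Finset.mem_filter, Finset.mem_filter, Finset.mem_filter]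
      constructor
      · rintro ⟨h1, h2⟩
        by_cases hh : ∃ r ∈ R', Mt n p r e.1 e.2
        · exact Or.inl ⟨h1, h2, hh⟩
        · exact Or.inr ⟨h1, h2, hh⟩
      · rintro (⟨h1, h2, -⟩ | ⟨h1, h2, -⟩)
        · exact ⟨h1, h2⟩
        · exact ⟨h1, h2⟩
    rw [this, Finset.card_union_of_disjoint]
    rw [Finset.disjoint_left]
    intro e he he'
    rw [hPL, Finset.mem_filter] at he
    rw [hU, Finset.mem_filter] at he'
    exact he'.2.2 he.2.2
  have q4 : (n - 4) * (n - 5) ≤ 2 * W.card := win_card n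
  have q5 : U.card ≤ UP.card := by
    apply Finset.card_le_card
    intro e he
    rw [hU, Finset.mem_filter, Finset.mem_product, Finset.mem_range, Finset.mem_range] at he
    rw [hUP, Finset.mem_filter, Finset.mem_product, Finset.mem_range, Finset.mem_range]
    obtain ⟨⟨h1, h2⟩, h3, h4⟩ := he
    refine ⟨⟨h1, h2⟩, h3, ?_⟩
    rintro r hr ⟨hc, hs⟩
    apply h4
    have hm : Mt n p r e.1 e.2 := mt_iff.2 ⟨h1, h2, h3.ne, hc⟩
    refine ⟨r, Finset.mem_filter.2 ⟨hr, e.1, e.2, hm, ?_⟩, hm⟩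
    exact seg_dt hm.cr0 (fun he => h3.ne (p_inj hp (by omega) h1 h2 he)) hs
  have q6 : R'.card ≤ R.card := Finset.card_le_card (Finset.filter_subset _ _)
  have hcard : 10 ≤ ((Finset.range n).image p ∪ R).card := by
    have h1 : ((Finset.range n).image p).card = n := by
      rw [Finset.card_image_of_injOn, Finset.card_range]
      intro i hi j hj he
      rw [Finset.mem_coe, Finset.mem_range] at hi hj
      exact p_inj hp (by omega) hi hj he
    have h2 := Finset.card_le_card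
      (Finset.subset_union_left (s₁ := (Finset.range n).image p) (s₂ := R))
    omega
  by_contra hcon
  -- the bad windows
  have memW : ∀ e ∈ W, e.1 + 2 < e.2 ∧ e.2 + 2 < n := fun e he => (Finset.mem_filter.1 he).2
  set B1 := W.filter (fun e => ∃ r ∈ R', X p r e.2 e.1) with hB1
  set B2 := W.filter (fun e => ∃ r ∈ R', X p r e.2 (e.1 + 1)) with hB2
  set B3 := W.filter (fun e => ∃ r ∈ R', X p r (e.1 + 2) e.2) with hB3
  set B4 := W.filter (fun e => ∃ r ∈ R', X p r (e.1 + 2) (e.2 + 1)) with hB4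
  set B5 := W.filter (fun e => ¬ ∃ r ∈ R', Mt n p r e.1 (e.2 + 1)) with hB5
  set B6 := W.filter (fun e => ¬ ∃ r ∈ R', Mt n p r e.1 (e.2 + 2)) with hB6
  set B7 := W.filter (fun e => ¬ ∃ r ∈ R', Mt n p r (e.1 + 1) (e.2 + 1)) with hB7
  set B8 := W.filter (fun e => ¬ ∃ r ∈ R', Mt n p r (e.1 + 1) (e.2 + 2)) with hB8
  set B9 := W.filter (fun e => ∃ r ∈ R', ∃ r' ∈ R', r ≠ r' ∧ Mt n p r (e.1 + 1) e.2 ∧
        Mt n p r' (e.1 + 1) e.2) with hB9
  set B10 := W.filter (fun e => ∃ r ∈ R', ∃ r' ∈ R', r ≠ r' ∧ Mt n p r (e.1 + 2) e.2 ∧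
        Mt n p r' (e.1 + 2) e.2) with hB10
  set B11 := W.filter (fun e => ∃ r ∈ R', ∃ r' ∈ R', r ≠ r' ∧ Mt n p r (e.1 + 2) (e.2 + 1) ∧
        Mt n p r' (e.1 + 2) (e.2 + 1)) with hB11
  have hsub : W ⊆ B1 ∪ (B2 ∪ (B3 ∪ (B4 ∪ (B5 ∪ (B6 ∪ (B7 ∪ (B8 ∪ (B9 ∪ (B10 ∪ B11))))))))) := by
    intro e he
    obtain ⟨e1, e2⟩ := memW e he
    by_contra hnot
    simp only [Finset.mem_union, not_or] at hnot
    obtain ⟨n1, n2, n3, n4, n5, n6, n7, n8, n9, n10, n11⟩ := hnot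
    rw [hB1, Finset.mem_filter, not_and] at n1
    rw [hB2, Finset.mem_filter, not_and] at n2
    rw [hB3, Finset.mem_filter, not_and] at n3
    rw [hB4, Finset.mem_filter, not_and] at n4
    rw [hB5, Finset.mem_filter, not_and, not_not] at n5
    rw [hB6, Finset.mem_filter, not_and, not_not] at n6
    rw [hB7, Finset.mem_filter, not_and, not_not] at n7
    rw [hB8, Finset.mem_filter, not_and, not_not] at n8
    rw [hB9, Finset.mem_filter, not_and] at n9
    rw [hB10, Finset.mem_filter, not_and] at n10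
    rw [hB11, Finset.mem_filter, not_and] at n11
    have n1 := n1 he
    have n2 := n2 he
    have n3 := n3 he
    have n4 := n4 he
    have n9 := n9 he
    have n10 := n10 he
    have n11 := n11 he
    have mR : ∀ {r : ℝ × ℝ}, r ∈ R → IsOut n p r → r ∈ R' := fun hr ho =>
      Finset.mem_filter.2 ⟨hr, ho⟩
    have conv : ∀ {i j : ℕ}, (∃ r ∈ R', Mt n p r i j) → ∃ r ∈ R, IsOut n p r ∧ Mt n p r i j := by
      rintro i j ⟨r, hr, hm⟩
      exact ⟨r, (Finset.mem_filter.1 hr).1, (Finset.mem_filter.1 hr).2, hm⟩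
    have conv2 : ∀ {i j : ℕ}, (¬ ∃ r ∈ R', ∃ r' ∈ R', r ≠ r' ∧ Mt n p r i j ∧ Mt n p r' i j) →
        ∀ r ∈ R, ∀ r' ∈ R, IsOut n p r → IsOut n p r' → Mt n p r i j → Mt n p r' i j → r = r' := by
      intro i j hne r hr r' hr' ho ho' hm hm'
      by_contra hrr
      exact hne ⟨r, mR hr ho, r', mR hr' ho', hrr, hm, hm'⟩
    apply hcon
    refine window hp hR hcard e1 e2 ?_ (conv (n5 he)) (conv (n6 he)) (conv (n7 he)) (conv (n8 he))
      (conv2 n9) (conv2 n10) (conv2 n11)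
    intro r hr ho
    exact ⟨fun hx => n1 ⟨r, mR hr ho, hx⟩, fun hx => n2 ⟨r, mR hr ho, hx⟩,
      fun hx => n3 ⟨r, mR hr ho, hx⟩, fun hx => n4 ⟨r, mR hr ho, hx⟩⟩
  have c1 : B1.card ≤ X1.card := by
    refine sub_card (fun t => (t.2.2, t.2.1)) ?_
    intro e he
    rw [hB1, Finset.mem_filter] at he
    obtain ⟨he, r, hr, hx⟩ := he
    obtain ⟨e1, e2⟩ := memW e he
    refine ⟨(r, e.2, e.1), ?_, rfl⟩
    rw [hX1, Finset.mem_filter, Finset.mem_product, Finset.mem_product, Finset.mem_range,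
      Finset.mem_range]
    have a1 : e.2 < n := by omega
    have a2 : e.1 < n := by omega
    have a3 : e.1 + 1 < n := by omega
    have a4 : e.1 < e.2 := by omega
    have a5 : e.1 + 1 < e.2 := by omega
    exact ⟨⟨hr, a1, a2⟩, a3, a4, a5, hx⟩
  have c2 : B2.card ≤ X1.card := by
    refine sub_card (fun t => (t.2.2 - 1, t.2.1)) ?_
    intro e he
    rw [hB2, Finset.mem_filter] at he
    obtain ⟨he, r, hr, hx⟩ := he
    obtain ⟨e1, e2⟩ := memW e he
    refine ⟨(r, e.2, e.1 + 1), ?_, rfl⟩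
    rw [hX1, Finset.mem_filter, Finset.mem_product, Finset.mem_product, Finset.mem_range,
      Finset.mem_range]
    have a1 : e.2 < n := by omega
    have a2 : e.1 + 1 < n := by omega
    have a3 : e.1 + 1 + 1 < n := by omega
    have a4 : e.1 + 1 < e.2 := by omega
    have a5 : e.1 + 1 + 1 < e.2 := by omega
    exact ⟨⟨hr, a1, a2⟩, a3, a4, a5, hx⟩
  have c3 : B3.card ≤ X2.card := by
    refine sub_card (fun t => (t.2.1 - 2, t.2.2)) ?_
    intro e he
    rw [hB3, Finset.mem_filter] at he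
    obtain ⟨he, r, hr, hx⟩ := he
    obtain ⟨e1, e2⟩ := memW e he
    refine ⟨(r, e.1 + 2, e.2), ?_, rfl⟩
    rw [hX2, Finset.mem_filter, Finset.mem_product, Finset.mem_product, Finset.mem_range,
      Finset.mem_range]
    have a1 : e.1 + 2 < n := by omega
    have a2 : e.2 < n := by omega
    have a3 : e.2 + 1 < n := by omega
    have a4 : e.1 + 2 < e.2 := by omega
    exact ⟨⟨hr, a1, a2⟩, a3, a4, hx⟩
  have c4 : B4.card ≤ X2.card := by
    refine sub_card (fun t => (t.2.1 - 2, t.2.2 - 1)) ?_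
    intro e he
    rw [hB4, Finset.mem_filter] at he
    obtain ⟨he, r, hr, hx⟩ := he
    obtain ⟨e1, e2⟩ := memW e he
    refine ⟨(r, e.1 + 2, e.2 + 1), ?_, rfl⟩
    rw [hX2, Finset.mem_filter, Finset.mem_product, Finset.mem_product, Finset.mem_range,
      Finset.mem_range]
    have a1 : e.1 + 2 < n := by omega
    have a2 : e.2 + 1 < n := by omega
    have a3 : e.2 + 1 + 1 < n := by omega
    have a4 : e.1 + 2 < e.2 + 1 := by omega
    exact ⟨⟨hr, a1, a2⟩, a3, a4, hx⟩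
  have cU : ∀ (s t : ℕ), s ≤ 1 → 1 ≤ t → t ≤ 2 →
      (W.filter (fun e => ¬ ∃ r ∈ R', Mt n p r (e.1 + s) (e.2 + t))).card ≤ U.card := by
    intro s t hs ht1 ht2
    refine sub_card (fun e => (e.1 - s, e.2 - t)) ?_
    intro e he
    rw [Finset.mem_filter] at he
    obtain ⟨he, hx⟩ := he
    obtain ⟨e1, e2⟩ := memW e he
    refine ⟨(e.1 + s, e.2 + t), ?_, ?_⟩
    · rw [hU, Finset.mem_filter, Finset.mem_product, Finset.mem_range, Finset.mem_range]
      exact ⟨⟨by omega, by omega⟩, by omega, hx⟩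
    · simp
  have cD : ∀ (s t : ℕ), 1 ≤ s → s ≤ 2 → t ≤ 1 →
      (W.filter (fun e => ∃ r ∈ R', ∃ r' ∈ R', r ≠ r' ∧ Mt n p r (e.1 + s) (e.2 + t) ∧
        Mt n p r' (e.1 + s) (e.2 + t))).card ≤ DL.card := by
    intro s t hs1 hs2 ht2
    refine sub_card (fun e => (e.1 - s, e.2 - t)) ?_
    intro e he
    rw [Finset.mem_filter] at he
    obtain ⟨he, hx⟩ := he
    obtain ⟨e1, e2⟩ := memW e he
    refine ⟨(e.1 + s, e.2 + t), ?_, ?_⟩
    · rw [hDL, Finset.mem_filter, Finset.mem_product, Finset.mem_range, Finset.mem_range]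
      exact ⟨⟨by omega, by omega⟩, by omega, hx⟩
    · simp
  have c5 : B5.card ≤ U.card := cU 0 1 (by omega) (by omega) (by omega)
  have c6 : B6.card ≤ U.card := cU 0 2 (by omega) (by omega) (by omega)
  have c7 : B7.card ≤ U.card := cU 1 1 (by omega) (by omega) (by omega)
  have c8 : B8.card ≤ U.card := cU 1 2 (by omega) (by omega) (by omega)
  have c9 : B9.card ≤ DL.card := cD 1 0 (by omega) (by omega) (by omega)
  have c10 : B10.card ≤ DL.card := cD 2 0 (by omega) (by omega) (by omega)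
  have c11 : B11.card ≤ DL.card := cD 2 1 (by omega) (by omega) (by omega)
  have hWc := Finset.card_le_card hsub
  have u1 := Finset.card_union_le B1
    (B2 ∪ (B3 ∪ (B4 ∪ (B5 ∪ (B6 ∪ (B7 ∪ (B8 ∪ (B9 ∪ (B10 ∪ B11)))))))))
  have u2 := Finset.card_union_le B2
    (B3 ∪ (B4 ∪ (B5 ∪ (B6 ∪ (B7 ∪ (B8 ∪ (B9 ∪ (B10 ∪ B11))))))))
  have u3 := Finset.card_union_le B3 (B4 ∪ (B5 ∪ (B6 ∪ (B7 ∪ (B8 ∪ (B9 ∪ (B10 ∪ B11)))))))
  have u4 := Finset.card_union_le B4 (B5 ∪ (B6 ∪ (B7 ∪ (B8 ∪ (B9 ∪ (B10 ∪ B11))))))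
  have u5 := Finset.card_union_le B5 (B6 ∪ (B7 ∪ (B8 ∪ (B9 ∪ (B10 ∪ B11)))))
  have u6 := Finset.card_union_le B6 (B7 ∪ (B8 ∪ (B9 ∪ (B10 ∪ B11))))
  have u7 := Finset.card_union_le B7 (B8 ∪ (B9 ∪ (B10 ∪ B11)))
  have u8 := Finset.card_union_le B8 (B9 ∪ (B10 ∪ B11))
  have u9 := Finset.card_union_le B9 (B10 ∪ B11)
  have u10 := Finset.card_union_le B10 B11
  have tot : W.card ≤ 2 * (X1.card + X2.card) + 4 * U.card + 3 * DL.card := by omega
  clear_value B1 B2 B3 B4 B5 B6 B7 B8 B9 B10 B11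
  obtain ⟨k, rfl⟩ : ∃ k, n = k + 10 := ⟨n - 10, by omega⟩
  have k1 : k + 10 - 1 = k + 9 := by omega
  have k4 : k + 10 - 4 = k + 6 := by omega
  have k5 : k + 10 - 5 = k + 5 := by omega
  rw [k1] at q3
  rw [k4, k5] at q4
  have q7 : R'.card * (k + 10) ≤ R.card * (k + 10) := Nat.mul_le_mul_right _ q6
  nlinarith

end MP9b2b.PG
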