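import Pool.Agent.Lib.MP_9b2b7a_co.SW.Chasles
import Pool.Agent.Lib.MP_9b2b7a_co.PG.OutMain

/-! Chasles' theorem for nine points given by six lines, and steps in the index grid. -/

set_option autoImplicit false
open scoped Classical

namespace MP9b2b.PG

/-- a line in sheared coordinates -/
theorem ori_line (ε : ℝ) {a b : ℝ × ℝ} (h : a.1 + ε * a.2 ≠ b.1 + ε * b.2) :
    ∃ α β m : ℝ, m ≠ 0 ∧ ∀ q : ℝ × ℝ, ori a b q = m * (q.2 - (α * (q.1 + ε * q.2) + β)) := by
  have hm : (b.1 - a.1) + ε * (b.2 - a.2) ≠ 0 := by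
    intro h0
    apply h
    linarith
  obtain ⟨m, em⟩ : ∃ m, m = (b.1 - a.1) + ε * (b.2 - a.2) := ⟨_, rfl⟩
  rw [← em] at hm
  refine ⟨(b.2 - a.2) / m, ((b.1 - a.1) * a.2 - (b.2 - a.2) * a.1) / m, m, hm, ?_⟩
  intro q
  have h1 : m * ((b.2 - a.2) / m) = b.2 - a.2 := mul_div_cancel₀ _ hm
  have h2 : m * (((b.1 - a.1) * a.2 - (b.2 - a.2) * a.1) / m) =
    (b.1 - a.1) * a.2 - (b.2 - a.2) * a.1 := mul_div_cancel₀ _ hm
  calc ori a b q = m * q.2 - ((b.2 - a.2) * (q.1 + ε * q.2) +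
        ((b.1 - a.1) * a.2 - (b.2 - a.2) * a.1)) := by rw [em]; unfold ori; ring
    _ = m * q.2 - ((m * ((b.2 - a.2) / m)) * (q.1 + ε * q.2) +
        m * (((b.1 - a.1) * a.2 - (b.2 - a.2) * a.1) / m)) := by rw [h1, h2]
    _ = _ := by ring

theorem chasles_lines (P : MvPolynomial (Fin 2) ℝ) (hP : P.totalDegree ≤ 3) (ε : ℝ)
    (r1 r2 c1 c2 : Fin 3 → ℝ × ℝ) (g : Fin 3 → Fin 3 → ℝ × ℝ)
    (hr0 : ∀ i, (r1 i).1 + ε * (r1 i).2 ≠ (r2 i).1 + ε * (r2 i).2)
    (hc0 : ∀ i, (c1 i).1 + ε * (c1 i).2 ≠ (c2 i).1 + ε * (c2 i).2)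
    (hr : ∀ i i' j, ori (r1 i) (r2 i) (g i' j) = 0 ↔ i' = i)
    (hc : ∀ j i j', ori (c1 j) (c2 j) (g i j') = 0 ↔ j' = j)
    (h8 : ∀ i j, ¬ (i = 2 ∧ j = 2) → MvPolynomial.eval ![(g i j).1, (g i j).2] P = 0) :
    MvPolynomial.eval ![(g 2 2).1, (g 2 2).2] P = 0 := by
  have H1 := fun i => ori_line ε (hr0 i)
  have H2 := fun i => ori_line ε (hc0 i)
  choose α β m hm hα using H1
  choose γ δ k hk hγ using H2
  have onr : ∀ i i' j, (g i' j).2 = α i * ((g i' j).1 + ε * (g i' j).2) + β i ↔ i' = i := by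
    intro i i' j
    rw [← hr i i' j, hα i, mul_eq_zero, or_iff_right (hm i), sub_eq_zero]
  have onc : ∀ j i j', (g i j').2 = γ j * ((g i j').1 + ε * (g i j').2) + δ j ↔ j' = j := by
    intro j i j'
    rw [← hc j i j', hγ j, mul_eq_zero, or_iff_right (hk j), sub_eq_zero]
  have hf := cub_shear (cub_eval P hP) ε
  have e : ∀ i j, (g i j).1 + ε * (g i j).2 - ε * (g i j).2 = (g i j).1 := fun i j => by ring
  have key := chasles hf α β γ δ (fun i j => (g i j).1 + ε * (g i j).2) (fun i j => (g i j).2)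
    (fun i j => (onr i i j).2 rfl) (fun i j => (onc j i j).2 rfl)
    (by
      intro i j j' hj he
      have he : (g i j).1 + ε * (g i j).2 = (g i j').1 + ε * (g i j').2 := he
      have h1 := (onr i i j).2 rfl
      have h2 := (onr i i j').2 rfl
      have h3 : (g i j).2 = (g i j').2 := by rw [h1, h2, he]
      have h4 := (onc j i j).2 rfl
      rw [he, h3] at h4
      exact hj ((onc j i j').1 h4).symm)
    (by
      intro j hj
      have h1 := (onr 0 0 j).2 rfl
      have h2 := (onc j 0 j).2 rfl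
      have h3 : α 0 = γ j := by linarith
      have h4 : β 0 = δ j := by
        rw [h3] at h1
        linarith
      have h5 := (onc j 1 j).2 rfl
      rw [← h3, ← h4] at h5
      exact absurd ((onr 0 1 j).1 h5) (by decide))
    (fun j hj => absurd ((onr 0 1 j).1 hj) (by decide))
    (fun j hj => absurd ((onr 0 2 j).1 hj) (by decide))
    (fun j hj => absurd ((onr 1 2 j).1 hj) (by decide))
    (by
      intro i j hij
      have := h8 i j hij
      show MvPolynomial.eval ![(g i j).1 + ε * (g i j).2 - ε * (g i j).2, (g i j).2] P = 0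
      rw [e]; exact this)
  have key : MvPolynomial.eval ![(g 2 2).1 + ε * (g 2 2).2 - ε * (g 2 2).2, (g 2 2).2] P = 0 := key
  rw [e] at key
  exact key

theorem chasles_any (P : MvPolynomial (Fin 2) ℝ) (hP : P.totalDegree ≤ 3) (ε : ℝ)
    (r1 r2 c1 c2 : Fin 3 → ℝ × ℝ) (g : Fin 3 → Fin 3 → ℝ × ℝ)
    (hr0 : ∀ i, (r1 i).1 + ε * (r1 i).2 ≠ (r2 i).1 + ε * (r2 i).2)
    (hc0 : ∀ i, (c1 i).1 + ε * (c1 i).2 ≠ (c2 i).1 + ε * (c2 i).2)
    (hr : ∀ i i' j, ori (r1 i) (r2 i) (g i' j) = 0 ↔ i' = i)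
    (hc : ∀ j i j', ori (c1 j) (c2 j) (g i j') = 0 ↔ j' = j) (a b : Fin 3)
    (h8 : ∀ i j, ¬ (i = a ∧ j = b) → MvPolynomial.eval ![(g i j).1, (g i j).2] P = 0) :
    MvPolynomial.eval ![(g a b).1, (g a b).2] P = 0 := by
  have key := chasles_lines P hP ε (fun i => r1 (Equiv.swap a 2 i)) (fun i => r2 (Equiv.swap a 2 i))
    (fun i => c1 (Equiv.swap b 2 i)) (fun i => c2 (Equiv.swap b 2 i))
    (fun i j => g (Equiv.swap a 2 i) (Equiv.swap b 2 j)) (fun i => hr0 _) (fun i => hc0 _)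
    (fun i i' j => by rw [hr]; exact (Equiv.swap a 2).injective.eq_iff)
    (fun j i j' => by rw [hc]; exact (Equiv.swap b 2).injective.eq_iff)
    (by
      intro i j hij
      apply h8
      rintro ⟨h1, h2⟩
      apply hij
      refine ⟨?_, ?_⟩
      · apply (Equiv.swap a 2).injective
        rw [h1, Equiv.swap_apply_right]
      · apply (Equiv.swap b 2).injective
        rw [h2, Equiv.swap_apply_right])
  simpa only [Equiv.swap_apply_right] using key

/-- the closure property of a `3 x 3` block of the index grid -/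
structure Gd (L R C : ℕ → Prop) (x y : ℕ) : Prop where
  l0 : L (x + 1) → L (x + 2) → R y → R (y + 1) → R (y + 2) → C (x + y + 1) → C (x + y + 2) →
    C (x + y + 3) → L x
  l2 : L x → L (x + 1) → R y → R (y + 1) → R (y + 2) → C (x + y + 1) → C (x + y + 2) →
    C (x + y + 3) → L (x + 2)
  r0 : L x → L (x + 1) → L (x + 2) → R (y + 1) → R (y + 2) → C (x + y + 1) → C (x + y + 2) →
    C (x + y + 3) → R y
  r2 : L x → L (x + 1) → L (x + 2) → R y → R (y + 1) → C (x + y + 1) → C (x + y + 2) →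
    C (x + y + 3) → R (y + 2)
  c1 : L x → L (x + 1) → L (x + 2) → R y → R (y + 1) → R (y + 2) → C (x + y + 2) →
    C (x + y + 3) → C (x + y + 1)
  c3 : L x → L (x + 1) → L (x + 2) → R y → R (y + 1) → R (y + 2) → C (x + y + 1) →
    C (x + y + 2) → C (x + y + 3)

/-- everything near the block -/
structure Fl (L R C : ℕ → Prop) (x y : ℕ) : Prop where
  l : ∀ s ≤ 2, L (x + s)
  r : ∀ s ≤ 2, R (y + s)
  c : ∀ s ≤ 4, C (x + y + s)

variable {L R C : ℕ → Prop}

theorem Gd.swap {x y : ℕ} (h : Gd L R C x y) : Gd R L C y x := by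
  constructor
  · intro a1 a2 a3 a4 a5 a6 a7 a8
    rw [add_comm y x] at a6 a7 a8
    exact h.r0 a3 a4 a5 a1 a2 a6 a7 a8
  · intro a1 a2 a3 a4 a5 a6 a7 a8
    rw [add_comm y x] at a6 a7 a8
    exact h.r2 a3 a4 a5 a1 a2 a6 a7 a8
  · intro a1 a2 a3 a4 a5 a6 a7 a8
    rw [add_comm y x] at a6 a7 a8
    exact h.l0 a4 a5 a1 a2 a3 a6 a7 a8
  · intro a1 a2 a3 a4 a5 a6 a7 a8
    rw [add_comm y x] at a6 a7 a8
    exact h.l2 a4 a5 a1 a2 a3 a6 a7 a8
  · intro a1 a2 a3 a4 a5 a6 a7 a8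
    rw [add_comm y x] at a7 a8 ⊢
    exact h.c1 a4 a5 a6 a1 a2 a3 a7 a8
  · intro a1 a2 a3 a4 a5 a6 a7 a8
    rw [add_comm y x] at a7 a8 ⊢
    exact h.c3 a4 a5 a6 a1 a2 a3 a7 a8

theorem Fl.swap {x y : ℕ} (h : Fl L R C x y) : Fl R L C y x :=
  ⟨h.r, h.l, fun s hs => by rw [add_comm y x]; exact h.c s hs⟩

theorem step_fwd {x y : ℕ} (g1 : Gd L R C (x + 1) y) (g2 : Gd L R C x (y + 1))
    (g3 : Gd L R C (x + 1) (y + 1)) (h : Fl L R C x y) : Fl L R C (x + 1) y := by
  have l0 : L x := h.l 0 (by norm_num)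
  have l1 : L (x + 1) := h.l 1 (by norm_num)
  have l2 : L (x + 2) := h.l 2 (by norm_num)
  have r0 : R y := h.r 0 (by norm_num)
  have r1 : R (y + 1) := h.r 1 (by norm_num)
  have r2 : R (y + 2) := h.r 2 (by norm_num)
  have c1 : C (x + y + 1) := h.c 1 (by norm_num)
  have c2 : C (x + y + 2) := h.c 2 (by norm_num)
  have c3 : C (x + y + 3) := h.c 3 (by norm_num)
  have c4 : C (x + y + 4) := h.c 4 (by norm_num)
  have e1 : x + 1 + y = x + y + 1 := by ring
  have e2 : x + (y + 1) = x + y + 1 := by ring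
  have e3 : x + 1 + (y + 1) = x + y + 2 := by ring
  have l3 : L (x + 3) := g1.l2 l1 l2 r0 r1 r2 (by rw [e1]; exact c2) (by rw [e1]; exact c3)
    (by rw [e1]; exact c4)
  have r3 : R (y + 3) := g2.r2 l0 l1 l2 r1 r2 (by rw [e2]; exact c2) (by rw [e2]; exact c3)
    (by rw [e2]; exact c4)
  have c5 : C (x + y + 5) := by
    have := g3.c3 l1 l2 l3 r1 r2 r3 (by rw [e3]; exact c3) (by rw [e3]; exact c4)
    rw [e3] at this
    exact this
  refine ⟨?_, h.r, ?_⟩
  · intro s hs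
    interval_cases s
    · exact l1
    · exact l2
    · exact l3
  · intro s hs
    rw [e1]
    interval_cases s
    · exact c1
    · exact c2
    · exact c3
    · exact c4
    · exact c5

theorem step_bwd {x y : ℕ} (g1 : Gd L R C x (y + 1)) (g2 : Gd L R C (x + 1) y)
    (g3 : Gd L R C x y) (h : Fl L R C (x + 1) (y + 1)) : Fl L R C x (y + 1) := by
  have e0 : x + 1 + (y + 1) = x + y + 2 := by ring
  have e1 : x + (y + 1) = x + y + 1 := by ring
  have e2 : x + 1 + y = x + y + 1 := by ring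
  have l1 : L (x + 1) := h.l 0 (by norm_num)
  have l2 : L (x + 2) := h.l 1 (by norm_num)
  have l3 : L (x + 3) := h.l 2 (by norm_num)
  have r1 : R (y + 1) := h.r 0 (by norm_num)
  have r2 : R (y + 2) := h.r 1 (by norm_num)
  have r3 : R (y + 3) := h.r 2 (by norm_num)
  have hc := h.c
  rw [e0] at hc
  have c2 : C (x + y + 2) := hc 0 (by norm_num)
  have c3 : C (x + y + 3) := hc 1 (by norm_num)
  have c4 : C (x + y + 4) := hc 2 (by norm_num)
  have c5 : C (x + y + 5) := hc 3 (by norm_num)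
  have l0 : L x := g1.l0 l1 l2 r1 r2 r3 (by rw [e1]; exact c2) (by rw [e1]; exact c3)
    (by rw [e1]; exact c4)
  have r0 : R y := g2.r0 l1 l2 l3 r1 r2 (by rw [e2]; exact c2) (by rw [e2]; exact c3)
    (by rw [e2]; exact c4)
  have c1 : C (x + y + 1) := g3.c1 l0 l1 l2 r0 r1 r2 c2 c3
  refine ⟨?_, h.r, ?_⟩
  · intro s hs
    interval_cases s
    · exact l0
    · exact l1
    · exact l2
  · intro s hs
    rw [e1]
    interval_cases s
    · exact c1
    · exact c2
    · exact c3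
    · exact c4
    · exact c5

/-- the start: a block and one more colour -/
theorem start {x y : ℕ} (g1 : Gd L R C (x + 1) (y + 1)) (g2 : Gd L R C x (y + 1))
    (g3 : Gd L R C x y) (l1 : L (x + 1)) (l2 : L (x + 2)) (l3 : L (x + 3)) (r0 : R y)
    (r1 : R (y + 1)) (r2 : R (y + 2)) (c2 : C (x + y + 2)) (c3 : C (x + y + 3))
    (c4 : C (x + y + 4)) (c5 : C (x + y + 5)) : Fl L R C (x + 1) y := by
  have e0 : x + 1 + (y + 1) = x + y + 2 := by ring
  have e1 : x + (y + 1) = x + y + 1 := by ring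
  have e2 : x + 1 + y = x + y + 1 := by ring
  have r3 : R (y + 3) := g1.r2 l1 l2 l3 r1 r2 (by rw [e0]; exact c3) (by rw [e0]; exact c4)
    (by rw [e0]; exact c5)
  have l0 : L x := g2.l0 l1 l2 r1 r2 r3 (by rw [e1]; exact c2) (by rw [e1]; exact c3)
    (by rw [e1]; exact c4)
  have c1 : C (x + y + 1) := g3.c1 l0 l1 l2 r0 r1 r2 c2 c3
  refine ⟨?_, ?_, ?_⟩
  · intro s hs
    interval_cases s
    · exact l1
    · exact l2
    · exact l3
  · intro s hs
    interval_cases s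
    · exact r0
    · exact r1
    · exact r2
  · intro s hs
    rw [e2]
    interval_cases s
    · exact c1
    · exact c2
    · exact c3
    · exact c4
    · exact c5

end MP9b2b.PG
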