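import Mathlib

/-! Abstract part of the polygon piercing theorem: partial matchings of two sequences with the
step property, clean windows, the pigeonhole argument. -/

set_option autoImplicit false
open scoped Classical

namespace MP9b2b.PG

/-- a partial matching between `[0,n)` and `[0,n')` in which the partner of `i+1` is the neighbour
(in a fixed direction) of the partner of `i`, unless that neighbour has no partner at all. -/
structure Rel (n n' : ℕ) (M : ℕ → ℕ → Prop) : Prop where
  lt1 : ∀ {i j}, M i j → i < n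
  lt2 : ∀ {i j}, M i j → j < n'
  fun1 : ∀ {i j j'}, M i j → M i j' → j = j'
  fun2 : ∀ {i i' j}, M i j → M i' j → i = i'
  step : (∀ i j j', M i j → M (i + 1) j' → j = 0 ∨ (¬ ∃ i', M i' (j - 1)) ∨ j' + 1 = j) ∨
    (∀ i j j', M i j → M (i + 1) j' → (¬ ∃ i', M i' (j + 1)) ∨ j' = j + 1)

/-- the number of switches of a predicate on `[0,n)` -/
noncomputable def sw (n : ℕ) (J : ℕ → Prop) : ℕ :=
  ((Finset.range (n - 1)).filter (fun i => ¬ (J i ↔ J (i + 1)))).card

/-- the window `[a, a+L)` is clean, with type `b` and key `k` -/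
def Cl (M : ℕ → ℕ → Prop) (L a : ℕ) (b : Bool) (k : ℤ) : Prop :=
  ∀ i < L, ∃ j, M (a + i) j ∧ (j : ℤ) = if b then k - (a + i : ℤ) else k + (a + i : ℤ)

variable {n n' : ℕ} {M : ℕ → ℕ → Prop}

theorem Cl.key {L a : ℕ} {b : Bool} {k k' : ℤ} (hM : Rel n n' M) (hL : 0 < L)
    (h : Cl M L a b k) (h' : Cl M L a b k') : k = k' := by
  obtain ⟨j, hj, e⟩ := h 0 hL
  obtain ⟨j', hj', e'⟩ := h' 0 hL
  have := hM.fun1 hj hj'
  subst this
  rw [e] at e'
  cases b <;> simp at e' <;> linarith

/-- imperfect steps -/
theorem bad_card (hM : Rel n n' M) :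
    ∃ b : Bool, ((Finset.range (n - 1)).filter (fun i => ∃ j j', M i j ∧ M (i + 1) j' ∧
      ¬ (if b then j' + 1 = j else j' = j + 1))).card ≤ sw n' (fun j => ∃ i, M i j) + 1 := by
  have key : ∀ (P : ℕ → ℕ → Prop) (f : ℕ → ℕ) (x : ℕ),
      (∀ i j j', M i j → M (i + 1) j' → ¬ P j j' →
        f j = x ∨ f j ∈ ((Finset.range (n' - 1)).filter
          (fun i => ¬ ((∃ i', M i' i) ↔ (∃ i', M i' (i + 1)))))) →
      (∀ j1 j2, (∃ i, M i j1) → (∃ i, M i j2) → f j1 = f j2 → j1 = j2) →
      ((Finset.range (n - 1)).filter (fun i => ∃ j j', M i j ∧ M (i + 1) j' ∧ ¬ P j j')).card ≤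
        sw n' (fun j => ∃ i, M i j) + 1 := by
    intro P f x h1 h2
    have hσ : ∀ i, ∃ j, (∃ j0, M i j0) → M i j := by
      intro i
      by_cases h : ∃ j0, M i j0
      · obtain ⟨j0, h0⟩ := h
        exact ⟨j0, fun _ => h0⟩
      · exact ⟨0, fun h' => absurd h' h⟩
    choose σ hσ using hσ
    have hcard : (insert x ((Finset.range (n' - 1)).filter
        (fun i => ¬ ((∃ i', M i' i) ↔ (∃ i', M i' (i + 1)))))).card ≤
        sw n' (fun j => ∃ i, M i j) + 1 := Finset.card_insert_le _ _
    refine le_trans ?_ hcard
    apply Finset.card_le_card_of_injOn (fun i => f (σ i))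
    · intro i hi
      rw [Finset.mem_coe, Finset.mem_filter] at hi
      obtain ⟨-, j, j', hj, hj', hP⟩ := hi
      have : σ i = j := hM.fun1 (hσ i ⟨j, hj⟩) hj
      show f (σ i) ∈ _
      rw [this]
      rw [Finset.mem_coe, Finset.mem_insert]
      exact h1 i j j' hj hj' hP
    · intro i hi i2 hi2 he
      rw [Finset.mem_coe, Finset.mem_filter] at hi hi2
      obtain ⟨-, j, -, hj, -, -⟩ := hi
      obtain ⟨-, j2, -, hj2, -, -⟩ := hi2
      have e1 := hσ i ⟨j, hj⟩
      have e2 := hσ i2 ⟨j2, hj2⟩
      have := h2 _ _ ⟨i, e1⟩ ⟨i2, e2⟩ he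
      rw [← this] at e2
      exact hM.fun2 e1 e2
  rcases hM.step with hs | hs
  · refine ⟨true, ?_⟩
    have := key (fun j j' => j' + 1 = j) (fun j => if j = 0 then n' else j - 1) n' ?_ ?_
    · simpa using this
    · intro i j j' hj hj' hP
      rcases hs i j j' hj hj' with h | h | h
      · left; simp [h]
      · by_cases h0 : j = 0
        · left; simp [h0]
        · right
          have hjn := hM.lt2 hj
          rw [if_neg h0, Finset.mem_filter, Finset.mem_range]
          refine ⟨by omega, fun hiff => h (hiff.2 ⟨i, ?_⟩)⟩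
          rwa [Nat.sub_add_cancel (by omega)]
      · exact absurd h hP
    · rintro j1 j2 ⟨i1, h1⟩ ⟨i2, h2⟩ he
      have := hM.lt2 h1
      have := hM.lt2 h2
      by_cases c1 : j1 = 0 <;> by_cases c2 : j2 = 0 <;> simp [c1, c2] at he ⊢ <;> omega
  · refine ⟨false, ?_⟩
    have := key (fun j j' => j' = j + 1) (fun j => j) (n' - 1) ?_ ?_
    · simpa using this
    · intro i j j' hj hj' hP
      rcases hs i j j' hj hj' with h | h
      · have hjn := hM.lt2 hj
        by_cases h0 : j = n' - 1
        · left; exact h0
        · right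
          rw [Finset.mem_filter, Finset.mem_range]
          exact ⟨by omega, fun hiff => h (hiff.1 ⟨i, hj⟩)⟩
      · exact absurd h hP
    · rintro j1 j2 - - he
      exact he

/-- number of clean windows -/
theorem clean_card (hM : Rel n n' M) (L : ℕ) (hL : 0 < L) :
    ((Finset.range n).filter (fun i => ∃ j, M i j)).card ≤
      ((Finset.range n).filter (fun a => a + L ≤ n ∧ ∃ b k, Cl M L a b k)).card +
        (L - 1) * (sw n (fun i => ∃ j, M i j) + sw n' (fun j => ∃ i, M i j) + 2) := by
  obtain ⟨b, hb⟩ := bad_card hM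
  set Bad := (Finset.range (n - 1)).filter (fun i => ∃ j j', M i j ∧ M (i + 1) j' ∧
      ¬ (if b then j' + 1 = j else j' = j + 1)) with hBad
  set Sw := (Finset.range (n - 1)).filter (fun i => ¬ ((∃ j, M i j) ↔ (∃ j, M (i + 1) j))) with hSw
  set Br := Bad ∪ Sw ∪ {n - 1} with hBr
  have hBrc : Br.card ≤ sw n (fun i => ∃ j, M i j) + sw n' (fun j => ∃ i, M i j) + 2 := by
    have h1 : Br.card ≤ (Bad ∪ Sw).card + 1 := by
      rw [hBr]
      exact (Finset.card_union_le _ _).trans (by simp)
    have h2 := Finset.card_union_le Bad Sw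
    have h3 : Sw.card = sw n (fun i => ∃ j, M i j) := rfl
    omega
  have hsub : (Finset.range n).filter (fun i => ∃ j, M i j) ⊆
      (Finset.range n).filter (fun a => a + L ≤ n ∧ ∃ b k, Cl M L a b k) ∪
        Br.biUnion (fun i => (Finset.range (i + 1)).filter (fun a => i < a + (L - 1))) := by
    intro a ha
    rw [Finset.mem_filter, Finset.mem_range] at ha
    obtain ⟨han, hja⟩ := ha
    rw [Finset.mem_union]
    by_cases hbr : ∃ i ∈ Br, a ≤ i ∧ i < a + (L - 1)
    · right
      obtain ⟨i, hi, h1, h2⟩ := hbr
      rw [Finset.mem_biUnion]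
      exact ⟨i, hi, by rw [Finset.mem_filter, Finset.mem_range]; omega⟩
    · left
      push Not at hbr
      have haL : a + L ≤ n := by
        by_contra hc
        have hmem : n - 1 ∈ Br := by simp [hBr]
        have := hbr (n - 1) hmem (by omega)
        omega
      rw [Finset.mem_filter, Finset.mem_range]
      refine ⟨han, haL, b, ?_⟩
      obtain ⟨j0, hj0⟩ := hja
      refine ⟨if b then (j0 : ℤ) + a else (j0 : ℤ) - a, ?_⟩
      intro i hi
      induction i with
      | zero =>
        refine ⟨j0, by simpa using hj0, ?_⟩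
        cases b <;> simp
      | succ i ih =>
        obtain ⟨j, hj, he⟩ := ih (by omega)
        have hnot : a + i ∉ Br := fun hmem => by
          have := hbr (a + i) hmem (by omega)
          omega
        rw [hBr, Finset.mem_union, Finset.mem_union] at hnot
        push Not at hnot
        obtain ⟨⟨hn1, hn2⟩, -⟩ := hnot
        have hnext : ∃ j, M (a + i + 1) j := by
          by_contra hc
          apply hn2
          rw [hSw, Finset.mem_filter, Finset.mem_range]
          exact ⟨by omega, fun hiff => hc (hiff.1 ⟨j, hj⟩)⟩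
        obtain ⟨j', hj'⟩ := hnext
        have hperf : (if b then j' + 1 = j else j' = j + 1) := by
          by_contra hc
          apply hn1
          rw [hBad, Finset.mem_filter, Finset.mem_range]
          exact ⟨by omega, j, j', hj, hj', hc⟩
        refine ⟨j', hj', ?_⟩
        cases b
        · simp only [Bool.false_eq_true, if_false] at hperf he ⊢
          push_cast
          rw [hperf]
          push_cast
          rw [he]
          ring
        · simp only [if_true] at hperf he ⊢
          push_cast
          have : (j' : ℤ) = j - 1 := by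
            have : ((j' + 1 : ℕ) : ℤ) = j := by exact_mod_cast hperf
            push_cast at this
            linarith
          rw [this, he]
          ring
  have h1 := Finset.card_le_card hsub
  have h2 := Finset.card_union_le ((Finset.range n).filter (fun a => a + L ≤ n ∧ ∃ b k, Cl M L a b k))
    (Br.biUnion (fun i => (Finset.range (i + 1)).filter (fun a => i < a + (L - 1))))
  have h3 : (Br.biUnion (fun i => (Finset.range (i + 1)).filter (fun a => i < a + (L - 1)))).card ≤
      Br.card * (L - 1) := by
    apply Finset.card_biUnion_le_card_mul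
    intro i _
    have : (Finset.range (i + 1)).filter (fun a => i < a + (L - 1)) ⊆
        (Finset.range (L - 1)).image (fun t => i - t) := by
      intro a ha
      rw [Finset.mem_filter, Finset.mem_range] at ha
      rw [Finset.mem_image]
      exact ⟨i - a, by rw [Finset.mem_range]; omega, by omega⟩
    refine (Finset.card_le_card this).trans ?_
    refine Finset.card_image_le.trans ?_
    simp
  have h4 : Br.card * (L - 1) ≤
      (L - 1) * (sw n (fun i => ∃ j, M i j) + sw n' (fun j => ∃ i, M i j) + 2) := by
    rw [mul_comm]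
    exact Nat.mul_le_mul_left _ hBrc
  omega

end MP9b2b.PG
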