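import Pool.Agent.Lib.MP_9b2b7a_co.PG.Core

/-! The averaging and pigeonhole step. -/

set_option autoImplicit false
open scoped Classical

namespace MP9b2b.PG

theorem Cl.val {M : ℕ → ℕ → Prop} {L a : ℕ} {b : Bool} {k : ℤ} (h : Cl M L a b k) {i : ℕ}
    (hi : i < L) : ∃ j, M (a + i) j ∧ (j : ℤ) = if b then k - (a + i : ℤ) else k + (a + i : ℤ) :=
  h i hi

/-- three of the elements of `R` have a clean window at the same place, of the same type and with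
almost equal, but different keys -/
theorem three_clean {ρ : Type} {n n' : ℕ} (R : Finset ρ) (Mr : ρ → ℕ → ℕ → Prop)
    (hM : ∀ r ∈ R, Rel n n' (Mr r))
    (hd : ∀ r ∈ R, ∀ r' ∈ R, r ≠ r' → ∀ i j0 j1 j2, ¬ (Mr r i j0 ∧ Mr r' i j0 ∧
      Mr r (i + 1) j1 ∧ Mr r' (i + 1) j1 ∧ Mr r (i + 2) j2 ∧ Mr r' (i + 2) j2))
    (ℓ : ℕ) (hℓ : 0 < ℓ)
    (hT : n * (4 * ((n + n') / ℓ + 1)) + (2 * ℓ) * (∑ r ∈ R,
        (sw n (fun i => ∃ j, Mr r i j) + sw n' (fun j => ∃ i, Mr r i j) + 2)) <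
      ∑ r ∈ R, ((Finset.range n).filter (fun i => ∃ j, Mr r i j)).card) :
    ∃ (a : ℕ) (b : Bool) (r1 r2 r3 : ρ) (k1 k2 k3 : ℤ), a + (2 * ℓ + 1) ≤ n ∧
      r1 ∈ R ∧ r2 ∈ R ∧ r3 ∈ R ∧ r1 ≠ r2 ∧ r1 ≠ r3 ∧ r2 ≠ r3 ∧
      k1 ≠ k2 ∧ k1 ≠ k3 ∧ k2 ≠ k3 ∧ |k1 - k2| < ℓ ∧ |k1 - k3| < ℓ ∧ |k2 - k3| < ℓ ∧
      Cl (Mr r1) (2 * ℓ + 1) a b k1 ∧ Cl (Mr r2) (2 * ℓ + 1) a b k2 ∧
      Cl (Mr r3) (2 * ℓ + 1) a b k3 := by
  set L := 2 * ℓ + 1 with hL
  set B := (n + n') / ℓ + 1 with hB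
  have h1 : ∑ r ∈ R, ((Finset.range n).filter (fun i => ∃ j, Mr r i j)).card ≤
      ∑ r ∈ R, ((Finset.range n).filter (fun a => a + L ≤ n ∧ ∃ b k, Cl (Mr r) L a b k)).card +
      (2 * ℓ) * (∑ r ∈ R,
        (sw n (fun i => ∃ j, Mr r i j) + sw n' (fun j => ∃ i, Mr r i j) + 2)) := by
    rw [Finset.mul_sum, ← Finset.sum_add_distrib]
    apply Finset.sum_le_sum
    intro r hr
    have := clean_card (hM r hr) L (by omega)
    have e : L - 1 = 2 * ℓ := by omega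
    rw [e] at this
    exact this
  have h2 : n * (4 * B) <
      ∑ r ∈ R, ((Finset.range n).filter (fun a => a + L ≤ n ∧ ∃ b k, Cl (Mr r) L a b k)).card := by
    omega
  have h3 : ∑ r ∈ R, ((Finset.range n).filter
        (fun a => a + L ≤ n ∧ ∃ b k, Cl (Mr r) L a b k)).card =
      ∑ a ∈ Finset.range n, (R.filter (fun r => a + L ≤ n ∧ ∃ b k, Cl (Mr r) L a b k)).card := by
    simp only [Finset.card_filter]
    rw [Finset.sum_comm]
  rw [h3] at h2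
  obtain ⟨a, ha, hcard⟩ : ∃ a ∈ Finset.range n, 4 * B <
      (R.filter (fun r => a + L ≤ n ∧ ∃ b k, Cl (Mr r) L a b k)).card := by
    by_contra hc
    push Not at hc
    have := Finset.sum_le_sum hc
    rw [Finset.sum_const, Finset.card_range, smul_eq_mul] at this
    omega
  rw [Finset.mem_range] at ha
  have hch : ∀ r, ∃ bk : Bool × ℤ, (a + L ≤ n ∧ ∃ b k, Cl (Mr r) L a b k) →
      Cl (Mr r) L a bk.1 bk.2 := by
    intro r
    by_cases h : a + L ≤ n ∧ ∃ b k, Cl (Mr r) L a b k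
    · obtain ⟨-, b, k, h'⟩ := h
      exact ⟨(b, k), fun _ => h'⟩
    · exact ⟨(true, 0), fun h' => absurd h' h⟩
  choose bk hbk using hch
  set f : ρ → Bool × ℕ := fun r => ((bk r).1, (((bk r).2 + if (bk r).1 then 0 else (n : ℤ)) / (ℓ : ℤ)).toNat)
    with hf
  have hℓ' : (0 : ℤ) < ℓ := by exact_mod_cast hℓ
  have hrange : ∀ r ∈ R.filter (fun r => a + L ≤ n ∧ ∃ b k, Cl (Mr r) L a b k),
      0 ≤ (bk r).2 + (if (bk r).1 then 0 else (n : ℤ)) ∧
      (bk r).2 + (if (bk r).1 then 0 else (n : ℤ)) ≤ n + n' := by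
    intro r hr
    rw [Finset.mem_filter] at hr
    obtain ⟨j, hj, e⟩ := hbk r hr.2 0 (by omega)
    have hj2 := (hM r hr.1).lt2 hj
    have hj1 := (hM r hr.1).lt1 hj
    rcases hb : (bk r).1 with _ | _
    · rw [hb] at e
      simp only [Bool.false_eq_true, if_false] at e ⊢
      push_cast at e
      constructor <;> omega
    · rw [hb] at e
      simp only [if_true] at e ⊢
      push_cast at e
      constructor <;> omega
  have hmaps : ∀ r ∈ R.filter (fun r => a + L ≤ n ∧ ∃ b k, Cl (Mr r) L a b k),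
      f r ∈ (Finset.univ : Finset Bool) ×ˢ Finset.range B := by
    intro r hr
    rw [Finset.mem_product]
    refine ⟨Finset.mem_univ _, ?_⟩
    rw [Finset.mem_range]
    obtain ⟨hr1, hr2⟩ := hrange r hr
    show ((((bk r).2 + if (bk r).1 then 0 else (n : ℤ)) / (ℓ : ℤ)).toNat) < B
    have e1 : (((bk r).2 + if (bk r).1 then 0 else (n : ℤ)) / (ℓ : ℤ)) ≤ ((n : ℤ) + n') / ℓ :=
      Int.ediv_le_ediv hℓ' hr2
    have e2 : (((n + n') / ℓ : ℕ) : ℤ) = ((n : ℤ) + n') / ℓ := by push_cast; rfl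
    have e3 : ((((bk r).2 + if (bk r).1 then 0 else (n : ℤ)) / (ℓ : ℤ)).toNat) ≤ (n + n') / ℓ := by
      rw [Int.toNat_le, e2]
      exact e1
    exact Nat.lt_succ_of_le e3
  have hlt : ((Finset.univ : Finset Bool) ×ˢ Finset.range B).card * 2 <
      (R.filter (fun r => a + L ≤ n ∧ ∃ b k, Cl (Mr r) L a b k)).card := by
    rw [Finset.card_product, Finset.card_range]
    simp only [Finset.card_univ, Fintype.card_bool]
    omega
  obtain ⟨y, -, hy⟩ := Finset.exists_lt_card_fiber_of_mul_lt_card_of_maps_to hmaps hlt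
  rw [Finset.two_lt_card] at hy
  obtain ⟨r1, h1', r2, h2', r3, h3', h12, h13, h23⟩ := hy
  rw [Finset.mem_filter] at h1' h2' h3'
  have hm1 := h1'.1
  have hm2 := h2'.1
  have hm3 := h3'.1
  rw [Finset.mem_filter] at hm1 hm2 hm3
  have c1 := hbk r1 hm1.2
  have c2 := hbk r2 hm2.2
  have c3 := hbk r3 hm3.2
  -- equal types and bins
  have hclose : ∀ r ∈ R.filter (fun r => a + L ≤ n ∧ ∃ b k, Cl (Mr r) L a b k),
      ∀ r' ∈ R.filter (fun r => a + L ≤ n ∧ ∃ b k, Cl (Mr r) L a b k), f r = f r' →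
      (bk r).1 = (bk r').1 ∧ |(bk r).2 - (bk r').2| < ℓ := by
    intro r hr r' hr' he
    have e1' : (f r).1 = (f r').1 := congrArg Prod.fst he
    have e2' : (f r).2 = (f r').2 := congrArg Prod.snd he
    have e1 : (bk r).1 = (bk r').1 := e1'
    have e2 : ((((bk r).2 + if (bk r).1 then 0 else (n : ℤ)) / (ℓ : ℤ)).toNat) =
      ((((bk r').2 + if (bk r').1 then 0 else (n : ℤ)) / (ℓ : ℤ)).toNat) := e2'
    refine ⟨e1, ?_⟩
    have p1 := (hrange r hr).1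
    have p2 := (hrange r' hr').1
    rw [← e1] at e2 p2
    set w : ℤ := (if (bk r).1 then 0 else (n : ℤ))
    have q1 : 0 ≤ ((bk r).2 + w) / (ℓ : ℤ) := Int.ediv_nonneg p1 hℓ'.le
    have q2 : 0 ≤ ((bk r').2 + w) / (ℓ : ℤ) := Int.ediv_nonneg p2 hℓ'.le
    have e3 : ((bk r).2 + w) / (ℓ : ℤ) = ((bk r').2 + w) / (ℓ : ℤ) := by
      have := congrArg (fun t : ℕ => (t : ℤ)) e2
      simp only [Int.toNat_of_nonneg q1, Int.toNat_of_nonneg q2] at this
      exact this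
    have d1 := Int.mul_ediv_add_emod ((bk r).2 + w) ℓ
    have d2 := Int.mul_ediv_add_emod ((bk r').2 + w) ℓ
    have m1 := Int.emod_nonneg ((bk r).2 + w) hℓ'.ne'
    have m2 := Int.emod_nonneg ((bk r').2 + w) hℓ'.ne'
    have m3 := Int.emod_lt_of_pos ((bk r).2 + w) hℓ'
    have m4 := Int.emod_lt_of_pos ((bk r').2 + w) hℓ'
    rw [e3] at d1
    rw [abs_lt]
    constructor <;> linarith
  have hkne : ∀ r ∈ R, ∀ r' ∈ R, r ≠ r' → ∀ b k, Cl (Mr r) L a b k → ¬ Cl (Mr r') L a b k := by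
    intro r hr r' hr' hne b k hc hc'
    obtain ⟨j0, h0, e0⟩ := hc 0 (by omega)
    obtain ⟨j1, h1, e1⟩ := hc 1 (by omega)
    obtain ⟨j2, h2, e2⟩ := hc 2 (by omega)
    obtain ⟨j0', h0', e0'⟩ := hc' 0 (by omega)
    obtain ⟨j1', h1', e1'⟩ := hc' 1 (by omega)
    obtain ⟨j2', h2', e2'⟩ := hc' 2 (by omega)
    have q0 : j0' = j0 := by
      have : (j0' : ℤ) = j0 := by rw [e0, e0']
      exact_mod_cast this
    have q1 : j1' = j1 := by
      have : (j1' : ℤ) = j1 := by rw [e1, e1']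
      exact_mod_cast this
    have q2 : j2' = j2 := by
      have : (j2' : ℤ) = j2 := by rw [e2, e2']
      exact_mod_cast this
    subst q0 q1 q2
    exact hd r hr r' hr' hne a j0' j1' j2' ⟨h0, h0', h1, h1', h2, h2'⟩
  obtain ⟨t12, a12⟩ := hclose r1 h1'.1 r2 h2'.1 (h1'.2.trans h2'.2.symm)
  obtain ⟨t13, a13⟩ := hclose r1 h1'.1 r3 h3'.1 (h1'.2.trans h3'.2.symm)
  obtain ⟨t23, a23⟩ := hclose r2 h2'.1 r3 h3'.1 (h2'.2.trans h3'.2.symm)
  rw [← t12] at c2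
  rw [← t13] at c3
  refine ⟨a, (bk r1).1, r1, r2, r3, (bk r1).2, (bk r2).2, (bk r3).2, hm1.2.1, hm1.1, hm2.1, hm3.1,
    h12, h13, h23, ?_, ?_, ?_, a12, a13, a23, c1, c2, c3⟩
  · intro he
    rw [← he] at c2
    exact hkne r1 hm1.1 r2 hm2.1 h12 _ _ c1 c2
  · intro he
    rw [← he] at c3
    exact hkne r1 hm1.1 r3 hm3.1 h13 _ _ c1 c3
  · intro he
    rw [← he] at c3
    exact hkne r2 hm2.1 r3 hm3.1 h23 _ _ c2 c3

end MP9b2b.PG
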