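import Pool.Agent.Lib.MP_9b2b7a_co.PG.Grid
import Pool.Agent.Lib.MP_9b2b7a_co.PG.Pig

/-! The polygon piercing theorem. -/

set_option autoImplicit false
open scoped Classical

namespace MP9b2b.PG

variable {n : ℕ} {p : ℕ → ℝ × ℝ}

/-- six chords in the pattern of a `3 x 3` grid -/
theorem hexa (hp : Cvx n p) {R : Finset (ℝ × ℝ)} (hR : ∀ r ∈ R, ∀ i < n, r ≠ p i)
    (hcard : 10 ≤ ((Finset.range n).image p ∪ R).card)
    {r1 r2 r3 : ℝ × ℝ} (m1 : r1 ∈ R) (m2 : r2 ∈ R) (m3 : r3 ∈ R) (h12 : r1 ≠ r2) (h13 : r1 ≠ r3)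
    (h23 : r2 ≠ r3) {x1 x2 x3 y1 y2 y3 : ℕ}
    (a1 : Mt n p r1 x1 y1) (a2 : Mt n p r3 x1 y2) (a3 : Mt n p r2 x2 y2) (a4 : Mt n p r1 x2 y3)
    (a5 : Mt n p r3 x3 y3) (a6 : Mt n p r2 x3 y1)
    (b1 : x1 ≠ x2) (b2 : x1 ≠ x3) (b3 : x2 ≠ x3) (c1 : y1 ≠ y2) (c2 : y1 ≠ y3) (c3 : y2 ≠ y3)
    (d1 : x1 ≠ y3) (d2 : x2 ≠ y1) (d3 : x3 ≠ y2) :
    Ten ((Finset.range n).image p ∪ R) := by
  have e1 := a1.2.2.1
  have e2 := a2.2.2.1
  have e3 := a3.2.2.1
  have e4 := a4.2.2.1
  have e5 := a5.2.2.1
  have e6 := a6.2.2.1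
  have X1 := a1.1
  have X2 := a3.1
  have X3 := a5.1
  have Y1 := a1.2.1
  have Y2 := a2.2.1
  have Y3 := a4.2.1
  have hpinj : ∀ {i j k : ℕ}, i < n → j < n → k < n → i ≠ j → k ≠ i → k ≠ j → p i ≠ p j := by
    intro i j k hi hj hk hij hki hkj he
    apply (sgn hp hi hj hk hij hki hkj).1
    rw [he]; unfold ori; ring
  have P12 := hpinj X1 X2 X3 b1 (Ne.symm b2) (Ne.symm b3)
  have P13 := hpinj X1 X3 X2 b2 (Ne.symm b1) b3
  have P23 := hpinj X2 X3 X1 b3 b1 b2
  have Q12 := hpinj Y1 Y2 Y3 c1 (Ne.symm c2) (Ne.symm c3)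
  have Q13 := hpinj Y1 Y3 Y2 c2 (Ne.symm c1) c3
  have Q23 := hpinj Y2 Y3 Y1 c3 c1 c2
  have S11 := hpinj X1 Y1 X2 e1 (Ne.symm b1) d2
  have S12 := hpinj X1 Y2 X2 e2 (Ne.symm b1) e3
  have S13 := hpinj X1 Y3 X2 d1 (Ne.symm b1) e4
  have S21 := hpinj X2 Y1 X1 d2 b1 e1
  have S22 := hpinj X2 Y2 X1 e3 b1 e2
  have S23 := hpinj X2 Y3 X1 e4 b1 d1
  have S31 := hpinj X3 Y1 X1 e6 b2 e1
  have S32 := hpinj X3 Y2 X1 d3 b2 e2
  have S33 := hpinj X3 Y3 X1 e5 b2 d1
  have R11 := hR r1 m1 x1 X1
  have R12 := hR r1 m1 x2 X2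
  have R13 := hR r1 m1 x3 X3
  have R14 := hR r1 m1 y1 Y1
  have R15 := hR r1 m1 y2 Y2
  have R16 := hR r1 m1 y3 Y3
  have R21 := hR r2 m2 x1 X1
  have R22 := hR r2 m2 x2 X2
  have R23 := hR r2 m2 x3 X3
  have R24 := hR r2 m2 y1 Y1
  have R25 := hR r2 m2 y2 Y2
  have R26 := hR r2 m2 y3 Y3
  have R31 := hR r3 m3 x1 X1
  have R32 := hR r3 m3 x2 X2
  have R33 := hR r3 m3 x3 X3
  have R34 := hR r3 m3 y1 Y1
  have R35 := hR r3 m3 y2 Y2
  have R36 := hR r3 m3 y3 Y3
  have memP : ∀ {i : ℕ}, i < n → p i ∈ (Finset.range n).image p ∪ R := by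
    intro i hi
    rw [Finset.mem_union, Finset.mem_image]
    exact Or.inl ⟨i, Finset.mem_range.2 hi, rfl⟩
  have memR : ∀ {r : ℝ × ℝ}, r ∈ R → r ∈ (Finset.range n).image p ∪ R := by
    intro r hr
    rw [Finset.mem_union]
    exact Or.inr hr
  set g : Fin 3 → Fin 3 → ℝ × ℝ := ![![p x1, p y1, r1], ![p y2, r2, p x2], ![r3, p x3, p y3]]
    with hg
  refine grid_ten' (g := g) hcard ?_ ?_ ?_ ?_ ?_
  · intro i j
    fin_cases i <;> fin_cases j
    · exact memP X1
    · exact memP Y1
    · exact memR m1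
    · exact memP Y2
    · exact memR m2
    · exact memP X2
    · exact memR m3
    · exact memP X3
    · exact memP Y3
  · have hall : ∀ t t' : Fin 3 × Fin 3, t ≠ t' → g t.1 t.2 ≠ g t'.1 t'.2 := by
      rintro ⟨i, j⟩ ⟨i', j'⟩ hne
      fin_cases i <;> fin_cases j <;> fin_cases i' <;> fin_cases j' <;>
        first
          | exact absurd rfl hne
          | exact P12
          | exact P12.symm
          | exact P13
          | exact P13.symm
          | exact P23
          | exact P23.symm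
          | exact Q12
          | exact Q12.symm
          | exact Q13
          | exact Q13.symm
          | exact Q23
          | exact Q23.symm
          | exact S11
          | exact S11.symm
          | exact S12
          | exact S12.symm
          | exact S13
          | exact S13.symm
          | exact S21
          | exact S21.symm
          | exact S22
          | exact S22.symm
          | exact S23
          | exact S23.symm
          | exact S31
          | exact S31.symm
          | exact S32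
          | exact S32.symm
          | exact S33
          | exact S33.symm
          | exact R11
          | exact R11.symm
          | exact R12
          | exact R12.symm
          | exact R13
          | exact R13.symm
          | exact R14
          | exact R14.symm
          | exact R15
          | exact R15.symm
          | exact R16
          | exact R16.symm
          | exact R21
          | exact R21.symm
          | exact R22
          | exact R22.symm
          | exact R23
          | exact R23.symm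
          | exact R24
          | exact R24.symm
          | exact R25
          | exact R25.symm
          | exact R26
          | exact R26.symm
          | exact R31
          | exact R31.symm
          | exact R32
          | exact R32.symm
          | exact R33
          | exact R33.symm
          | exact R34
          | exact R34.symm
          | exact R35
          | exact R35.symm
          | exact R36
          | exact R36.symm
          | exact h12
          | exact h12.symm
          | exact h13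
          | exact h13.symm
          | exact h23
          | exact h23.symm
    intro t t' he
    by_contra hne
    exact hall t t' hne he
  · intro i
    fin_cases i
    · exact a1.2.2.2
    · show ori (p y2) r2 (p x2) = 0
      rw [← ori_rot]; exact a3.2.2.2
    · show ori r3 (p x3) (p y3) = 0
      rw [ori_rot]; exact a5.2.2.2
  · intro j
    fin_cases j
    · exact a2.2.2.2
    · show ori (p y1) r2 (p x3) = 0
      rw [← ori_rot]; exact a6.2.2.2
    · show ori r1 (p x2) (p y3) = 0
      rw [ori_rot]; exact a4.2.2.2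
  · intro j
    fin_cases j
    · exact ⟨1, (sgn hp X1 Y1 Y2 e1 (Ne.symm e2) (Ne.symm c1)).1⟩
    · exact ⟨2, (sgn hp X1 Y1 X3 e1 (Ne.symm b2) e6).1⟩
    · exact ⟨1, (sgn hp X1 Y1 X2 e1 (Ne.symm b1) d2).1⟩

theorem Cl.at {M : ℕ → ℕ → Prop} {L a : ℕ} {b : Bool} {k : ℤ} (h : Cl M L a b k) {x : ℤ}
    (h1 : (a : ℤ) ≤ x) (h2 : x < a + L) :
    ∃ X Y : ℕ, (X : ℤ) = x ∧ (Y : ℤ) = (if b then k - x else k + x) ∧ M X Y := by
  obtain ⟨j, hj, e⟩ := h (x - a).toNat (by omega)
  have e1 : (((x - a).toNat : ℕ) : ℤ) = x - a := Int.toNat_of_nonneg (by omega)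
  refine ⟨a + (x - a).toNat, j, by push_cast; omega, ?_, hj⟩
  rw [e, e1]
  have : (a : ℤ) + (x - a) = x := by ring
  rw [this]

/-- the conclusion from three clean windows -/
theorem from_three (hp : Cvx n p) {R : Finset (ℝ × ℝ)} (hR : ∀ r ∈ R, ∀ i < n, r ≠ p i)
    (hcard : 10 ≤ ((Finset.range n).image p ∪ R).card) (ℓ : ℕ) (hℓ : 0 < ℓ)
    {a : ℕ} {b : Bool} {r1 r2 r3 : ℝ × ℝ} {k1 k2 k3 : ℤ}
    (m1 : r1 ∈ R) (m2 : r2 ∈ R) (m3 : r3 ∈ R) (h12 : r1 ≠ r2) (h13 : r1 ≠ r3)
    (h23 : r2 ≠ r3) (q12 : k1 ≠ k2) (q13 : k1 ≠ k3) (q23 : k2 ≠ k3)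
    (w12 : |k1 - k2| < ℓ) (w13 : |k1 - k3| < ℓ) (w23 : |k2 - k3| < ℓ)
    (c1 : Cl (Mt n p r1) (2 * ℓ + 1) a b k1) (c2 : Cl (Mt n p r2) (2 * ℓ + 1) a b k2)
    (c3 : Cl (Mt n p r3) (2 * ℓ + 1) a b k3) :
    Ten ((Finset.range n).image p ∪ R) := by
  rw [abs_lt] at w12 w13 w23
  cases b with
  | true =>
    obtain ⟨x1, hx1, hx2, hx3⟩ : ∃ x1 : ℤ, (a : ℤ) + ℓ ≤ x1 ∧ x1 ≤ a + ℓ + 1 ∧
        2 * x1 ≠ k1 + k3 - k2 := by
      by_cases h : 2 * ((a : ℤ) + ℓ) = k1 + k3 - k2
      · exact ⟨a + ℓ + 1, by omega, by omega, by omega⟩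
      · exact ⟨a + ℓ, by omega, by omega, h⟩
    obtain ⟨X1, Y1, u1, v1, M1⟩ := c1.at (x := x1) (by omega) (by push_cast; omega)
    obtain ⟨X1', Y2, u1', v2, M2⟩ := c3.at (x := x1) (by omega) (by push_cast; omega)
    obtain ⟨X2, Y2', u2, v2', M3⟩ := c2.at (x := x1 + k2 - k3) (by omega) (by push_cast; omega)
    obtain ⟨X2', Y3, u2', v3, M4⟩ := c1.at (x := x1 + k2 - k3) (by omega) (by push_cast; omega)
    obtain ⟨X3, Y3', u3, v3', M5⟩ := c3.at (x := x1 + k2 - k1) (by omega) (by push_cast; omega)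
    obtain ⟨X3', Y1', u3', v1', M6⟩ := c2.at (x := x1 + k2 - k1) (by omega) (by push_cast; omega)
    simp only [if_true] at v1 v2 v2' v3 v3' v1'
    obtain rfl : X1' = X1 := by omega
    obtain rfl : X2' = X2 := by omega
    obtain rfl : X3' = X3 := by omega
    obtain rfl : Y2' = Y2 := by omega
    obtain rfl : Y3' = Y3 := by omega
    obtain rfl : Y1' = Y1 := by omega
    exact hexa hp hR hcard m1 m2 m3 h12 h13 h23 M1 M2 M3 M4 M5 M6 (by omega) (by omega) (by omega)
      (by omega) (by omega) (by omega) (by omega) (by omega) (by omega)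
  | false =>
    -- the shift is at least the length of the window
    have big : ∀ {r : ℝ × ℝ} {k : ℤ}, r ∈ R → Cl (Mt n p r) (2 * ℓ + 1) a false k →
        (2 * ℓ + 1 : ℤ) ≤ k ∨ k ≤ -(2 * ℓ + 1 : ℤ) := by
      intro r k hr hc
      by_contra hcon
      push Not at hcon
      obtain ⟨g1, g2⟩ := hcon
      have hU := fun {i j j' : ℕ} (h : Mt n p r i j) (h' : Mt n p r i j') =>
        Mt.uniq hp (hR r hr) h h'
      rcases le_total 0 k with hk | hk
      · obtain ⟨X, Y, e1, e2, hM⟩ := hc.at (x := a) le_rfl (by push_cast; omega)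
        obtain ⟨X', Y', e1', e2', hM'⟩ := hc.at (x := a + k) (by omega) (by push_cast; omega)
        simp only [Bool.false_eq_true, if_false] at e2 e2'
        have hne := hM.2.2.1
        obtain rfl : X' = Y := by omega
        have := hU hM.symm hM'
        omega
      · obtain ⟨X, Y, e1, e2, hM⟩ := hc.at (x := a + 2 * ℓ) (by omega) (by push_cast; omega)
        obtain ⟨X', Y', e1', e2', hM'⟩ := hc.at (x := a + 2 * ℓ + k) (by omega)
          (by push_cast; omega)
        simp only [Bool.false_eq_true, if_false] at e2 e2'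
        have hne := hM.2.2.1
        obtain rfl : X' = Y := by omega
        have := hU hM.symm hM'
        omega
    have B1 := big m1 c1
    have B2 := big m2 c2
    have B3 := big m3 c3
    obtain ⟨X1, Y1, u1, v1, M1⟩ := c1.at (x := a + ℓ) (by omega) (by push_cast; omega)
    obtain ⟨X1', Y2, u1', v2, M2⟩ := c3.at (x := a + ℓ) (by omega) (by push_cast; omega)
    obtain ⟨X2, Y2', u2, v2', M3⟩ := c2.at (x := a + ℓ + k3 - k2) (by omega) (by push_cast; omega)
    obtain ⟨X2', Y3, u2', v3, M4⟩ := c1.at (x := a + ℓ + k3 - k2) (by omega) (by push_cast; omega)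
    obtain ⟨X3, Y3', u3, v3', M5⟩ := c3.at (x := a + ℓ + k1 - k2) (by omega) (by push_cast; omega)
    obtain ⟨X3', Y1', u3', v1', M6⟩ := c2.at (x := a + ℓ + k1 - k2) (by omega) (by push_cast; omega)
    simp only [Bool.false_eq_true, if_false] at v1 v2 v2' v3 v3' v1'
    obtain rfl : X1' = X1 := by omega
    obtain rfl : X2' = X2 := by omega
    obtain rfl : X3' = X3 := by omega
    obtain rfl : Y2' = Y2 := by omega
    obtain rfl : Y3' = Y3 := by omega
    obtain rfl : Y1' = Y1 := by omega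
    exact hexa hp hR hcard m1 m2 m3 h12 h13 h23 M1 M2 M3 M4 M5 M6 (by omega) (by omega) (by omega)
      (by omega) (by omega) (by omega) (by omega) (by omega) (by omega)

end MP9b2b.PG
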