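import Pool.Agent.Lib.MP_9b2b7a_co.PG.Strip

/-! Arbitrary piercing points: the two types, persistence in rectangles of good chords, strips. -/

set_option autoImplicit false
open scoped Classical

namespace MP9b2b.PG

variable {n : ℕ} {p : ℕ → ℝ × ℝ} {r : ℝ × ℝ}

/-- `r` joins `p i` -/
def Jn (n : ℕ) (p : ℕ → ℝ × ℝ) (r : ℝ × ℝ) (i : ℕ) : Prop := ∃ k, Mt n p r i k

/-- the type of `r` -/
def An (n : ℕ) (p : ℕ → ℝ × ℝ) (r : ℝ × ℝ) : Prop :=
  ∀ i j j', Mt n p r i j → Mt n p r (i + 1) j' → j = 0 ∨ (¬ ∃ i', Mt n p r i' (j - 1)) ∨ j' + 1 = j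

theorem an_fwd (hA : An n p r) {a b : ℕ} (h : Mt n p r a (b + 1)) (h1 : Jn n p r (a + 1))
    (h2 : Jn n p r b) : Mt n p r (a + 1) b := by
  obtain ⟨j', hj'⟩ := h1
  obtain ⟨k, hk⟩ := h2
  rcases hA a (b + 1) j' h hj' with h0 | h0 | h0
  · omega
  · exact absurd ⟨k, by simpa using hk.symm⟩ h0
  · have : j' = b := by omega
    rwa [this] at hj'

theorem an_bwd (hA : An n p r) {a b : ℕ} (h : Mt n p r (a + 1) b) (h1 : Jn n p r a)
    (h2 : Jn n p r (b + 1)) : Mt n p r a (b + 1) :=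
  (an_fwd hA h.symm h2 h1).symm

theorem an_of_noncrossing (hp : Cvx n p) (hr : ∀ i < n, r ≠ p i)
    (hs : ∀ i j k l, Mt n p r i j → Mt n p r k l → k ≠ i → k ≠ j → l ≠ i → l ≠ j →
      (In i j k ↔ In i j l)) : An n p r := by
  have U : ∀ {i j k : ℕ}, Mt n p r i j → Mt n p r i k → j = k := fun h h' => Mt.uniq hp hr h h'
  intro i j j' hi hi'
  by_contra hcon
  push Not at hcon
  obtain ⟨hj0, ⟨v, hv⟩, hne⟩ := hcon
  have n1 := hi.2.2.1
  have n2 := hi'.2.2.1
  have n3 : j' ≠ i := by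
    rintro rfl
    have := U hi hi'.symm
    omega
  have n4 : j ≠ i + 1 := by
    rintro rfl
    exact n3 (U hi' hi.symm)
  have n5 : j' ≠ j := by
    rintro rfl
    have := U hi.symm hi'.symm
    omega
  have N1 := hs i j (i + 1) j' hi hi' (by omega) (Ne.symm n4) n3 n5
  have N2 := hs (i + 1) j' i j hi' hi (by omega) (Ne.symm n3) n4 (Ne.symm n5)
  have n6 : j - 1 ≠ i + 1 := by
    intro he
    unfold In at N1
    omega
  have n7 : v ≠ i := by
    rintro rfl
    have := U hi hv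
    omega
  have n8 : v ≠ j := by
    rintro rfl
    have := U hi.symm hv
    omega
  have n9 : v ≠ i + 1 := by
    rintro rfl
    have := U hi' hv
    omega
  have n10 : v ≠ j' := by
    rintro rfl
    have := U hi'.symm hv
    omega
  have hv' := hv.symm
  refine three hp hr hi hi' hv' (by omega) (Ne.symm n4) (by omega) (by omega) (Ne.symm n3)
    n6 (by omega) (Ne.symm n7) (Ne.symm n9) ⟨?_, ?_, ?_⟩
  · unfold In; omega
  · unfold In at N2 ⊢; omega
  · unfold In; omega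

theorem di_fwd (hp : Cvx n p) (hr : ∀ i < n, r ≠ p i) (hA : ¬ An n p r) {a b : ℕ}
    (h : Mt n p r a b) (h1 : Jn n p r (a + 1)) (h2 : Jn n p r (b + 1)) :
    Mt n p r (a + 1) (b + 1) := by
  rcases (rel hp hr).step with hs | hs
  · exact absurd hs hA
  · obtain ⟨j', hj'⟩ := h1
    obtain ⟨k, hk⟩ := h2
    rcases hs a b j' h hj' with h0 | h0
    · exact absurd ⟨k, hk.symm⟩ h0
    · rwa [h0] at hj'

theorem di_bwd (hp : Cvx n p) (hr : ∀ i < n, r ≠ p i) (hA : ¬ An n p r) {a b : ℕ} (hab : a + 1 < b)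
    (h : Mt n p r (a + 1) (b + 1)) (h1 : Jn n p r a) (h2 : Jn n p r b) : Mt n p r a b := by
  have U : ∀ {i j k : ℕ}, Mt n p r i j → Mt n p r i k → j = k := fun h h' => Mt.uniq hp hr h h'
  rcases types hp hr with hs | hd
  · exact absurd (an_of_noncrossing hp hr hs) hA
  · obtain ⟨d, hd'⟩ := h1
    obtain ⟨c, hc'⟩ := h2
    by_cases hdb : d = b
    · rwa [hdb] at hd'
    · exfalso
      have d1 : d ≠ a := hd'.2.2.1.symm
      have d2 : d ≠ a + 1 := by
        intro he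
        rw [he] at hd'
        have := U h hd'.symm
        omega
      have d3 : d ≠ b + 1 := by
        intro he
        rw [he] at hd'
        have := U h.symm hd'.symm
        omega
      have c1 : c ≠ b := hc'.2.2.1.symm
      have c2 : c ≠ b + 1 := by
        intro he
        rw [he] at hc'
        have := U h.symm hc'.symm
        omega
      have c3 : c ≠ a + 1 := by
        intro he
        rw [he] at hc'
        have := U h hc'.symm
        omega
      have c4 : c ≠ a := by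
        intro he
        rw [he] at hc'
        exact hdb (U hd' hc'.symm)
      have c5 : c ≠ d := by
        intro he
        rw [he] at hc'
        have := U hd'.symm hc'.symm
        omega
      have N1 := hd (a + 1) (b + 1) a d h hd' (by omega) (by omega) d2 d3
      have N2 := hd (a + 1) (b + 1) b c h hc' (by omega) (by omega) c3 c2
      have N3 := hd a d b c hd' hc' (by omega) (Ne.symm hdb) c4 c5
      unfold In at N1 N2 N3
      omega

/-- a bad chord -/
def Dg (n : ℕ) (p : ℕ → ℝ × ℝ) (R : Finset (ℝ × ℝ)) (a b : ℕ) : Prop :=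
  (¬ ∃ r ∈ R, Mt n p r a b) ∨ (∃ r ∈ R, ∃ r' ∈ R, r ≠ r' ∧ Mt n p r a b ∧ Mt n p r' a b) ∨
    (∃ r ∈ R, Mt n p r a b ∧ (¬ Jn n p r (a + 1) ∨ ¬ Jn n p r (a - 1) ∨ ¬ Jn n p r (b + 1) ∨
      ¬ Jn n p r (b - 1)))

/-- data -/
structure Da (n : ℕ) (p : ℕ → ℝ × ℝ) (R : Finset (ℝ × ℝ)) (ρ : ℕ → ℕ → ℝ × ℝ) (ε : ℝ) : Prop where
  h3 : 3 ≤ n
  hp : Cvx n p
  hR : ∀ r ∈ R, ∀ i < n, r ≠ p i
  hm : ∀ a b, ¬ Dg n p R a b → ρ a b ∈ R ∧ Mt n p (ρ a b) a b
  hε : ∀ i < n, ∀ j < n, i ≠ j → (p i).1 + ε * (p i).2 ≠ (p j).1 + ε * (p j).2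

variable {R : Finset (ℝ × ℝ)} {ρ : ℕ → ℕ → ℝ × ℝ} {ε : ℝ}

theorem Da.un (D : Da n p R ρ ε) {a b : ℕ} (h : ¬ Dg n p R a b) {r : ℝ × ℝ} (hr : r ∈ R)
    (hm : Mt n p r a b) : r = ρ a b := by
  by_contra hne
  exact h (Or.inr (Or.inl ⟨r, hr, ρ a b, (D.hm a b h).1, hne, hm, (D.hm a b h).2⟩))

theorem Da.jn (D : Da n p R ρ ε) {a b : ℕ} (h : ¬ Dg n p R a b) :
    Jn n p (ρ a b) (a + 1) ∧ Jn n p (ρ a b) (a - 1) ∧ Jn n p (ρ a b) (b + 1) ∧
      Jn n p (ρ a b) (b - 1) := by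
  obtain ⟨h1, h2⟩ := D.hm a b h
  refine ⟨?_, ?_, ?_, ?_⟩ <;> by_contra hc <;>
    exact h (Or.inr (Or.inr ⟨_, h1, h2, by tauto⟩))

theorem Da.P1 (D : Da n p R ρ ε) {a b : ℕ} (h1 : ¬ Dg n p R a (b + 1)) (h2 : ¬ Dg n p R (a + 1) b)
    (hA : An n p (ρ a (b + 1))) : ρ a (b + 1) = ρ (a + 1) b := by
  obtain ⟨m1, m2⟩ := D.hm _ _ h1
  obtain ⟨j1, -, -, j4⟩ := D.jn h1
  exact D.un h2 m1 (an_fwd hA m2 j1 (by simpa using j4))

theorem Da.P1' (D : Da n p R ρ ε) {a b : ℕ} (h1 : ¬ Dg n p R a (b + 1)) (h2 : ¬ Dg n p R (a + 1) b)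
    (hA : An n p (ρ (a + 1) b)) : ρ a (b + 1) = ρ (a + 1) b := by
  obtain ⟨m1, m2⟩ := D.hm _ _ h2
  obtain ⟨-, j2, j3, -⟩ := D.jn h2
  exact (D.un h1 m1 (an_bwd hA m2 (by simpa using j2) j3)).symm

theorem Da.P2 (D : Da n p R ρ ε) {a b : ℕ} (h1 : ¬ Dg n p R a b) (h2 : ¬ Dg n p R (a + 1) (b + 1))
    (hA : ¬ An n p (ρ a b)) : ρ a b = ρ (a + 1) (b + 1) := by
  obtain ⟨m1, m2⟩ := D.hm _ _ h1
  obtain ⟨j1, -, j3, -⟩ := D.jn h1
  exact D.un h2 m1 (di_fwd D.hp (D.hR _ m1) hA m2 j1 j3)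

theorem Da.P2' (D : Da n p R ρ ε) {a b : ℕ} (hab : a + 1 < b) (h1 : ¬ Dg n p R a b)
    (h2 : ¬ Dg n p R (a + 1) (b + 1)) (hA : ¬ An n p (ρ (a + 1) (b + 1))) :
    ρ a b = ρ (a + 1) (b + 1) := by
  obtain ⟨m1, m2⟩ := D.hm _ _ h2
  obtain ⟨-, j2, -, j4⟩ := D.jn h2
  exact (D.un h1 m1 (di_bwd D.hp (D.hR _ m1) hA hab m2 (by simpa using j2)
    (by simpa using j4))).symm

theorem Da.T1 (D : Da n p R ρ ε) {a b : ℕ} (h1 : ¬ Dg n p R a (b + 1)) (h2 : ¬ Dg n p R (a + 1) b) :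
    An n p (ρ a (b + 1)) ↔ An n p (ρ (a + 1) b) :=
  ⟨fun h => by rw [← D.P1 h1 h2 h]; exact h, fun h => by rw [D.P1' h1 h2 h]; exact h⟩

theorem Da.T2 (D : Da n p R ρ ε) {a b : ℕ} (hab : a + 1 < b) (h1 : ¬ Dg n p R a b)
    (h2 : ¬ Dg n p R (a + 1) (b + 1)) : An n p (ρ a b) ↔ An n p (ρ (a + 1) (b + 1)) := by
  constructor
  · intro h
    by_contra hc
    rw [D.P2' hab h1 h2 hc] at h
    exact hc h
  · intro h
    by_contra hc
    rw [← D.P2 h1 h2 hc] at h
    exact hc h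

/-- a rectangle of good chords -/
structure Rg (n : ℕ) (p : ℕ → ℝ × ℝ) (R : Finset (ℝ × ℝ)) (x0 x1 y0 y1 : ℕ) : Prop where
  g : ∀ a b, x0 ≤ a → a ≤ x1 → y0 ≤ b → b ≤ y1 → ¬ Dg n p R a b
  xy : x1 + 1 < y0
  yn : y1 < n

variable {x0 x1 y0 y1 : ℕ}

theorem Da.tx (D : Da n p R ρ ε) (H : Rg n p R x0 x1 y0 y1) (hy : y0 < y1) {a b : ℕ} (h1 : x0 ≤ a)
    (h2 : a + 2 ≤ x1) (h3 : y0 ≤ b) (h4 : b ≤ y1) : An n p (ρ a b) ↔ An n p (ρ (a + 2) b) := by
  have hxy := H.xy
  by_cases h : b + 1 ≤ y1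
  · rw [D.T2 (by omega) (H.g a b (by omega) (by omega) (by omega) (by omega))
      (H.g (a + 1) (b + 1) (by omega) (by omega) (by omega) (by omega)),
      D.T1 (H.g (a + 1) (b + 1) (by omega) (by omega) (by omega) (by omega))
      (H.g (a + 1 + 1) b (by omega) (by omega) (by omega) (by omega))]
  · obtain ⟨c, rfl⟩ : ∃ c, b = c + 1 := ⟨b - 1, by omega⟩
    rw [D.T1 (H.g a (c + 1) (by omega) (by omega) (by omega) (by omega))
      (H.g (a + 1) c (by omega) (by omega) (by omega) (by omega)),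
      D.T2 (by omega) (H.g (a + 1) c (by omega) (by omega) (by omega) (by omega))
      (H.g (a + 1 + 1) (c + 1) (by omega) (by omega) (by omega) (by omega))]

theorem Da.ty (D : Da n p R ρ ε) (H : Rg n p R x0 x1 y0 y1) (hx : x0 < x1) {a b : ℕ} (h1 : x0 ≤ a)
    (h2 : a ≤ x1) (h3 : y0 ≤ b) (h4 : b + 2 ≤ y1) : An n p (ρ a b) ↔ An n p (ρ a (b + 2)) := by
  have hxy := H.xy
  by_cases h : a + 1 ≤ x1
  · rw [D.T2 (by omega) (H.g a b (by omega) (by omega) (by omega) (by omega))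
      (H.g (a + 1) (b + 1) (by omega) (by omega) (by omega) (by omega)),
      ← D.T1 (H.g a (b + 1 + 1) (by omega) (by omega) (by omega) (by omega))
      (H.g (a + 1) (b + 1) (by omega) (by omega) (by omega) (by omega))]
  · obtain ⟨c, rfl⟩ : ∃ c, a = c + 1 := ⟨a - 1, by omega⟩
    rw [← D.T1 (H.g c (b + 1) (by omega) (by omega) (by omega) (by omega))
      (H.g (c + 1) b (by omega) (by omega) (by omega) (by omega)),
      D.T2 (by omega) (H.g c (b + 1) (by omega) (by omega) (by omega) (by omega))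
      (H.g (c + 1) (b + 1 + 1) (by omega) (by omega) (by omega) (by omega))]

/-- the type is constant on the sublattice -/
theorem Da.tc (D : Da n p R ρ ε) {X Y N1 N2 : ℕ} (H : Rg n p R X (X + 2 * N1) Y (Y + 2 * N2))
    (hN1 : 1 ≤ N1) (hN2 : 1 ≤ N2) : ∀ i ≤ N1, ∀ j ≤ N2,
    (An n p (ρ (X + 2 * i) (Y + 2 * j)) ↔ An n p (ρ X Y)) := by
  intro i
  induction i with
  | zero =>
    intro _ j
    induction j with
    | zero => intro _; simp
    | succ j ih =>
      intro hj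
      have e : Y + 2 * (j + 1) = Y + 2 * j + 2 := by ring
      rw [← ih (by omega), e, ← D.ty H (by omega) (by omega) (by omega) (by omega) (by omega)]
  | succ i ih =>
    intro hi j hj
    have e : X + 2 * (i + 1) = X + 2 * i + 2 := by ring
    rw [← ih (by omega) j hj, e, ← D.tx H (by omega) (by omega) (by omega) (by omega) (by omega)]

theorem Da.ak (D : Da n p R ρ ε) (H : Rg n p R x0 x1 y0 y1) : ∀ (k a b : ℕ), x0 ≤ a →
    a + 2 * k ≤ x1 → y0 ≤ b → b + 2 * k ≤ y1 → An n p (ρ a (b + 2 * k)) →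
    ρ a (b + 2 * k) = ρ (a + 2 * k) b := by
  intro k
  induction k with
  | zero => intro a b _ _ _ _ _; rfl
  | succ k ih =>
    intro a b h1 h2 h3 h4 hA
    have e1 : b + 2 * (k + 1) = b + 2 * k + 1 + 1 := by ring
    have e2 : a + 2 * (k + 1) = a + 1 + 1 + 2 * k := by ring
    rw [e1] at hA ⊢
    rw [e2]
    have s1 := D.P1 (H.g a (b + 2 * k + 1 + 1) (by omega) (by omega) (by omega) (by omega))
      (H.g (a + 1) (b + 2 * k + 1) (by omega) (by omega) (by omega) (by omega)) hA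
    rw [s1] at hA ⊢
    have s2 := D.P1 (H.g (a + 1) (b + 2 * k + 1) (by omega) (by omega) (by omega) (by omega))
      (H.g (a + 1 + 1) (b + 2 * k) (by omega) (by omega) (by omega) (by omega)) hA
    rw [s2] at hA ⊢
    exact ih (a + 1 + 1) b (by omega) (by omega) h3 (by omega) hA

theorem Da.dk (D : Da n p R ρ ε) (H : Rg n p R x0 x1 y0 y1) : ∀ (k a b : ℕ), x0 ≤ a →
    a + 2 * k ≤ x1 → y0 ≤ b → b + 2 * k ≤ y1 → ¬ An n p (ρ a b) →
    ρ a b = ρ (a + 2 * k) (b + 2 * k) := by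
  intro k
  induction k with
  | zero => intro a b _ _ _ _ _; rfl
  | succ k ih =>
    intro a b h1 h2 h3 h4 hA
    have e1 : b + 2 * (k + 1) = b + 1 + 1 + 2 * k := by ring
    have e2 : a + 2 * (k + 1) = a + 1 + 1 + 2 * k := by ring
    rw [e1, e2]
    have s1 := D.P2 (H.g a b (by omega) (by omega) (by omega) (by omega))
      (H.g (a + 1) (b + 1) (by omega) (by omega) (by omega) (by omega)) hA
    rw [s1] at hA ⊢
    have s2 := D.P2 (H.g (a + 1) (b + 1) (by omega) (by omega) (by omega) (by omega))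
      (H.g (a + 1 + 1) (b + 1 + 1) (by omega) (by omega) (by omega) (by omega)) hA
    rw [s2] at hA ⊢
    exact ih (a + 1 + 1) (b + 1 + 1) (by omega) (by omega) (by omega) (by omega) hA

/-- strips from rectangles -/
theorem Da.strips (D : Da n p R ρ ε) {X Y N1 N2 : ℕ}
    (H : Rg n p R X (X + 2 * N1) Y (Y + 2 * N2)) (hN1 : 1 ≤ N1) (hN2 : 1 ≤ N2) :
    (∃ κ : ℕ → ℝ × ℝ, Strip n p ε N1 N2 (fun i => X + 2 * i) (fun j => Y + 2 * j) κ ∧
      ∀ i ≤ N1, ∀ j ≤ N2, κ (i + j) = ρ (X + 2 * i) (Y + 2 * j)) ∨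
    (∃ κ : ℕ → ℝ × ℝ, Strip n p ε N1 N2 (fun i => X + 2 * i) (fun j => Y + 2 * N2 - 2 * j) κ ∧
      ∀ i ≤ N1, ∀ j ≤ N2, κ (i + j) = ρ (X + 2 * i) (Y + 2 * N2 - 2 * j)) := by
  have hxy := H.xy
  have hyn := H.yn
  have hm : ∀ i ≤ N1, ∀ b, Y ≤ b → b ≤ Y + 2 * N2 → ρ (X + 2 * i) b ∈ R ∧
      Mt n p (ρ (X + 2 * i) b) (X + 2 * i) b := fun i hi b h1 h2 =>
    D.hm _ _ (H.g _ _ (by omega) (by omega) h1 h2)
  by_cases hT : An n p (ρ X Y)
  · left
    have hT' : ∀ i ≤ N1, ∀ j ≤ N2, An n p (ρ (X + 2 * i) (Y + 2 * j)) :=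
      fun i hi j hj => (D.tc H hN1 hN2 i hi j hj).2 hT
    set κ : ℕ → ℝ × ℝ := fun s => if s ≤ N2 then ρ X (Y + 2 * s) else
      ρ (X + 2 * (s - N2)) (Y + 2 * N2) with hκ
    have key : ∀ i ≤ N1, ∀ j ≤ N2, κ (i + j) = ρ (X + 2 * i) (Y + 2 * j) := by
      intro i hi j hj
      by_cases hs : i + j ≤ N2
      · have h0 := D.ak H i X (Y + 2 * j) (by omega) (by omega) (by omega) (by omega) (by
          have := hT' 0 (by omega) (i + j) hs
          have e : X + 2 * 0 = X := by ring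
          have e2 : Y + 2 * (i + j) = Y + 2 * j + 2 * i := by ring
          rwa [e, e2] at this)
        show (if i + j ≤ N2 then ρ X (Y + 2 * (i + j)) else _) = _
        rw [if_pos hs, ← h0]
        have e2 : Y + 2 * (i + j) = Y + 2 * j + 2 * i := by ring
        rw [e2]
      · have e3 : Y + 2 * N2 = Y + 2 * j + 2 * (N2 - j) := by omega
        have h0 := D.ak H (N2 - j) (X + 2 * (i + j - N2)) (Y + 2 * j) (by omega) (by omega)
          (by omega) (by omega) (by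
            rw [← e3]
            exact hT' (i + j - N2) (by omega) N2 le_rfl)
        show (if i + j ≤ N2 then _ else ρ (X + 2 * (i + j - N2)) (Y + 2 * N2)) = _
        rw [if_neg hs, e3, h0]
        have e4 : X + 2 * (i + j - N2) + 2 * (N2 - j) = X + 2 * i := by omega
        rw [e4]
    refine ⟨κ, ⟨D.h3, D.hp, fun i hi => by show X + 2 * i < n; omega,
      fun j hj => by show Y + 2 * j < n; omega,
      fun i _ i' _ h => by have h : X + 2 * i = X + 2 * i' := h; omega,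
      fun j _ j' _ h => by have h : Y + 2 * j = Y + 2 * j' := h; omega,
      fun i hi j hj => by show X + 2 * i ≠ Y + 2 * j; omega, ?_, ?_, D.hε⟩, key⟩
    · intro s hs i hi
      have h1 : ∃ i' ≤ N1, ∃ j ≤ N2, s = i' + j := by
        by_cases h : s ≤ N1
        · exact ⟨s, h, 0, by omega, by omega⟩
        · exact ⟨N1, le_rfl, s - N1, by omega, by omega⟩
      obtain ⟨i', hi', j, hj, rfl⟩ := h1
      rw [key i' hi' j hj]
      exact D.hR _ (hm i' hi' (Y + 2 * j) (by omega) (by omega)).1 i hi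
    · intro i hi j hj
      rw [key i hi j hj]
      exact (hm i hi (Y + 2 * j) (by omega) (by omega)).2
  · right
    have hT' : ∀ i ≤ N1, ∀ j ≤ N2, ¬ An n p (ρ (X + 2 * i) (Y + 2 * j)) :=
      fun i hi j hj h => hT ((D.tc H hN1 hN2 i hi j hj).1 h)
    set κ : ℕ → ℝ × ℝ := fun s => if s ≤ N2 then ρ X (Y + 2 * (N2 - s)) else
      ρ (X + 2 * (s - N2)) Y with hκ
    have key : ∀ i ≤ N1, ∀ j ≤ N2, κ (i + j) = ρ (X + 2 * i) (Y + 2 * N2 - 2 * j) := by
      intro i hi j hj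
      have e5 : Y + 2 * N2 - 2 * j = Y + 2 * (N2 - j) := by omega
      rw [e5]
      by_cases hs : i + j ≤ N2
      · have h0 := D.dk H i X (Y + 2 * (N2 - (i + j))) (by omega) (by omega) (by omega) (by omega)
          (by
            have := hT' 0 (by omega) (N2 - (i + j)) (by omega)
            have e : X + 2 * 0 = X := by ring
            rwa [e] at this)
        show (if i + j ≤ N2 then ρ X (Y + 2 * (N2 - (i + j))) else _) = _
        rw [if_pos hs, h0]
        have e2 : Y + 2 * (N2 - (i + j)) + 2 * i = Y + 2 * (N2 - j) := by omega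
        rw [e2]
      · have h0 := D.dk H (N2 - j) (X + 2 * (i + j - N2)) Y (by omega) (by omega)
          (by omega) (by omega) (by
            have := hT' (i + j - N2) (by omega) 0 (by omega)
            have e : Y + 2 * 0 = Y := by ring
            rwa [e] at this)
        show (if i + j ≤ N2 then _ else ρ (X + 2 * (i + j - N2)) Y) = _
        rw [if_neg hs, h0]
        have e4 : X + 2 * (i + j - N2) + 2 * (N2 - j) = X + 2 * i := by omega
        rw [e4]
    refine ⟨κ, ⟨D.h3, D.hp, fun i hi => by show X + 2 * i < n; omega,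
      fun j hj => by show Y + 2 * N2 - 2 * j < n; omega,
      fun i _ i' _ h => by have h : X + 2 * i = X + 2 * i' := h; omega,
      fun j _ j' _ h => by
        have h : Y + 2 * N2 - 2 * j = Y + 2 * N2 - 2 * j' := h
        omega,
      fun i hi j hj => by show X + 2 * i ≠ Y + 2 * N2 - 2 * j; omega, ?_, ?_, D.hε⟩, key⟩
    · intro s hs i hi
      have h1 : ∃ i' ≤ N1, ∃ j ≤ N2, s = i' + j := by
        by_cases h : s ≤ N1
        · exact ⟨s, h, 0, by omega, by omega⟩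
        · exact ⟨N1, le_rfl, s - N1, by omega, by omega⟩
      obtain ⟨i', hi', j, hj, rfl⟩ := h1
      rw [key i' hi' j hj]
      exact D.hR _ (hm i' hi' (Y + 2 * N2 - 2 * j) (by omega) (by omega)).1 i hi
    · intro i hi j hj
      rw [key i hi j hj]
      exact (hm i hi (Y + 2 * N2 - 2 * j) (by omega) (by omega)).2

/-- a cubic contains everything near a window -/
structure BK (p : ℕ → ℝ × ℝ) (ρ : ℕ → ℕ → ℝ × ℝ) (P : MvPolynomial (Fin 2) ℝ) (X Y : ℕ) : Prop where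
  l : ∀ s, 1 ≤ s → s ≤ 3 → Zz P (p (X + 2 * s))
  r : ∀ s, 1 ≤ s → s ≤ 3 → Zz P (p (Y + 2 * s))
  c : ∀ s t, 1 ≤ s → s ≤ 3 → 1 ≤ t → t ≤ 3 → Zz P (ρ (X + 2 * s) (Y + 2 * t))

theorem bk_anti {X Y N1 N2 : ℕ} {κ : ℕ → ℝ × ℝ}
    (hκ : ∀ i ≤ N1, ∀ j ≤ N2, κ (i + j) = ρ (X + 2 * i) (Y + 2 * j)) (P : MvPolynomial (Fin 2) ℝ)
    {dx dy : ℕ} (h1 : dx + 3 ≤ N1) (h2 : dy + 3 ≤ N2) :
    SF p (fun i => X + 2 * i) (fun j => Y + 2 * j) κ P (1 + dx) (1 + dy) ↔
      BK p ρ P (X + 2 * dx) (Y + 2 * dy) := by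
  unfold SF
  constructor
  · rintro ⟨g1, g2, g3⟩
    refine ⟨fun s s1 s2 => ?_, fun s s1 s2 => ?_, fun s t s1 s2 t1 t2 => ?_⟩
    · have := g1 (s - 1) (by omega)
      have e : X + 2 * (1 + dx + (s - 1)) = X + 2 * dx + 2 * s := by omega
      simp only [e] at this
      exact this
    · have := g2 (s - 1) (by omega)
      have e : Y + 2 * (1 + dy + (s - 1)) = Y + 2 * dy + 2 * s := by omega
      simp only [e] at this
      exact this
    · have := g3 (s + t - 2) (by omega)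
      have e : 1 + dx + (1 + dy) + (s + t - 2) = (dx + s) + (dy + t) := by omega
      simp only [e] at this
      rw [hκ (dx + s) (by omega) (dy + t) (by omega)] at this
      have e1 : X + 2 * (dx + s) = X + 2 * dx + 2 * s := by ring
      have e2 : Y + 2 * (dy + t) = Y + 2 * dy + 2 * t := by ring
      rwa [e1, e2] at this
  · rintro ⟨g1, g2, g3⟩
    refine ⟨fun s hs => ?_, fun s hs => ?_, fun s hs => ?_⟩
    · have := g1 (1 + s) (by omega) (by omega)
      have e : X + 2 * dx + 2 * (1 + s) = X + 2 * (1 + dx + s) := by ring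
      rw [e] at this
      exact this
    · have := g2 (1 + s) (by omega) (by omega)
      have e : Y + 2 * dy + 2 * (1 + s) = Y + 2 * (1 + dy + s) := by ring
      rw [e] at this
      exact this
    · by_cases h : s ≤ 2
      · have := g3 (1 + s) 1 (by omega) (by omega) (by omega) (by omega)
        have e1 : X + 2 * dx + 2 * (1 + s) = X + 2 * (dx + (1 + s)) := by ring
        have e2 : Y + 2 * dy + 2 * 1 = Y + 2 * (dy + 1) := by ring
        rw [e1, e2, ← hκ (dx + (1 + s)) (by omega) (dy + 1) (by omega)] at this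
        have e3 : dx + (1 + s) + (dy + 1) = 1 + dx + (1 + dy) + s := by ring
        rw [e3] at this
        exact this
      · have := g3 3 (s - 1) (by omega) (by omega) (by omega) (by omega)
        have e1 : X + 2 * dx + 2 * 3 = X + 2 * (dx + 3) := by ring
        have e2 : Y + 2 * dy + 2 * (s - 1) = Y + 2 * (dy + (s - 1)) := by ring
        rw [e1, e2, ← hκ (dx + 3) (by omega) (dy + (s - 1)) (by omega)] at this
        have e3 : dx + 3 + (dy + (s - 1)) = 1 + dx + (1 + dy) + s := by omega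
        rw [e3] at this
        exact this

theorem bk_diag {X Y N1 N2 : ℕ} {κ : ℕ → ℝ × ℝ}
    (hκ : ∀ i ≤ N1, ∀ j ≤ N2, κ (i + j) = ρ (X + 2 * i) (Y + 2 * N2 - 2 * j))
    (P : MvPolynomial (Fin 2) ℝ) {dx dy j0 : ℕ} (h1 : dx + 3 ≤ N1) (h2 : j0 + dy + 3 = N2) :
    SF p (fun i => X + 2 * i) (fun j => Y + 2 * N2 - 2 * j) κ P (1 + dx) j0 ↔
      BK p ρ P (X + 2 * dx) (Y + 2 * dy) := by
  unfold SF
  constructor
  · rintro ⟨g1, g2, g3⟩
    refine ⟨fun s s1 s2 => ?_, fun s s1 s2 => ?_, fun s t s1 s2 t1 t2 => ?_⟩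
    · have := g1 (s - 1) (by omega)
      have e : X + 2 * (1 + dx + (s - 1)) = X + 2 * dx + 2 * s := by omega
      simp only [e] at this
      exact this
    · have := g2 (3 - s) (by omega)
      have e : Y + 2 * N2 - 2 * (j0 + (3 - s)) = Y + 2 * dy + 2 * s := by omega
      simp only [e] at this
      exact this
    · have := g3 (s + 2 - t + (if t = 3 ∧ s = 0 then 1 else 0)) (by split_ifs <;> omega)
      rw [if_neg (by omega), add_zero] at this
      have e : 1 + dx + j0 + (s + 2 - t) = (dx + s) + (j0 + 3 - t) := by omega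
      simp only [e] at this
      rw [hκ (dx + s) (by omega) (j0 + 3 - t) (by omega)] at this
      have e1 : X + 2 * (dx + s) = X + 2 * dx + 2 * s := by ring
      have e2 : Y + 2 * N2 - 2 * (j0 + 3 - t) = Y + 2 * dy + 2 * t := by omega
      rwa [e1, e2] at this
  · rintro ⟨g1, g2, g3⟩
    refine ⟨fun s hs => ?_, fun s hs => ?_, fun s hs => ?_⟩
    · have := g1 (1 + s) (by omega) (by omega)
      have e : X + 2 * dx + 2 * (1 + s) = X + 2 * (1 + dx + s) := by ring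
      rw [e] at this
      exact this
    · have := g2 (3 - s) (by omega) (by omega)
      have e : Y + 2 * dy + 2 * (3 - s) = Y + 2 * N2 - 2 * (j0 + s) := by omega
      rw [e] at this
      exact this
    · by_cases h : s ≤ 2
      · have := g3 (1 + s) 3 (by omega) (by omega) (by omega) (by omega)
        have e1 : X + 2 * dx + 2 * (1 + s) = X + 2 * (dx + (1 + s)) := by ring
        have e2 : Y + 2 * dy + 2 * 3 = Y + 2 * N2 - 2 * j0 := by omega
        rw [e1, e2, ← hκ (dx + (1 + s)) (by omega) j0 (by omega)] at this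
        have e3 : dx + (1 + s) + j0 = 1 + dx + j0 + s := by ring
        rw [e3] at this
        exact this
      · have := g3 3 (5 - s) (by omega) (by omega) (by omega) (by omega)
        have e1 : X + 2 * dx + 2 * 3 = X + 2 * (dx + 3) := by ring
        have e2 : Y + 2 * dy + 2 * (5 - s) = Y + 2 * N2 - 2 * (j0 + (s - 2)) := by omega
        rw [e1, e2, ← hκ (dx + 3) (by omega) (j0 + (s - 2)) (by omega)] at this
        have e3 : dx + 3 + (j0 + (s - 2)) = 1 + dx + j0 + s := by omega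
        rw [e3] at this
        exact this

theorem Da.gx (D : Da n p R ρ ε) {X Y : ℕ} (H : Rg n p R X (X + 10) Y (Y + 8))
    {P : MvPolynomial (Fin 2) ℝ} (hP : P.totalDegree ≤ 3) : BK p ρ P X Y ↔ BK p ρ P (X + 2) Y := by
  rcases D.strips (N1 := 5) (N2 := 4) H (by norm_num) (by norm_num) with ⟨κ, S, hκ⟩ | ⟨κ, S, hκ⟩
  · have a1 := bk_anti (p := p) hκ P (dx := 0) (dy := 0) (by norm_num) (by norm_num)
    have a2 := bk_anti (p := p) hκ P (dx := 1) (dy := 0) (by norm_num) (by norm_num)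
    have a3 := S.sx (by norm_num) (by norm_num) hP
    exact a1.symm.trans (a3.trans a2)
  · have a1 := bk_diag (p := p) hκ P (dx := 0) (dy := 0) (j0 := 1) (by norm_num) (by norm_num)
    have a2 := bk_diag (p := p) hκ P (dx := 1) (dy := 0) (j0 := 1) (by norm_num) (by norm_num)
    have a3 := S.sx (by norm_num) (by norm_num) hP
    exact a1.symm.trans (a3.trans a2)

theorem Da.gy (D : Da n p R ρ ε) {X Y : ℕ} (H : Rg n p R X (X + 8) Y (Y + 10))
    {P : MvPolynomial (Fin 2) ℝ} (hP : P.totalDegree ≤ 3) : BK p ρ P X Y ↔ BK p ρ P X (Y + 2) := by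
  rcases D.strips (N1 := 4) (N2 := 5) H (by norm_num) (by norm_num) with ⟨κ, S, hκ⟩ | ⟨κ, S, hκ⟩
  · have a1 := bk_anti (p := p) hκ P (dx := 0) (dy := 0) (by norm_num) (by norm_num)
    have a2 := bk_anti (p := p) hκ P (dx := 0) (dy := 1) (by norm_num) (by norm_num)
    have a3 := S.sy (by norm_num) (by norm_num) hP
    exact a1.symm.trans (a3.trans a2)
  · have a1 := bk_diag (p := p) hκ P (dx := 0) (dy := 0) (j0 := 2) (by norm_num) (by norm_num)
    have a2 := bk_diag (p := p) hκ P (dx := 0) (dy := 1) (j0 := 1) (by norm_num) (by norm_num)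
    have a3 := S.sy (by norm_num) (by norm_num) hP
    exact a1.symm.trans (a3.symm.trans a2)

theorem Da.g0 (D : Da n p R ρ ε) {X Y : ℕ} (H : Rg n p R X (X + 8) Y (Y + 8)) :
    ∃ P : MvPolynomial (Fin 2) ℝ, P ≠ 0 ∧ P.totalDegree ≤ 3 ∧ BK p ρ P X Y := by
  rcases D.strips (N1 := 4) (N2 := 4) H (by norm_num) (by norm_num) with ⟨κ, S, hκ⟩ | ⟨κ, S, hκ⟩
  · obtain ⟨P, h1, h2, h3⟩ := S.init (by norm_num) (by norm_num)
    exact ⟨P, h1, h2, (bk_anti hκ P (dx := 0) (dy := 0) (by norm_num) (by norm_num)).1 h3⟩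
  · obtain ⟨P, h1, h2, h3⟩ := S.init (by norm_num) (by norm_num)
    exact ⟨P, h1, h2, (bk_diag hκ P (dx := 0) (dy := 0) (j0 := 1) (by norm_num)
      (by norm_num)).1 h3⟩

end MP9b2b.PG
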