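import Pool.Agent.Lib.MP_9b2b7a_co.PG.GenFin

/-! Convex polygons: the set of pairs whose line contains exactly one piercing point may be small, if
its boundary is linear. -/

set_option autoImplicit false
open scoped Classical

namespace MP9b2b.PG

variable {n : ℕ} {p : ℕ → ℝ × ℝ} {R : Finset (ℝ × ℝ)}

/-- neighbouring pairs -/
def Nb (e e' : ℕ × ℕ) : Prop :=
  (e'.1 = e.1 ∧ (e'.2 = e.2 + 1 ∨ e.2 = e'.2 + 1)) ∨
    (e'.2 = e.2 ∧ (e'.1 = e.1 + 1 ∨ e.1 = e'.1 + 1))

/-- good chords with a bad neighbour -/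
noncomputable def BD (n : ℕ) (p : ℕ → ℝ × ℝ) (R : Finset (ℝ × ℝ)) : Finset (ℕ × ℕ) :=
  (Finset.range n ×ˢ Finset.range n).filter (fun e => e.1 < e.2 ∧ ¬ Dg n p R e.1 e.2 ∧
    ∃ e' ∈ Dgs n p R, Nb e e')

theorem mem_BD' {a b a' b' : ℕ} (h1 : a < b) (h2 : b < n) (h3 : ¬ Dg n p R a b)
    (h4 : a' + 1 < b') (h5 : b' + 1 < n) (h6 : Dg n p R a' b') (h7 : Nb (a, b) (a', b')) :
    (a, b) ∈ BD n p R := by
  unfold BD
  rw [Finset.mem_filter, Finset.mem_product, Finset.mem_range, Finset.mem_range]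
  refine ⟨⟨by show a < n; omega, h2⟩, h1, h3, (a', b'), ?_, h7⟩
  unfold Dgs
  rw [Finset.mem_filter, Finset.mem_product, Finset.mem_range, Finset.mem_range]
  exact ⟨⟨by show a' < n; omega, by show b' < n; omega⟩, h4, h5, h6⟩

theorem E1_bd (n : ℕ) (p : ℕ → ℝ × ℝ) (R : Finset (ℝ × ℝ)) (u v : ℕ) :
    (E1 (Gc n p R u v)).card ≤ 18 * (BD n p R).card + n := by
  have hsub : E1 (Gc n p R u v) ⊆
      ((Finset.range 9 ×ˢ Finset.range 2).biUnion (fun st => (Gc n p R u v).filter (fun c =>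
        (2 * c.1 + u + st.1, 2 * c.2 + v + 8 + st.2) ∈ BD n p R))) ∪
      (Gc n p R u v).filter (fun c => n ≤ 2 * c.2 + v + 11) := by
    intro c hc
    unfold E1 at hc
    rw [Finset.mem_filter] at hc
    rw [Finset.mem_union, Finset.mem_filter, Finset.mem_biUnion]
    by_cases h : n ≤ 2 * c.2 + v + 11
    · exact Or.inr ⟨hc.1, h⟩
    · left
      obtain ⟨h1, hw⟩ := mem_Gc.1 hc.1
      have h2 := hc.2
      rw [mem_Gc] at h2
      simp only at h2
      have h3 : ¬ WC n p R (2 * c.1 + u) (2 * (c.2 + 1) + v) :=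
        fun hw => h2 ⟨⟨by omega, by omega⟩, hw⟩
      unfold WC at h3
      push Not at h3
      obtain ⟨s, hs, t, ht, hd⟩ := h3
      have e0 : 2 * (c.2 + 1) + v + t = 2 * c.2 + v + (t + 2) := by ring
      rw [e0] at hd
      have ht7 : 7 ≤ t := by
        by_contra hlt
        exact hw s hs (t + 2) (by omega) hd
      have g8 := hw s hs 8 le_rfl
      by_cases h9 : Dg n p R (2 * c.1 + u + s) (2 * c.2 + v + 9)
      · refine ⟨(s, 0), ?_, Finset.mem_filter.2 ⟨hc.1, ?_⟩⟩
        · rw [Finset.mem_product, Finset.mem_range, Finset.mem_range]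
          exact ⟨by show s < 9; omega, by show 0 < 2; omega⟩
        · exact mem_BD' (by omega) (by omega) g8 (by omega) (by omega) h9
            (Or.inl ⟨rfl, Or.inl rfl⟩)
      · have ht8 : t = 8 := by
          by_contra hne
          have : t = 7 := by omega
          rw [this] at hd
          exact h9 hd
        rw [ht8] at hd
        refine ⟨(s, 1), ?_, Finset.mem_filter.2 ⟨hc.1, ?_⟩⟩
        · rw [Finset.mem_product, Finset.mem_range, Finset.mem_range]
          exact ⟨by show s < 9; omega, by show 1 < 2; omega⟩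
        · exact mem_BD' (by omega) (by omega) h9 (by omega) (by omega) hd
            (Or.inl ⟨rfl, Or.inl rfl⟩)
  have h1 := Finset.card_biUnion_le_card_mul (Finset.range 9 ×ˢ Finset.range 2)
      (fun st => (Gc n p R u v).filter (fun c =>
        (2 * c.1 + u + st.1, 2 * c.2 + v + 8 + st.2) ∈ BD n p R)) (BD n p R).card (by
    intro st _
    apply Finset.card_le_card_of_injOn (fun c => (2 * c.1 + u + st.1, 2 * c.2 + v + 8 + st.2))
    · intro c hc
      exact (Finset.mem_filter.1 hc).2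
    · intro c _ c' _ h
      rw [Prod.mk.injEq] at h
      exact Prod.ext (by omega) (by omega))
  have h2 : ((Gc n p R u v).filter (fun c => n ≤ 2 * c.2 + v + 11)).card ≤ (Finset.range n).card := by
    apply Finset.card_le_card_of_injOn (fun c => c.1)
    · intro c hc
      rw [Finset.mem_coe, Finset.mem_filter] at hc
      have := (mem_Gc.1 hc.1).1
      rw [Finset.mem_coe, Finset.mem_range]
      show c.1 < n
      omega
    · intro c hc c' hc' h
      rw [Finset.mem_coe, Finset.mem_filter] at hc hc'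
      have k1 := (mem_Gc.1 hc.1).1
      have k2 := (mem_Gc.1 hc'.1).1
      exact Prod.ext h (by omega)
  rw [Finset.card_range] at h2
  rw [Finset.card_product, Finset.card_range, Finset.card_range] at h1
  have h3 := (Finset.card_le_card hsub).trans (Finset.card_union_le _ _)
  omega

theorem E2_bd (n : ℕ) (p : ℕ → ℝ × ℝ) (R : Finset (ℝ × ℝ)) (u v : ℕ) :
    (E2 (Gc n p R u v)).card ≤ 18 * (BD n p R).card + n := by
  have hsub : E2 (Gc n p R u v) ⊆
      ((Finset.range 2 ×ˢ Finset.range 9).biUnion (fun st => (Gc n p R u v).filter (fun c =>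
        (2 * c.1 + u + 8 + st.1, 2 * c.2 + v + st.2) ∈ BD n p R))) ∪
      (Gc n p R u v).filter (fun c => 2 * c.2 + v ≤ 2 * c.1 + u + 11) := by
    intro c hc
    unfold E2 at hc
    rw [Finset.mem_filter] at hc
    rw [Finset.mem_union, Finset.mem_filter, Finset.mem_biUnion]
    by_cases h : 2 * c.2 + v ≤ 2 * c.1 + u + 11
    · exact Or.inr ⟨hc.1, h⟩
    · left
      obtain ⟨h1, hw⟩ := mem_Gc.1 hc.1
      have h2 := hc.2
      rw [mem_Gc] at h2
      simp only at h2
      have h3 : ¬ WC n p R (2 * (c.1 + 1) + u) (2 * c.2 + v) :=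
        fun hw => h2 ⟨⟨by omega, by omega⟩, hw⟩
      unfold WC at h3
      push Not at h3
      obtain ⟨s, hs, t, ht, hd⟩ := h3
      have e0 : 2 * (c.1 + 1) + u + s = 2 * c.1 + u + (s + 2) := by ring
      rw [e0] at hd
      have hs7 : 7 ≤ s := by
        by_contra hlt
        exact hw (s + 2) (by omega) t ht hd
      have g8 := hw 8 le_rfl t ht
      by_cases h9 : Dg n p R (2 * c.1 + u + 9) (2 * c.2 + v + t)
      · refine ⟨(0, t), ?_, Finset.mem_filter.2 ⟨hc.1, ?_⟩⟩
        · rw [Finset.mem_product, Finset.mem_range, Finset.mem_range]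
          exact ⟨by show 0 < 2; omega, by show t < 9; omega⟩
        · exact mem_BD' (by omega) (by omega) g8 (by omega) (by omega) h9
            (Or.inr ⟨rfl, Or.inl rfl⟩)
      · have hs8 : s = 8 := by
          by_contra hne
          have : s = 7 := by omega
          rw [this] at hd
          exact h9 hd
        rw [hs8] at hd
        refine ⟨(1, t), ?_, Finset.mem_filter.2 ⟨hc.1, ?_⟩⟩
        · rw [Finset.mem_product, Finset.mem_range, Finset.mem_range]
          exact ⟨by show 1 < 2; omega, by show t < 9; omega⟩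
        · exact mem_BD' (by omega) (by omega) h9 (by omega) (by omega) hd
            (Or.inr ⟨rfl, Or.inl rfl⟩)
  have h1 := Finset.card_biUnion_le_card_mul (Finset.range 2 ×ˢ Finset.range 9)
      (fun st => (Gc n p R u v).filter (fun c =>
        (2 * c.1 + u + 8 + st.1, 2 * c.2 + v + st.2) ∈ BD n p R)) (BD n p R).card (by
    intro st _
    apply Finset.card_le_card_of_injOn (fun c => (2 * c.1 + u + 8 + st.1, 2 * c.2 + v + st.2))
    · intro c hc
      exact (Finset.mem_filter.1 hc).2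
    · intro c _ c' _ h
      rw [Prod.mk.injEq] at h
      exact Prod.ext (by omega) (by omega))
  have h2 : ((Gc n p R u v).filter (fun c => 2 * c.2 + v ≤ 2 * c.1 + u + 11)).card ≤
      (Finset.range n).card := by
    apply Finset.card_le_card_of_injOn (fun c => c.1)
    · intro c hc
      rw [Finset.mem_coe, Finset.mem_filter] at hc
      have := (mem_Gc.1 hc.1).1
      rw [Finset.mem_coe, Finset.mem_range]
      show c.1 < n
      omega
    · intro c hc c' hc' h
      rw [Finset.mem_coe, Finset.mem_filter] at hc hc'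
      have k1 := (mem_Gc.1 hc.1).1
      have k2 := (mem_Gc.1 hc'.1).1
      have h : c.1 = c'.1 := h
      exact Prod.ext h (by omega)
  rw [Finset.card_range] at h2
  rw [Finset.card_product, Finset.card_range, Finset.card_range] at h1
  have h3 := (Finset.card_le_card hsub).trans (Finset.card_union_le _ _)
  omega

theorem spread (Φ : ℕ → Prop) (h4 : Φ 4) (hu : ∀ s < 8, Φ s → Φ (s + 1))
    (hd : ∀ s < 8, Φ (s + 1) → Φ s) : ∀ s ≤ 8, Φ s := by
  have h5 := hu 4 (by norm_num) h4
  have h6 := hu 5 (by norm_num) h5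
  have h7 := hu 6 (by norm_num) h6
  have h8 := hu 7 (by norm_num) h7
  have h3 := hd 3 (by norm_num) h4
  have h2 := hd 2 (by norm_num) h3
  have h1 := hd 1 (by norm_num) h2
  have h0 := hd 0 (by norm_num) h1
  intro s hs
  interval_cases s <;> assumption

/-- a window with a good centre and a bad chord contains a boundary chord -/
theorem win_bd {X Y : ℕ} (hXY : X + 9 < Y) (hY : Y + 9 < n) (hg : ¬ Dg n p R (X + 4) (Y + 4))
    (hw : ¬ WC n p R X Y) : ∃ s ≤ 8, ∃ t ≤ 8, (X + s, Y + t) ∈ BD n p R := by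
  by_contra hcon
  push Not at hcon
  apply hw
  have key : ∀ s ≤ 8, ∀ t ≤ 8, ∀ s' ≤ 8, ∀ t' ≤ 8, Nb (X + s, Y + t) (X + s', Y + t') →
      ¬ Dg n p R (X + s) (Y + t) → ¬ Dg n p R (X + s') (Y + t') := by
    intro s hs t ht s' hs' t' ht' hn h1 h2
    exact hcon s hs t ht (mem_BD' (by omega) (by omega) h1 (by omega) (by omega) h2 hn)
  have row : ∀ s ≤ 8, ¬ Dg n p R (X + s) (Y + 4) := by
    apply spread (fun s => ¬ Dg n p R (X + s) (Y + 4)) hg
    · intro s hs h
      exact key s (by omega) 4 (by omega) (s + 1) (by omega) 4 (by omega)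
        (Or.inr ⟨rfl, Or.inl (by show X + (s + 1) = X + s + 1; ring)⟩) h
    · intro s hs h
      exact key (s + 1) (by omega) 4 (by omega) s (by omega) 4 (by omega)
        (Or.inr ⟨rfl, Or.inr (by show X + (s + 1) = X + s + 1; ring)⟩) h
  intro s hs t ht
  refine spread (fun t => ¬ Dg n p R (X + s) (Y + t)) (row s hs) ?_ ?_ t ht
  · intro t ht h
    exact key s hs t (by omega) s hs (t + 1) (by omega)
      (Or.inl ⟨rfl, Or.inl (by show Y + (t + 1) = Y + t + 1; ring)⟩) h
  · intro t ht h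
    exact key s hs (t + 1) (by omega) s hs t (by omega)
      (Or.inl ⟨rfl, Or.inr (by show Y + (t + 1) = Y + t + 1; ring)⟩) h

theorem wb_card (n : ℕ) (p : ℕ → ℝ × ℝ) (R : Finset (ℝ × ℝ)) :
    ((Finset.range n ×ˢ Finset.range n).filter (fun e => (4 ≤ e.1 ∧ e.1 + 9 < e.2 ∧ e.2 + 5 < n) ∧
      ¬ Dg n p R e.1 e.2 ∧ ¬ WC n p R (e.1 - 4) (e.2 - 4))).card ≤ 81 * (BD n p R).card := by
  set W := (Finset.range n ×ˢ Finset.range n).filter
    (fun e => (4 ≤ e.1 ∧ e.1 + 9 < e.2 ∧ e.2 + 5 < n) ∧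
      ¬ Dg n p R e.1 e.2 ∧ ¬ WC n p R (e.1 - 4) (e.2 - 4)) with hW
  have hsub : W ⊆ (Finset.range 9 ×ˢ Finset.range 9).biUnion (fun st =>
      W.filter (fun e => (e.1 - 4 + st.1, e.2 - 4 + st.2) ∈ BD n p R)) := by
    intro e he
    have he' := he
    rw [hW, Finset.mem_filter] at he'
    obtain ⟨-, ⟨h1, h2, h3⟩, h4, h5⟩ := he'
    have e1 : e.1 - 4 + 4 = e.1 := by omega
    have e2 : e.2 - 4 + 4 = e.2 := by omega
    obtain ⟨s, hs, t, ht, hb⟩ := win_bd (X := e.1 - 4) (Y := e.2 - 4) (by omega) (by omega)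
      (by rw [e1, e2]; exact h4) h5
    rw [Finset.mem_biUnion]
    refine ⟨(s, t), ?_, Finset.mem_filter.2 ⟨he, hb⟩⟩
    rw [Finset.mem_product, Finset.mem_range, Finset.mem_range]
    exact ⟨by show s < 9; omega, by show t < 9; omega⟩
  refine (Finset.card_le_card hsub).trans ?_
  have := Finset.card_biUnion_le_card_mul (Finset.range 9 ×ˢ Finset.range 9) (fun st =>
      W.filter (fun e => (e.1 - 4 + st.1, e.2 - 4 + st.2) ∈ BD n p R)) (BD n p R).card (by
    intro st _
    apply Finset.card_le_card_of_injOn (fun e => (e.1 - 4 + st.1, e.2 - 4 + st.2))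
    · intro c hc
      exact (Finset.mem_filter.1 hc).2
    · intro c hc c' hc' h
      rw [Prod.mk.injEq] at h
      have k1 := (Finset.mem_filter.1 (Finset.mem_filter.1 hc).1).2.1
      have k2 := (Finset.mem_filter.1 (Finset.mem_filter.1 hc').1).2.1
      exact Prod.ext (by omega) (by omega))
  rw [Finset.card_product, Finset.card_range] at this
  exact this

/-- bad chords through a point which does not join a neighbour -/
noncomputable def FJ (n : ℕ) (p : ℕ → ℝ × ℝ) (R : Finset (ℝ × ℝ)) : Finset (ℕ × ℕ) :=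
  (Dgs n p R).filter (fun e => ∃ r ∈ R, Mt n p r e.1 e.2 ∧ (¬ Jn n p r (e.1 + 1) ∨
    ¬ Jn n p r (e.1 - 1) ∨ ¬ Jn n p r (e.2 + 1) ∨ ¬ Jn n p r (e.2 - 1)))

theorem fj_card (n : ℕ) (p : ℕ → ℝ × ℝ) (hp : Cvx n p) (R : Finset (ℝ × ℝ))
    (hR : ∀ r ∈ R, ∀ i < n, r ≠ p i) :
    (FJ n p R).card ≤ 4 * (SwS n p R).card := by
  set F1 := (Dgs n p R).filter (fun e => ∃ r ∈ R, Mt n p r e.1 e.2 ∧ ¬ Jn n p r (e.1 + 1)) with hF1
  set F2 := (Dgs n p R).filter (fun e => ∃ r ∈ R, Mt n p r e.1 e.2 ∧ ¬ Jn n p r (e.1 - 1)) with hF2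
  set F3 := (Dgs n p R).filter (fun e => ∃ r ∈ R, Mt n p r e.1 e.2 ∧ ¬ Jn n p r (e.2 + 1)) with hF3
  set F4 := (Dgs n p R).filter (fun e => ∃ r ∈ R, Mt n p r e.1 e.2 ∧ ¬ Jn n p r (e.2 - 1)) with hF4
  have mD : ∀ e ∈ Dgs n p R, e.1 < n ∧ e.2 < n ∧ e.1 + 1 < e.2 ∧ e.2 + 1 < n := by
    intro e he
    unfold Dgs at he
    rw [Finset.mem_filter, Finset.mem_product, Finset.mem_range, Finset.mem_range] at he
    exact ⟨he.1.1, he.1.2, he.2.1, he.2.2.1⟩
  have c1 : F1.card ≤ (SwS n p R).card := by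
    refine scount F1 (fun e => e.1) ?_ ?_
    · intro e he
      rw [hF1, Finset.mem_filter] at he
      obtain ⟨h1, r, h2, h3, h4⟩ := he
      have := mD e h1
      exact ⟨r, h2, h3, by show e.1 + 1 < n; omega, fun h => h4 (h.1 ⟨_, h3⟩)⟩
    · intro e he e' he' r hr hm hm' h
      have h0 : e.1 = e'.1 := h
      rw [← h0] at hm'
      exact Prod.ext h0 (Mt.uniq hp (hR r hr) hm hm')
  have c2 : F2.card ≤ (SwS n p R).card := by
    have key : ∀ e ∈ F2, 1 ≤ e.1 := by
      intro e he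
      rw [hF2, Finset.mem_filter] at he
      obtain ⟨h1, r, h2, h3, h4⟩ := he
      by_contra h0
      have h00 : e.1 = 0 := by omega
      apply h4
      rw [h00] at h3 ⊢
      exact ⟨_, h3⟩
    refine scount F2 (fun e => e.1 - 1) ?_ ?_
    · intro e he
      have k := key e he
      rw [hF2, Finset.mem_filter] at he
      obtain ⟨h1, r, h2, h3, h4⟩ := he
      have := mD e h1
      refine ⟨r, h2, h3, by show e.1 - 1 + 1 < n; omega, ?_⟩
      show ¬ (Jn n p r (e.1 - 1) ↔ Jn n p r (e.1 - 1 + 1))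
      have e1 : e.1 - 1 + 1 = e.1 := by omega
      rw [e1]
      exact fun h => h4 (h.2 ⟨_, h3⟩)
    · intro e he e' he' r hr hm hm' h
      have h : e.1 - 1 = e'.1 - 1 := h
      have k1 := key e he
      have k2 := key e' he'
      have h0 : e.1 = e'.1 := by omega
      rw [← h0] at hm'
      exact Prod.ext h0 (Mt.uniq hp (hR r hr) hm hm')
  have c3 : F3.card ≤ (SwS n p R).card := by
    refine scount F3 (fun e => e.2) ?_ ?_
    · intro e he
      rw [hF3, Finset.mem_filter] at he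
      obtain ⟨h1, r, h2, h3, h4⟩ := he
      have := mD e h1
      exact ⟨r, h2, h3, by show e.2 + 1 < n; omega, fun h => h4 (h.1 ⟨_, h3.symm⟩)⟩
    · intro e he e' he' r hr hm hm' h
      have h0 : e.2 = e'.2 := h
      rw [← h0] at hm'
      exact Prod.ext (Mt.uniq hp (hR r hr) hm.symm hm'.symm) h0
  have c4 : F4.card ≤ (SwS n p R).card := by
    refine scount F4 (fun e => e.2 - 1) ?_ ?_
    · intro e he
      rw [hF4, Finset.mem_filter] at he
      obtain ⟨h1, r, h2, h3, h4⟩ := he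
      have := mD e h1
      refine ⟨r, h2, h3, by show e.2 - 1 + 1 < n; omega, ?_⟩
      show ¬ (Jn n p r (e.2 - 1) ↔ Jn n p r (e.2 - 1 + 1))
      have e1 : e.2 - 1 + 1 = e.2 := by omega
      rw [e1]
      exact fun h => h4 (h.2 ⟨_, h3.symm⟩)
    · intro e he e' he' r hr hm hm' h
      have h : e.2 - 1 = e'.2 - 1 := h
      have k1 := mD e (Finset.mem_filter.1 he).1
      have k2 := mD e' (Finset.mem_filter.1 he').1
      have h0 : e.2 = e'.2 := by omega
      rw [← h0] at hm'
      exact Prod.ext (Mt.uniq hp (hR r hr) hm.symm hm'.symm) h0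
  have q7 : (FJ n p R).card ≤ F1.card + (F2.card + (F3.card + F4.card)) := by
    have hsub : FJ n p R ⊆ F1 ∪ (F2 ∪ (F3 ∪ F4)) := by
      intro e he
      unfold FJ at he
      rw [Finset.mem_filter] at he
      obtain ⟨he, r, hr, hm, h6⟩ := he
      simp only [Finset.mem_union]
      rcases h6 with h6 | h6 | h6 | h6
      · left
        exact Finset.mem_filter.2 ⟨he, r, hr, hm, h6⟩
      · right; left
        exact Finset.mem_filter.2 ⟨he, r, hr, hm, h6⟩
      · right; right; left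
        exact Finset.mem_filter.2 ⟨he, r, hr, hm, h6⟩
      · right; right; right
        exact Finset.mem_filter.2 ⟨he, r, hr, hm, h6⟩
    refine (Finset.card_le_card hsub).trans ?_
    refine (Finset.card_union_le _ _).trans (Nat.add_le_add_left ?_ _)
    refine (Finset.card_union_le _ _).trans (Nat.add_le_add_left ?_ _)
    exact Finset.card_union_le _ _
  clear_value F1 F2 F3 F4
  omega

/-- exactly one point of `R` on the line -/
def One (p : ℕ → ℝ × ℝ) (R : Finset (ℝ × ℝ)) (e : ℕ × ℕ) : Prop :=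
  (R.filter (fun r => Collinear ℝ ({p e.1, p e.2, r} : Set (ℝ × ℝ)))).card = 1

theorem one_of_good {a b : ℕ} (ha : a < n) (hb : b < n) (hab : a ≠ b) (h : ¬ Dg n p R a b) :
    One p R (a, b) := by
  have h1 : ∃ r ∈ R, Mt n p r a b := by
    by_contra hc
    exact h (Or.inl hc)
  obtain ⟨r, hr, hm⟩ := h1
  unfold One
  rw [Finset.card_eq_one]
  refine ⟨r, ?_⟩
  ext x
  rw [Finset.mem_filter, Finset.mem_singleton]
  constructor
  · rintro ⟨hx, hc⟩
    by_contra hne
    exact h (Or.inr (Or.inl ⟨x, hx, r, hr, hne, mt_iff.2 ⟨ha, hb, hab, hc⟩, hm⟩))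
  · rintro rfl
    exact ⟨hr, (mt_iff.1 hm).2.2.2⟩

theorem dgs_cases {e : ℕ × ℕ} (he : e ∈ Dgs n p R) : ¬ One p R e ∨ e ∈ FJ n p R := by
  have he' := he
  unfold Dgs at he'
  rw [Finset.mem_filter, Finset.mem_product, Finset.mem_range, Finset.mem_range] at he'
  obtain ⟨⟨h1, h2⟩, h4, h5, h6⟩ := he'
  rcases h6 with h6 | h6 | h6
  · left
    intro hc
    apply h6
    obtain ⟨r, hr⟩ := Finset.card_pos.1 (by
      have : (R.filter (fun r => Collinear ℝ ({p e.1, p e.2, r} : Set (ℝ × ℝ)))).card = 1 := hc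
      rw [this]; norm_num :
      0 < (R.filter (fun r => Collinear ℝ ({p e.1, p e.2, r} : Set (ℝ × ℝ)))).card)
    rw [Finset.mem_filter] at hr
    exact ⟨r, hr.1, mt_iff.2 ⟨h1, h2, by omega, hr.2⟩⟩
  · left
    intro hc
    obtain ⟨r, hr, r', hr', hne, hm, hm'⟩ := h6
    obtain ⟨x, hx⟩ := Finset.card_eq_one.1 hc
    have m1 : r ∈ R.filter (fun r => Collinear ℝ ({p e.1, p e.2, r} : Set (ℝ × ℝ))) :=
      Finset.mem_filter.2 ⟨hr, (mt_iff.1 hm).2.2.2⟩
    have m2 : r' ∈ R.filter (fun r => Collinear ℝ ({p e.1, p e.2, r} : Set (ℝ × ℝ))) :=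
      Finset.mem_filter.2 ⟨hr', (mt_iff.1 hm').2.2.2⟩
    rw [hx, Finset.mem_singleton] at m1 m2
    exact hne (m1.trans m2.symm)
  · right
    exact Finset.mem_filter.2 ⟨he, h6⟩

/-- pairs with exactly one point of `R` and a neighbour without -/
noncomputable def BE (n : ℕ) (p : ℕ → ℝ × ℝ) (R : Finset (ℝ × ℝ)) : Finset (ℕ × ℕ) :=
  (Finset.range n ×ˢ Finset.range n).filter (fun e => e.1 < e.2 ∧ One p R e ∧
    ∃ e' : ℕ × ℕ, e'.1 < e'.2 ∧ e'.2 < n ∧ Nb e e' ∧ ¬ One p R e')

theorem bd_card (n : ℕ) (p : ℕ → ℝ × ℝ) (R : Finset (ℝ × ℝ)) :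
    (BD n p R).card ≤ (BE n p R).card + 4 * (FJ n p R).card := by
  have hsub : BD n p R ⊆ BE n p R ∪ ((FJ n p R).image (fun e => (e.1, e.2 - 1)) ∪
      ((FJ n p R).image (fun e => (e.1, e.2 + 1)) ∪ ((FJ n p R).image (fun e => (e.1 - 1, e.2)) ∪
      (FJ n p R).image (fun e => (e.1 + 1, e.2))))) := by
    intro e he
    unfold BD at he
    rw [Finset.mem_filter, Finset.mem_product, Finset.mem_range, Finset.mem_range] at he
    obtain ⟨⟨h1, h2⟩, h3, h4, e', h5, h6⟩ := he
    simp only [Finset.mem_union, Finset.mem_image]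
    rcases dgs_cases h5 with h7 | h7
    · left
      unfold BE
      rw [Finset.mem_filter, Finset.mem_product, Finset.mem_range, Finset.mem_range]
      unfold Dgs at h5
      rw [Finset.mem_filter, Finset.mem_product, Finset.mem_range, Finset.mem_range] at h5
      exact ⟨⟨h1, h2⟩, h3, one_of_good h1 h2 h3.ne h4, e', by omega, h5.1.2, h6, h7⟩
    · right
      rcases h6 with ⟨k1, k2 | k2⟩ | ⟨k1, k2 | k2⟩
      · left
        exact ⟨e', h7, Prod.ext k1 (by show e'.2 - 1 = e.2; omega)⟩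
      · right; left
        exact ⟨e', h7, Prod.ext k1 (by show e'.2 + 1 = e.2; omega)⟩
      · right; right; left
        exact ⟨e', h7, Prod.ext (by show e'.1 - 1 = e.1; omega) k1⟩
      · right; right; right
        exact ⟨e', h7, Prod.ext (by show e'.1 + 1 = e.1; omega) k1⟩
  have h := (Finset.card_le_card hsub).trans ((Finset.card_union_le _ _).trans
    (Nat.add_le_add_left ((Finset.card_union_le _ _).trans
    (Nat.add_le_add_left ((Finset.card_union_le _ _).trans
    (Nat.add_le_add_left (Finset.card_union_le _ _) _)) _)) _))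
  have i1 : ((FJ n p R).image (fun e => (e.1, e.2 - 1))).card ≤ (FJ n p R).card :=
    Finset.card_image_le
  have i2 : ((FJ n p R).image (fun e => (e.1, e.2 + 1))).card ≤ (FJ n p R).card :=
    Finset.card_image_le
  have i3 : ((FJ n p R).image (fun e => (e.1 - 1, e.2))).card ≤ (FJ n p R).card :=
    Finset.card_image_le
  have i4 : ((FJ n p R).image (fun e => (e.1 + 1, e.2))).card ≤ (FJ n p R).card :=
    Finset.card_image_le
  omega

end MP9b2b.PG
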