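import Pool.Agent.Lib.MP_9b2b7a_co.PG.GenE

/-! Convex polygons: structure for the pairs with exactly one piercing point. -/

set_option autoImplicit false
open scoped Classical

namespace MP9b2b.PG

/-- pairs with exactly one point of `R` that are not covered -/
noncomputable def Un (n : ℕ) (p : ℕ → ℝ × ℝ) (R : Finset (ℝ × ℝ)) (F : Finset (Finset (ℝ × ℝ))) :
    Finset (ℕ × ℕ) :=
  (Finset.range n ×ˢ Finset.range n).filter (fun e => (e.1 < e.2 ∧ One p R e) ∧
        ∀ B ∈ F, ¬ Cg p R B e)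

theorem e_struct (n : ℕ) (p : ℕ → ℝ × ℝ) (h3 : 3 ≤ n) (hp : Cvx n p) (R : Finset (ℝ × ℝ))
    (hR : ∀ r ∈ R, ∀ i < n, r ≠ p i) (t M : ℝ) (ht : 0 < t)
    (hM : 81 * ((BD n p R).card : ℝ) + 4 * ((SwS n p R).card : ℝ) + 18 * n ≤ M) :
    ∃ F : Finset (Finset (ℝ × ℝ)), (∀ B ∈ F, B ⊆ (Finset.range n).image p ∪ R ∧ OnC B) ∧
      (F.card : ℝ) * t ≤ M ∧ ((Un n p R F).card : ℝ) ≤ (1 + t) * M := by
  obtain ⟨ε, hε⟩ := exists_eps ((Finset.range n).image p)
  have hρ : ∀ e : ℕ × ℕ, ∃ r, ¬ Dg n p R e.1 e.2 → r ∈ R ∧ Mt n p r e.1 e.2 := by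
    intro e
    by_cases h : Dg n p R e.1 e.2
    · exact ⟨(0, 0), fun h' => absurd h h'⟩
    · have h' : ∃ r ∈ R, Mt n p r e.1 e.2 := by
        by_contra hc
        exact h (Or.inl hc)
      obtain ⟨r, h1, h2⟩ := h'
      exact ⟨r, fun _ => ⟨h1, h2⟩⟩
  choose ρ0 hρ0 using hρ
  have D : Da n p R (fun a b => ρ0 (a, b)) ε :=
    ⟨h3, hp, hR, fun a b h => hρ0 (a, b) h,
      fun i hi j hj hij he => hij (p_inj hp h3 hi hj (hε _
        (Finset.mem_image_of_mem _ (Finset.mem_range.2 hi)) _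
        (Finset.mem_image_of_mem _ (Finset.mem_range.2 hj)) he))⟩
  set Δ : ℝ := ((BD n p R).card : ℝ) with hΔ
  have hΔ0 : 0 ≤ Δ := Nat.cast_nonneg _
  have hS0 : (0 : ℝ) ≤ ((SwS n p R).card : ℝ) := Nat.cast_nonneg _
  have hcl := fun uv : ℕ × ℕ => class_thm0 D uv.1 uv.2 t (18 * Δ + n) ht
    (by rw [hΔ]; exact_mod_cast E1_bd n p R uv.1 uv.2)
    (by rw [hΔ]; exact_mod_cast E2_bd n p R uv.1 uv.2)
  choose Ff hF1 hF2 hF3 using hcl
  have hn0 : (0 : ℝ) ≤ n := Nat.cast_nonneg _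
  set Q := Finset.range 2 ×ˢ Finset.range 2 with hQ
  have hQc : Q.card = 4 := by rw [hQ]; rfl
  have hQr : (Q.card : ℝ) = 4 := by rw [hQc]; norm_num
  refine ⟨Q.biUnion Ff, ?_, ?_, ?_⟩
  · intro B hB
    rw [Finset.mem_biUnion] at hB
    obtain ⟨uv, -, hB⟩ := hB
    exact hF1 uv B hB
  · have k1 : ((Q.biUnion Ff).card : ℝ) ≤ ∑ uv ∈ Q, ((Ff uv).card : ℝ) := by
      exact_mod_cast Finset.card_biUnion_le
    have k2 := mul_le_mul_of_nonneg_right k1 ht.le
    rw [Finset.sum_mul] at k2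
    have k3 : ∑ uv ∈ Q, ((Ff uv).card : ℝ) * t ≤ ∑ uv ∈ Q, (18 * Δ + n) :=
      Finset.sum_le_sum (fun uv _ => hF2 uv)
    rw [Finset.sum_const, nsmul_eq_mul, hQr] at k3
    linarith
  · have hsub : Un n p R (Q.biUnion Ff) ⊆
        ((Finset.range n ×ˢ Finset.range n).filter (fun e => e.1 < e.2 ∧
        ¬ (4 ≤ e.1 ∧ e.1 + 9 < e.2 ∧ e.2 + 5 < n))) ∪
        (FJ n p R ∪ (((Finset.range n ×ˢ Finset.range n).filter
        (fun e => (4 ≤ e.1 ∧ e.1 + 9 < e.2 ∧ e.2 + 5 < n) ∧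
          ¬ Dg n p R e.1 e.2 ∧ ¬ WC n p R (e.1 - 4) (e.2 - 4))) ∪
        (Q.biUnion (fun uv => ((Gc n p R uv.1 uv.2).filter (fun c => ∀ B ∈ Ff uv,
        ¬ Cg p R B (2 * c.1 + uv.1 + 4, 2 * c.2 + uv.2 + 4))).image
          (fun c => (2 * c.1 + uv.1 + 4, 2 * c.2 + uv.2 + 4)))))) := by
      intro e he
      unfold Un at he
      rw [Finset.mem_filter] at he
      obtain ⟨he1, ⟨he2, heo⟩, he3⟩ := he
      rw [Finset.mem_union, Finset.mem_union, Finset.mem_union, Finset.mem_filter,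
        Finset.mem_filter, Finset.mem_biUnion]
      by_cases c1 : 4 ≤ e.1 ∧ e.1 + 9 < e.2 ∧ e.2 + 5 < n
      · right
        by_cases hd : Dg n p R e.1 e.2
        · left
          have hD : e ∈ Dgs n p R := by
            unfold Dgs
            rw [Finset.mem_filter]
            exact ⟨he1, by omega, by omega, hd⟩
          rcases dgs_cases hD with h | h
          · exact absurd heo h
          · exact h
        · right
          by_cases hG' : WC n p R (e.1 - 4) (e.2 - 4)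
          · right
            obtain ⟨c1, c2, c3⟩ := c1
            set u := (e.1 - 4) % 2 with hu
            set v := (e.2 - 4) % 2 with hv
            have huv : (u, v) ∈ Q := by
              rw [hQ, Finset.mem_product, Finset.mem_range, Finset.mem_range]
              exact ⟨by show u < 2; omega, by show v < 2; omega⟩
            have e1 : 2 * ((e.1 - 4) / 2) + u + 4 = e.1 := by omega
            have e2 : 2 * ((e.2 - 4) / 2) + v + 4 = e.2 := by omega
            have e3 : 2 * ((e.1 - 4) / 2) + u = e.1 - 4 := by omega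
            have e4 : 2 * ((e.2 - 4) / 2) + v = e.2 - 4 := by omega
            have hee : (2 * ((e.1 - 4) / 2) + u + 4, 2 * ((e.2 - 4) / 2) + v + 4) = e :=
              Prod.ext e1 e2
            have hG : WC n p R (2 * ((e.1 - 4) / 2) + u) (2 * ((e.2 - 4) / 2) + v) := by
              rw [e3, e4]; exact hG'
            refine ⟨(u, v), huv, ?_⟩
            rw [Finset.mem_image]
            refine ⟨((e.1 - 4) / 2, (e.2 - 4) / 2), ?_, hee⟩
            rw [Finset.mem_filter]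
            refine ⟨mem_Gc.2 ⟨⟨by show 2 * ((e.1 - 4) / 2) + u + 9 < 2 * ((e.2 - 4) / 2) + v; omega,
              by show 2 * ((e.2 - 4) / 2) + v + 9 < n; omega⟩, hG⟩, ?_⟩
            intro B hB hcov
            apply he3 B (Finset.mem_biUnion.2 ⟨(u, v), huv, hB⟩)
            simp only at hcov
            rw [hee] at hcov
            exact hcov
          · left
            exact ⟨he1, c1, hd, hG'⟩
      · left
        exact ⟨he1, he2, c1⟩
    have k6 := (Finset.card_le_card hsub).trans ((Finset.card_union_le _ _).trans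
      (Nat.add_le_add_left ((Finset.card_union_le _ _).trans
      (Nat.add_le_add_left (Finset.card_union_le _ _) _)) _))
    have k7 := edge_card' n
    have k8 := fj_card n p hp R hR
    have k9 := wb_card n p R
    have k10 : ((Q.biUnion (fun uv => ((Gc n p R uv.1 uv.2).filter (fun c => ∀ B ∈ Ff uv,
        ¬ Cg p R B (2 * c.1 + uv.1 + 4, 2 * c.2 + uv.2 + 4))).image
          (fun c => (2 * c.1 + uv.1 + 4, 2 * c.2 + uv.2 + 4)))).card : ℝ) ≤
          4 * (t * (18 * Δ + n)) := by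
      have a1 : ((Q.biUnion (fun uv => ((Gc n p R uv.1 uv.2).filter (fun c => ∀ B ∈ Ff uv,
        ¬ Cg p R B (2 * c.1 + uv.1 + 4, 2 * c.2 + uv.2 + 4))).image
          (fun c => (2 * c.1 + uv.1 + 4, 2 * c.2 + uv.2 + 4)))).card : ℝ) ≤
          ∑ uv ∈ Q, (((((Gc n p R uv.1 uv.2).filter (fun c => ∀ B ∈ Ff uv,
        ¬ Cg p R B (2 * c.1 + uv.1 + 4, 2 * c.2 + uv.2 + 4))).image
          (fun c => (2 * c.1 + uv.1 + 4, 2 * c.2 + uv.2 + 4))).card : ℕ) : ℝ) := by
        exact_mod_cast Finset.card_biUnion_le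
      have a2 : ∑ uv ∈ Q, (((((Gc n p R uv.1 uv.2).filter (fun c => ∀ B ∈ Ff uv,
        ¬ Cg p R B (2 * c.1 + uv.1 + 4, 2 * c.2 + uv.2 + 4))).image
          (fun c => (2 * c.1 + uv.1 + 4, 2 * c.2 + uv.2 + 4))).card : ℕ) : ℝ) ≤
          ∑ uv ∈ Q, (t * (18 * Δ + n)) := by
        apply Finset.sum_le_sum
        intro uv _
        refine le_trans ?_ (hF3 uv)
        exact_mod_cast Finset.card_image_le
      rw [Finset.sum_const, nsmul_eq_mul, hQr] at a2
      linarith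
    set a1 := ((Finset.range n ×ˢ Finset.range n).filter (fun e => e.1 < e.2 ∧
        ¬ (4 ≤ e.1 ∧ e.1 + 9 < e.2 ∧ e.2 + 5 < n))).card with ha1
    set a2 := (FJ n p R).card with ha2
    set a3 := ((Finset.range n ×ˢ Finset.range n).filter
        (fun e => (4 ≤ e.1 ∧ e.1 + 9 < e.2 ∧ e.2 + 5 < n) ∧
          ¬ Dg n p R e.1 e.2 ∧ ¬ WC n p R (e.1 - 4) (e.2 - 4))).card with ha3
    set a4 := (Q.biUnion (fun uv => ((Gc n p R uv.1 uv.2).filter (fun c => ∀ B ∈ Ff uv,
        ¬ Cg p R B (2 * c.1 + uv.1 + 4, 2 * c.2 + uv.2 + 4))).image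
          (fun c => (2 * c.1 + uv.1 + 4, 2 * c.2 + uv.2 + 4)))).card with ha4
    have r6 : ((Un n p R (Q.biUnion Ff)).card : ℝ) ≤ (a1 : ℝ) + ((a2 : ℝ) + ((a3 : ℝ) + (a4 : ℝ))) := by
      exact_mod_cast k6
    have r7 : (a1 : ℝ) ≤ 18 * n := by exact_mod_cast k7
    have r8 : (a2 : ℝ) ≤ 4 * ((SwS n p R).card : ℝ) := by exact_mod_cast k8
    have r9 : (a3 : ℝ) ≤ 81 * Δ := by rw [hΔ]; exact_mod_cast k9
    have k13 : t * (81 * Δ + 4 * ((SwS n p R).card : ℝ) + 18 * n) ≤ t * M :=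
      mul_le_mul_of_nonneg_left hM ht.le
    have e13 : (1 + t) * M = M + t * M := by ring
    rw [e13]
    have k14 : 0 ≤ t * (n : ℝ) := by positivity
    have k15 : 0 ≤ t * Δ := by positivity
    have k16 : 0 ≤ t * ((SwS n p R).card : ℝ) := by positivity
    clear_value a1 a2 a3 a4
    nlinarith

theorem e_final (K e : ℝ) (hK : 0 ≤ K) (he : 0 < e) : ∃ C N : ℕ, ∀ (n : ℕ) (p : ℕ → ℝ × ℝ)
    (R : Finset (ℝ × ℝ)), N ≤ n → Cvx n p → (∀ r ∈ R, ∀ i < n, r ≠ p i) →
    ((SwS n p R).card : ℝ) ≤ K * n → ((BE n p R).card : ℝ) ≤ K * n →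
    (∃ D : Finset (Finset (ℝ × ℝ)), D.card ≤ C ∧
      (∀ B ∈ D, B ⊆ (Finset.range n).image p ∪ R ∧ OnC B) ∧
      ((Un n p R D).card : ℝ) ≤ e * (n : ℝ) ^ 2) ∧
    (2 * e * (n : ℝ) ^ 2 ≤ (((Finset.range n ×ˢ Finset.range n).filter
        (fun e => e.1 < e.2 ∧ One p R e)).card : ℝ) →
      ∃ B : Finset (ℝ × ℝ), B ⊆ (Finset.range n).image p ∪ R ∧ OnC B ∧
      n ≤ C * ((Finset.range n).filter (fun i => p i ∈ B)).card ∧
      n ≤ C * (R.filter (fun r => r ∈ B)).card) := by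
  set m := 1381 * K + 18 with hm
  have m0 : 0 < m := by positivity
  obtain ⟨N1, hN1⟩ := exists_nat_ge (2 * m / e)
  obtain ⟨C0, hC0⟩ := exists_nat_ge (2 * m ^ 2 / e)
  obtain ⟨q, hq⟩ := exists_nat_ge (((C0 : ℝ) + 1) / e)
  have hq0 : (0 : ℝ) < q := lt_of_lt_of_le (by positivity) hq
  have hq1 : 1 ≤ q := by
    have : 0 < q := by exact_mod_cast hq0
    omega
  refine ⟨q + C0, N1 + 10, ?_⟩
  intro n p R hn hp hR hSw hBE
  have n0 : (0 : ℝ) < n := by
    have : 0 < n := by omega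
    exact_mod_cast this
  have hnN : 2 * m / e ≤ n := by
    have : (N1 : ℝ) ≤ n := by
      have : N1 ≤ n := by omega
      exact_mod_cast this
    linarith
  have hmn : m * n ≤ e * (n : ℝ) ^ 2 / 2 := by
    rw [div_le_iff₀ he] at hnN
    have := mul_le_mul_of_nonneg_right hnN n0.le
    have e3 : (n : ℝ) * e * n = e * (n : ℝ) ^ 2 := by ring
    rw [e3] at this
    linarith
  set t := e * n / (2 * m) with ht
  have t0 : 0 < t := by positivity
  have hM : 81 * ((BD n p R).card : ℝ) + 4 * ((SwS n p R).card : ℝ) + 18 * n ≤ m * n := by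
    have h1 : ((BD n p R).card : ℝ) ≤ ((BE n p R).card : ℝ) + 4 * ((FJ n p R).card : ℝ) := by
      exact_mod_cast bd_card n p R
    have h2 : ((FJ n p R).card : ℝ) ≤ 4 * ((SwS n p R).card : ℝ) := by
      exact_mod_cast fj_card n p hp R hR
    rw [hm]
    nlinarith
  obtain ⟨D, hD1, hD2, hD3⟩ := e_struct n p (by omega) hp R hR t (m * n) t0 hM
  have htm : t * (m * n) = e * (n : ℝ) ^ 2 / 2 := by
    rw [ht]; field_simp
  have hDc : (D.card : ℝ) ≤ C0 := by
    have h1 : (D.card : ℝ) ≤ m * n / t := (le_div_iff₀ t0).2 hD2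
    have h2 : m * n / t = 2 * m ^ 2 / e := by
      rw [ht]; field_simp
    rw [h2] at h1
    linarith
  have hDc' : D.card ≤ C0 := by exact_mod_cast hDc
  have hunc : ((Un n p R D).card : ℝ) ≤ e * (n : ℝ) ^ 2 := by
    have e3 : (1 + t) * (m * n) = m * n + t * (m * n) := by ring
    rw [e3, htm] at hD3
    linarith
  refine ⟨⟨D, by omega, hD1, hunc⟩, ?_⟩
  intro hE
  -- one cubic
  have hex : ∃ B ∈ D, (n : ℝ) ^ 2 ≤ (q : ℝ) * ((Cw n p R B).card : ℝ) := by
    by_contra hcon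
    push Not at hcon
    have h1 : (Finset.range n ×ˢ Finset.range n).filter (fun e => e.1 < e.2 ∧ One p R e) ⊆
        Un n p R D ∪ D.biUnion (fun B => Cw n p R B) := by
      intro c hc
      rw [Finset.mem_filter] at hc
      rw [Finset.mem_union, Finset.mem_biUnion]
      by_cases h : ∀ B ∈ D, ¬ Cg p R B c
      · left
        unfold Un
        rw [Finset.mem_filter]
        exact ⟨hc.1, hc.2, h⟩
      · push Not at h
        obtain ⟨B, hB, h2⟩ := h
        refine Or.inr ⟨B, hB, ?_⟩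
        unfold Cw
        rw [Finset.mem_filter]
        exact ⟨hc.1, hc.2.1, h2⟩
    have h2 := (Finset.card_le_card h1).trans (Finset.card_union_le _ _)
    have h3 : (D.biUnion (fun B => Cw n p R B)).card ≤ ∑ B ∈ D, (Cw n p R B).card :=
      Finset.card_biUnion_le
    have h5 : ∑ B ∈ D, ((Cw n p R B).card : ℝ) ≤ ∑ B ∈ D, (n : ℝ) ^ 2 / q := by
      apply Finset.sum_le_sum
      intro B hB
      rw [le_div_iff₀ hq0]
      have := hcon B hB
      linarith
    rw [Finset.sum_const, nsmul_eq_mul] at h5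
    have h6 : (D.card : ℝ) * ((n : ℝ) ^ 2 / q) < e * (n : ℝ) ^ 2 := by
      have g1 : (D.card : ℝ) * ((n : ℝ) ^ 2 / q) ≤ (C0 : ℝ) * ((n : ℝ) ^ 2 / q) :=
        mul_le_mul_of_nonneg_right hDc (by positivity)
      have g2 : (C0 : ℝ) * ((n : ℝ) ^ 2 / q) = (C0 : ℝ) * (n : ℝ) ^ 2 / q := by ring
      rw [g2] at g1
      have g3 : (C0 : ℝ) * (n : ℝ) ^ 2 / q < e * (n : ℝ) ^ 2 := by
        rw [div_lt_iff₀ hq0]
        rw [div_le_iff₀ he] at hq
        have hn2 : 0 < (n : ℝ) ^ 2 := by positivity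
        nlinarith
      linarith
    have h7 : (((Finset.range n ×ˢ Finset.range n).filter
        (fun e => e.1 < e.2 ∧ One p R e)).card : ℝ) ≤
        ((Un n p R D).card : ℝ) + ∑ B ∈ D, ((Cw n p R B).card : ℝ) := by
      have : ((Finset.range n ×ˢ Finset.range n).filter (fun e => e.1 < e.2 ∧ One p R e)).card ≤
        (Un n p R D).card + ∑ B ∈ D, (Cw n p R B).card := by omega
      exact_mod_cast this
    linarith
  obtain ⟨B, hB, hBc⟩ := hex
  obtain ⟨hB1, hB2⟩ := hD1 B hB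
  refine ⟨B, hB1, hB2, ?_, ?_⟩
  · have h1 : (n : ℝ) ^ 2 ≤ (q : ℝ) *
        ((((Finset.range n).filter (fun i => p i ∈ B)).card ^ 2 : ℕ) : ℝ) :=
      hBc.trans (mul_le_mul_of_nonneg_left (by exact_mod_cast cw_vert n p R B)
        (Nat.cast_nonneg _))
    have h2 : n ^ 2 ≤ q * ((Finset.range n).filter (fun i => p i ∈ B)).card ^ 2 := by
      exact_mod_cast h1
    set v := ((Finset.range n).filter (fun i => p i ∈ B)).card with hv
    have h5 : n ≤ q * v := by
      by_contra hlt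
      push Not at hlt
      have h3 : (q * v) ^ 2 < n ^ 2 := Nat.pow_lt_pow_left hlt (by norm_num)
      have h4 : q * v ^ 2 ≤ (q * v) ^ 2 := by
        have : (q * v) ^ 2 = q * (q * v ^ 2) := by ring
        rw [this]
        exact Nat.le_mul_of_pos_left _ hq1
      omega
    exact h5.trans (Nat.mul_le_mul_right _ (Nat.le_add_right _ _))
  · have h1 : (n : ℝ) ^ 2 ≤ (q : ℝ) *
        (((R.filter (fun r => r ∈ B)).card * n : ℕ) : ℝ) :=
      hBc.trans (mul_le_mul_of_nonneg_left (by exact_mod_cast cw_R n p hp R B hR)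
        (Nat.cast_nonneg _))
    have h2 : n ^ 2 ≤ q * ((R.filter (fun r => r ∈ B)).card * n) := by
      exact_mod_cast h1
    have h3 : n * n ≤ q * (R.filter (fun r => r ∈ B)).card * n := by
      calc n * n = n ^ 2 := by ring
        _ ≤ _ := h2
        _ = _ := by ring
    exact (Nat.le_of_mul_le_mul_right h3 (by omega)).trans
      (Nat.mul_le_mul_right _ (Nat.le_add_right _ _))

end MP9b2b.PG
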