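import Pool.Agent.Lib.MP_9b2b7a_co.PG.GenStr

/-! Convex polygons whose lines are pierced by at most `n + K` points: final form. -/

set_option autoImplicit false
open scoped Classical

namespace MP9b2b.PG

/-- the chords covered by `B` -/
noncomputable def Cw (n : ℕ) (p : ℕ → ℝ × ℝ) (R B : Finset (ℝ × ℝ)) : Finset (ℕ × ℕ) :=
  (Finset.range n ×ˢ Finset.range n).filter (fun e => e.1 < e.2 ∧ Cg p R B e)

theorem cw_vert (n : ℕ) (p : ℕ → ℝ × ℝ) (R B : Finset (ℝ × ℝ)) :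
    (Cw n p R B).card ≤ ((Finset.range n).filter (fun i => p i ∈ B)).card ^ 2 := by
  rw [pow_two, ← Finset.card_product]
  apply Finset.card_le_card
  intro e he
  unfold Cw at he
  rw [Finset.mem_filter, Finset.mem_product] at he
  rw [Finset.mem_product, Finset.mem_filter, Finset.mem_filter]
  exact ⟨⟨he.1.1, he.2.2.1⟩, he.1.2, he.2.2.2.1⟩

theorem cw_R (n : ℕ) (p : ℕ → ℝ × ℝ) (hp : Cvx n p) (R B : Finset (ℝ × ℝ))
    (hR : ∀ r ∈ R, ∀ i < n, r ≠ p i) :
    (Cw n p R B).card ≤ (R.filter (fun r => r ∈ B)).card * n := by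
  have h : ∀ e : ℕ × ℕ, ∃ r, e ∈ Cw n p R B → r ∈ R ∧ r ∈ B ∧ Mt n p r e.1 e.2 := by
    intro e
    by_cases he : e ∈ Cw n p R B
    · have he' := he
      unfold Cw at he'
      rw [Finset.mem_filter, Finset.mem_product, Finset.mem_range, Finset.mem_range] at he'
      obtain ⟨⟨h1, h2⟩, h3, -, -, r, h4, h5, h6⟩ := he'
      exact ⟨r, fun _ => ⟨h4, h5, mt_iff.2 ⟨h1, h2, h3.ne, h6⟩⟩⟩
    · exact ⟨(0, 0), fun h => absurd h he⟩
  choose f hf using h
  have e : (R.filter (fun r => r ∈ B)).card * n =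
      ((R.filter (fun r => r ∈ B)) ×ˢ Finset.range n).card := by
    rw [Finset.card_product, Finset.card_range]
  rw [e]
  apply Finset.card_le_card_of_injOn (fun e => (f e, e.1))
  · intro e he
    obtain ⟨h1, h2, h3⟩ := hf e he
    rw [Finset.mem_coe, Finset.mem_product, Finset.mem_filter, Finset.mem_range]
    exact ⟨⟨h1, h2⟩, h3.1⟩
  · intro e he e' he' h
    have h : (f e, e.1) = (f e', e'.1) := h
    rw [Prod.mk.injEq] at h
    obtain ⟨h1, h2, h3⟩ := hf e he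
    obtain ⟨-, -, h6⟩ := hf e' he'
    rw [← h.1, ← h.2] at h6
    exact Prod.ext h.2 (Mt.uniq hp (hR _ h1) h3 h6)

theorem gen_core (K e : ℝ) (hK : 0 ≤ K) (he : 0 < e) : ∃ C N : ℕ, ∀ (n : ℕ) (p : ℕ → ℝ × ℝ)
    (R : Finset (ℝ × ℝ)), N ≤ n → Cvx n p → (∀ r ∈ R, ∀ i < n, r ≠ p i) →
    ((Dgs n p R).card : ℝ) ≤ K * n →
    (∃ D : Finset (Finset (ℝ × ℝ)), D.card ≤ C ∧
      (∀ B ∈ D, B ⊆ (Finset.range n).image p ∪ R ∧ OnC B) ∧
      (((Finset.range n ×ˢ Finset.range n).filter (fun e => e.1 < e.2 ∧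
        ∀ B ∈ D, ¬ Cg p R B e)).card : ℝ) ≤ e * (n : ℝ) ^ 2) ∧
    (∃ B : Finset (ℝ × ℝ), B ⊆ (Finset.range n).image p ∪ R ∧ OnC B ∧
      n ≤ C * ((Finset.range n).filter (fun i => p i ∈ B)).card ∧
      n ≤ C * (R.filter (fun r => r ∈ B)).card) := by
  set e' := min e (1 / 8) with he'
  have e0 : 0 < e' := lt_min he (by norm_num)
  have e1 : e' ≤ e := min_le_left _ _
  have e8 : e' ≤ 1 / 8 := min_le_right _ _
  set m := 324 * K + 18 with hm
  have m0 : 0 < m := by positivity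
  obtain ⟨N1, hN1⟩ := exists_nat_ge (2 * m / e')
  obtain ⟨C0, hC0⟩ := exists_nat_ge (2 * m ^ 2 / e')
  refine ⟨4 * (C0 + 1), N1 + 10, ?_⟩
  intro n p R hn hp hR hDc0
  have hn10 : 10 ≤ n := by omega
  have n0 : (0 : ℝ) < n := by
    have : 0 < n := by omega
    exact_mod_cast this
  have hnN : 2 * m / e' ≤ n := by
    have : (N1 : ℝ) ≤ n := by
      have : N1 ≤ n := by omega
      exact_mod_cast this
    linarith
  have hmn : m * n ≤ e' * (n : ℝ) ^ 2 / 2 := by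
    rw [div_le_iff₀ e0] at hnN
    have := mul_le_mul_of_nonneg_right hnN n0.le
    have e3 : (n : ℝ) * e' * n = e' * (n : ℝ) ^ 2 := by ring
    rw [e3] at this
    linarith
  set t := e' * n / (2 * m) with ht
  have t0 : 0 < t := by positivity
  have hM : 324 * ((Dgs n p R).card : ℝ) + 18 * n ≤ m * n := by
    rw [hm]
    nlinarith
  obtain ⟨D, hD1, hD2, hD3⟩ := gen_struct0 n p (by omega) hp R hR t (m * n) t0 hM
  have htm : t * (m * n) = e' * (n : ℝ) ^ 2 / 2 := by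
    rw [ht]; field_simp
  have hDc : (D.card : ℝ) ≤ C0 := by
    have h1 : (D.card : ℝ) ≤ m * n / t := (le_div_iff₀ t0).2 hD2
    have h2 : m * n / t = 2 * m ^ 2 / e' := by
      rw [ht]; field_simp
    rw [h2] at h1
    linarith
  have hDc' : D.card ≤ C0 := by exact_mod_cast hDc
  have hunc : (((Finset.range n ×ˢ Finset.range n).filter (fun e => e.1 < e.2 ∧
        ∀ B ∈ D, ¬ Cg p R B e)).card : ℝ) ≤ e' * (n : ℝ) ^ 2 := by
    have e3 : (1 + t) * (m * n) = m * n + t * (m * n) := by ring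
    rw [e3, htm] at hD3
    linarith
  refine ⟨⟨D, by omega, hD1, hunc.trans (mul_le_mul_of_nonneg_right e1 (sq_nonneg _))⟩, ?_⟩
  -- one cubic
  have hex : ∃ B ∈ D, (n : ℝ) ^ 2 ≤ ((4 * (C0 + 1) : ℕ) : ℝ) * ((Cw n p R B).card : ℝ) := by
    by_contra hcon
    push Not at hcon
    have h1 : (Finset.range n ×ˢ Finset.range n).filter (fun e => e.1 < e.2) ⊆
        (Finset.range n ×ˢ Finset.range n).filter (fun e => e.1 < e.2 ∧
        ∀ B ∈ D, ¬ Cg p R B e) ∪ D.biUnion (fun B => Cw n p R B) := by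
      intro c hc
      rw [Finset.mem_filter] at hc
      rw [Finset.mem_union, Finset.mem_filter, Finset.mem_biUnion]
      by_cases h : ∀ B ∈ D, ¬ Cg p R B c
      · exact Or.inl ⟨hc.1, hc.2, h⟩
      · push Not at h
        obtain ⟨B, hB, h2⟩ := h
        refine Or.inr ⟨B, hB, ?_⟩
        unfold Cw
        rw [Finset.mem_filter]
        exact ⟨hc.1, hc.2, h2⟩
    have h2 := (Finset.card_le_card h1).trans (Finset.card_union_le _ _)
    have h3 : (D.biUnion (fun B => Cw n p R B)).card ≤ ∑ B ∈ D, (Cw n p R B).card :=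
      Finset.card_biUnion_le
    have h4 := lt_card n
    set q : ℝ := ((4 * (C0 + 1) : ℕ) : ℝ) with hq
    have q0 : 0 < q := by
      rw [hq]; exact_mod_cast (by omega : 0 < 4 * (C0 + 1))
    have h5 : ∑ B ∈ D, ((Cw n p R B).card : ℝ) ≤ ∑ B ∈ D, (n : ℝ) ^ 2 / q := by
      apply Finset.sum_le_sum
      intro B hB
      rw [le_div_iff₀ q0]
      have := hcon B hB
      linarith
    rw [Finset.sum_const, nsmul_eq_mul] at h5
    have h6 : (D.card : ℝ) * ((n : ℝ) ^ 2 / q) < (n : ℝ) ^ 2 / 4 := by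
      have g1 : (D.card : ℝ) * ((n : ℝ) ^ 2 / q) ≤ (C0 : ℝ) * ((n : ℝ) ^ 2 / q) :=
        mul_le_mul_of_nonneg_right hDc (by positivity)
      have g2 : (C0 : ℝ) * ((n : ℝ) ^ 2 / q) = (C0 : ℝ) * (n : ℝ) ^ 2 / q := by ring
      rw [g2] at g1
      have g3 : (C0 : ℝ) * (n : ℝ) ^ 2 / q < (n : ℝ) ^ 2 / 4 := by
        rw [div_lt_div_iff₀ q0 (by norm_num)]
        rw [hq]
        push_cast
        have : 0 < (n : ℝ) ^ 2 := by positivity
        nlinarith
      linarith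
    have h7 : (((Finset.range n ×ˢ Finset.range n).filter (fun e => e.1 < e.2)).card : ℝ) ≤
        (((Finset.range n ×ˢ Finset.range n).filter (fun e => e.1 < e.2 ∧
        ∀ B ∈ D, ¬ Cg p R B e)).card : ℝ) + ∑ B ∈ D, ((Cw n p R B).card : ℝ) := by
      have : ((Finset.range n ×ˢ Finset.range n).filter (fun e => e.1 < e.2)).card ≤
        ((Finset.range n ×ˢ Finset.range n).filter (fun e => e.1 < e.2 ∧
        ∀ B ∈ D, ¬ Cg p R B e)).card + ∑ B ∈ D, (Cw n p R B).card := by omega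
      exact_mod_cast this
    have h8 : 2 * (((Finset.range n ×ˢ Finset.range n).filter (fun e => e.1 < e.2)).card : ℝ) =
        (n : ℝ) * ((n : ℝ) - 1) := by
      have e9 : ((n - 1 : ℕ) : ℝ) = (n : ℝ) - 1 := by
        rw [Nat.cast_sub (by omega)]; simp
      rw [← e9]
      exact_mod_cast h4
    have h9 : e' * (n : ℝ) ^ 2 ≤ 1 / 8 * (n : ℝ) ^ 2 :=
      mul_le_mul_of_nonneg_right e8 (sq_nonneg _)
    have h10 : (10 : ℝ) ≤ n := by exact_mod_cast hn10
    nlinarith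
  obtain ⟨B, hB, hBc⟩ := hex
  obtain ⟨hB1, hB2⟩ := hD1 B hB
  refine ⟨B, hB1, hB2, ?_, ?_⟩
  · have h1 : (n : ℝ) ^ 2 ≤ ((4 * (C0 + 1) : ℕ) : ℝ) *
        ((((Finset.range n).filter (fun i => p i ∈ B)).card ^ 2 : ℕ) : ℝ) :=
      hBc.trans (mul_le_mul_of_nonneg_left (by exact_mod_cast cw_vert n p R B)
        (Nat.cast_nonneg _))
    have h2 : n ^ 2 ≤ (4 * (C0 + 1)) * ((Finset.range n).filter (fun i => p i ∈ B)).card ^ 2 := by
      exact_mod_cast h1
    set v := ((Finset.range n).filter (fun i => p i ∈ B)).card with hv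
    set q := 4 * (C0 + 1) with hq
    have hq1 : 1 ≤ q := by omega
    by_contra hlt
    push Not at hlt
    have h3 : (q * v) ^ 2 < n ^ 2 := Nat.pow_lt_pow_left hlt (by norm_num)
    have h4 : q * v ^ 2 ≤ (q * v) ^ 2 := by
      have : (q * v) ^ 2 = q * (q * v ^ 2) := by ring
      rw [this]
      exact Nat.le_mul_of_pos_left _ hq1
    omega
  · have h1 : (n : ℝ) ^ 2 ≤ ((4 * (C0 + 1) : ℕ) : ℝ) *
        (((R.filter (fun r => r ∈ B)).card * n : ℕ) : ℝ) :=
      hBc.trans (mul_le_mul_of_nonneg_left (by exact_mod_cast cw_R n p hp R B hR)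
        (Nat.cast_nonneg _))
    have h2 : n ^ 2 ≤ (4 * (C0 + 1)) * ((R.filter (fun r => r ∈ B)).card * n) := by
      exact_mod_cast h1
    have h3 : n * n ≤ (4 * (C0 + 1)) * (R.filter (fun r => r ∈ B)).card * n := by
      calc n * n = n ^ 2 := by ring
        _ ≤ _ := h2
        _ = _ := by ring
    exact Nat.le_of_mul_le_mul_right h3 (by omega)

theorem gen_final (K e : ℝ) (hK : 0 ≤ K) (he : 0 < e) : ∃ C N : ℕ, ∀ (n : ℕ) (p : ℕ → ℝ × ℝ)
    (R : Finset (ℝ × ℝ)), N ≤ n → Cvx n p → (∀ r ∈ R, ∀ i < n, r ≠ p i) →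
    (R.card : ℝ) ≤ n + K → ((UL n p R).card : ℝ) ≤ K * n →
    (∃ D : Finset (Finset (ℝ × ℝ)), D.card ≤ C ∧
      (∀ B ∈ D, B ⊆ (Finset.range n).image p ∪ R ∧ OnC B) ∧
      (((Finset.range n ×ˢ Finset.range n).filter (fun e => e.1 < e.2 ∧
        ∀ B ∈ D, ¬ Cg p R B e)).card : ℝ) ≤ e * (n : ℝ) ^ 2) ∧
    (∃ B : Finset (ℝ × ℝ), B ⊆ (Finset.range n).image p ∪ R ∧ OnC B ∧
      n ≤ C * ((Finset.range n).filter (fun i => p i ∈ B)).card ∧
      n ≤ C * (R.filter (fun r => r ∈ B)).card) := by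
  obtain ⟨C, N, h⟩ := gen_core (13 * K + 4) e (by positivity) he
  refine ⟨C, N + 1, fun n p R hn hp hR hRc hUc => h n p R (by omega) hp hR ?_⟩
  have h1 : ((Dgs n p R).card : ℝ) + 4 * ((n : ℝ) * ((n : ℝ) - 1)) ≤
      4 * ((R.card : ℝ) * n) + 9 * ((UL n p R).card : ℝ) := by
    have e : ((n - 1 : ℕ) : ℝ) = (n : ℝ) - 1 := by
      rw [Nat.cast_sub (by omega)]; simp
    rw [← e]
    exact_mod_cast dgs_card n p hp R hR
  have n0 : (0 : ℝ) ≤ n := Nat.cast_nonneg _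
  have := mul_le_mul_of_nonneg_left hRc n0
  nlinarith

/-- switches -/
noncomputable def SwS (n : ℕ) (p : ℕ → ℝ × ℝ) (R : Finset (ℝ × ℝ)) : Finset (ℕ × (ℝ × ℝ)) :=
  (Finset.range (n - 1) ×ˢ R).filter (fun t =>
      ¬ (Joined n p t.2 t.1 ↔ Joined n p t.2 (t.1 + 1)))

/-- the lines without exactly one piercing point -/
noncomputable def NE (n : ℕ) (p : ℕ → ℝ × ℝ) (R : Finset (ℝ × ℝ)) : Finset (ℕ × ℕ) :=
  (Finset.range n ×ˢ Finset.range n).filter (fun e => e.1 < e.2 ∧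
      (R.filter (fun r => Collinear ℝ ({p e.1, p e.2, r} : Set (ℝ × ℝ)))).card ≠ 1)

theorem jn_iff {n : ℕ} {p : ℕ → ℝ × ℝ} {r : ℝ × ℝ} {i : ℕ} (hi : i < n) :
    Jn n p r i ↔ Joined n p r i := joined_iff hi

theorem scount {n : ℕ} {p : ℕ → ℝ × ℝ} {R : Finset (ℝ × ℝ)} (S : Finset (ℕ × ℕ)) (g : ℕ × ℕ → ℕ)
    (hg : ∀ e ∈ S, ∃ r ∈ R, Mt n p r e.1 e.2 ∧ g e + 1 < n ∧ ¬ (Jn n p r (g e) ↔ Jn n p r (g e + 1)))
    (hinj : ∀ e ∈ S, ∀ e' ∈ S, ∀ r ∈ R, Mt n p r e.1 e.2 → Mt n p r e'.1 e'.2 → g e = g e' →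
      e = e') : S.card ≤ (SwS n p R).card := by
  have h : ∀ e : ℕ × ℕ, ∃ r, e ∈ S → r ∈ R ∧ Mt n p r e.1 e.2 ∧ g e + 1 < n ∧
      ¬ (Jn n p r (g e) ↔ Jn n p r (g e + 1)) := by
    intro e
    by_cases he : e ∈ S
    · obtain ⟨r, h1, h2⟩ := hg e he
      exact ⟨r, fun _ => ⟨h1, h2⟩⟩
    · exact ⟨(0, 0), fun h => absurd h he⟩
  choose f hf using h
  apply Finset.card_le_card_of_injOn (fun e => (g e, f e))
  · intro e he
    obtain ⟨h1, h2, h3, h4⟩ := hf e he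
    unfold SwS
    rw [Finset.mem_coe, Finset.mem_filter, Finset.mem_product, Finset.mem_range]
    refine ⟨⟨by show g e < n - 1; omega, h1⟩, ?_⟩
    show ¬ (Joined n p (f e) (g e) ↔ Joined n p (f e) (g e + 1))
    rw [← jn_iff (by omega), ← jn_iff h3]
    exact h4
  · intro e he e' he' heq
    have heq : (g e, f e) = (g e', f e') := heq
    rw [Prod.mk.injEq] at heq
    obtain ⟨h1, h2, -⟩ := hf e he
    obtain ⟨-, h2', -⟩ := hf e' he'
    rw [← heq.2] at h2'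
    exact hinj e he e' he' _ h1 h2 h2' heq.1

theorem dgs_sw (n : ℕ) (p : ℕ → ℝ × ℝ) (hp : Cvx n p) (R : Finset (ℝ × ℝ))
    (hR : ∀ r ∈ R, ∀ i < n, r ≠ p i) :
    (Dgs n p R).card ≤ (NE n p R).card + 4 * (SwS n p R).card := by
  set F1 := (Dgs n p R).filter (fun e => ∃ r ∈ R, Mt n p r e.1 e.2 ∧ ¬ Jn n p r (e.1 + 1)) with hF1
  set F2 := (Dgs n p R).filter (fun e => ∃ r ∈ R, Mt n p r e.1 e.2 ∧ ¬ Jn n p r (e.1 - 1)) with hF2
  set F3 := (Dgs n p R).filter (fun e => ∃ r ∈ R, Mt n p r e.1 e.2 ∧ ¬ Jn n p r (e.2 + 1)) with hF3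
  set F4 := (Dgs n p R).filter (fun e => ∃ r ∈ R, Mt n p r e.1 e.2 ∧ ¬ Jn n p r (e.2 - 1)) with hF4
  have mD : ∀ e ∈ Dgs n p R, e.1 < n ∧ e.2 < n ∧ e.1 + 1 < e.2 ∧ e.2 + 1 < n := by
    intro e he
    unfold Dgs at he
    rw [Finset.mem_filter, Finset.mem_product, Finset.mem_range, Finset.mem_range] at he
    exact ⟨he.1.1, he.1.2, he.2.1, he.2.2.1⟩
  have c1 : F1.card ≤ (SwS n p R).card := by
    refine scount F1 (fun e => e.1) ?_ ?_
    · intro e he
      rw [hF1, Finset.mem_filter] at he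
      obtain ⟨h1, r, h2, h3, h4⟩ := he
      have := mD e h1
      exact ⟨r, h2, h3, by show e.1 + 1 < n; omega, fun h => h4 (h.1 ⟨_, h3⟩)⟩
    · intro e he e' he' r hr hm hm' h
      have h0 : e.1 = e'.1 := h
      rw [← h0] at hm'
      exact Prod.ext h0 (Mt.uniq hp (hR r hr) hm hm')
  have c2 : F2.card ≤ (SwS n p R).card := by
    have key : ∀ e ∈ F2, 1 ≤ e.1 := by
      intro e he
      rw [hF2, Finset.mem_filter] at he
      obtain ⟨h1, r, h2, h3, h4⟩ := he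
      by_contra h0
      have h00 : e.1 = 0 := by omega
      apply h4
      rw [h00] at h3 ⊢
      exact ⟨_, h3⟩
    refine scount F2 (fun e => e.1 - 1) ?_ ?_
    · intro e he
      have k := key e he
      rw [hF2, Finset.mem_filter] at he
      obtain ⟨h1, r, h2, h3, h4⟩ := he
      have := mD e h1
      refine ⟨r, h2, h3, by show e.1 - 1 + 1 < n; omega, ?_⟩
      show ¬ (Jn n p r (e.1 - 1) ↔ Jn n p r (e.1 - 1 + 1))
      have e1 : e.1 - 1 + 1 = e.1 := by omega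
      rw [e1]
      exact fun h => h4 (h.2 ⟨_, h3⟩)
    · intro e he e' he' r hr hm hm' h
      have h : e.1 - 1 = e'.1 - 1 := h
      have k1 := key e he
      have k2 := key e' he'
      have h0 : e.1 = e'.1 := by omega
      rw [← h0] at hm'
      exact Prod.ext h0 (Mt.uniq hp (hR r hr) hm hm')
  have c3 : F3.card ≤ (SwS n p R).card := by
    refine scount F3 (fun e => e.2) ?_ ?_
    · intro e he
      rw [hF3, Finset.mem_filter] at he
      obtain ⟨h1, r, h2, h3, h4⟩ := he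
      have := mD e h1
      exact ⟨r, h2, h3, by show e.2 + 1 < n; omega, fun h => h4 (h.1 ⟨_, h3.symm⟩)⟩
    · intro e he e' he' r hr hm hm' h
      have h0 : e.2 = e'.2 := h
      rw [← h0] at hm'
      exact Prod.ext (Mt.uniq hp (hR r hr) hm.symm hm'.symm) h0
  have c4 : F4.card ≤ (SwS n p R).card := by
    refine scount F4 (fun e => e.2 - 1) ?_ ?_
    · intro e he
      rw [hF4, Finset.mem_filter] at he
      obtain ⟨h1, r, h2, h3, h4⟩ := he
      have := mD e h1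
      refine ⟨r, h2, h3, by show e.2 - 1 + 1 < n; omega, ?_⟩
      show ¬ (Jn n p r (e.2 - 1) ↔ Jn n p r (e.2 - 1 + 1))
      have e1 : e.2 - 1 + 1 = e.2 := by omega
      rw [e1]
      exact fun h => h4 (h.2 ⟨_, h3.symm⟩)
    · intro e he e' he' r hr hm hm' h
      have h : e.2 - 1 = e'.2 - 1 := h
      have k1 := mD e (Finset.mem_filter.1 he).1
      have k2 := mD e' (Finset.mem_filter.1 he').1
      have h0 : e.2 = e'.2 := by omega
      rw [← h0] at hm'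
      exact Prod.ext (Mt.uniq hp (hR r hr) hm.symm hm'.symm) h0
  have q7 : (Dgs n p R).card ≤ (NE n p R).card + (F1.card + (F2.card + (F3.card + F4.card))) := by
    have hsub : Dgs n p R ⊆ NE n p R ∪ (F1 ∪ (F2 ∪ (F3 ∪ F4))) := by
      intro e he
      have he' := he
      unfold Dgs at he'
      rw [Finset.mem_filter, Finset.mem_product, Finset.mem_range, Finset.mem_range] at he'
      obtain ⟨⟨h1, h2⟩, h4, h5, h6⟩ := he'
      simp only [Finset.mem_union]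
      rcases h6 with h6 | h6 | ⟨r, hr, hm, h6 | h6 | h6 | h6⟩
      · left
        unfold NE
        rw [Finset.mem_filter, Finset.mem_product, Finset.mem_range, Finset.mem_range]
        refine ⟨⟨h1, h2⟩, by omega, fun hc => h6 ?_⟩
        obtain ⟨r, hr⟩ := Finset.card_pos.1 (by rw [hc]; norm_num :
          0 < (R.filter (fun r => Collinear ℝ ({p e.1, p e.2, r} : Set (ℝ × ℝ)))).card)
        rw [Finset.mem_filter] at hr
        exact ⟨r, hr.1, mt_iff.2 ⟨h1, h2, by omega, hr.2⟩⟩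
      · left
        unfold NE
        rw [Finset.mem_filter, Finset.mem_product, Finset.mem_range, Finset.mem_range]
        refine ⟨⟨h1, h2⟩, by omega, fun hc => ?_⟩
        obtain ⟨r, hr, r', hr', hne, hm, hm'⟩ := h6
        obtain ⟨x, hx⟩ := Finset.card_eq_one.1 hc
        have m1 : r ∈ R.filter (fun r => Collinear ℝ ({p e.1, p e.2, r} : Set (ℝ × ℝ))) :=
          Finset.mem_filter.2 ⟨hr, (mt_iff.1 hm).2.2.2⟩
        have m2 : r' ∈ R.filter (fun r => Collinear ℝ ({p e.1, p e.2, r} : Set (ℝ × ℝ))) :=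
          Finset.mem_filter.2 ⟨hr', (mt_iff.1 hm').2.2.2⟩
        rw [hx, Finset.mem_singleton] at m1 m2
        exact hne (m1.trans m2.symm)
      · right; left
        exact Finset.mem_filter.2 ⟨he, r, hr, hm, h6⟩
      · right; right; left
        exact Finset.mem_filter.2 ⟨he, r, hr, hm, h6⟩
      · right; right; right; left
        exact Finset.mem_filter.2 ⟨he, r, hr, hm, h6⟩
      · right; right; right; right
        exact Finset.mem_filter.2 ⟨he, r, hr, hm, h6⟩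
    refine (Finset.card_le_card hsub).trans ?_
    refine (Finset.card_union_le _ _).trans (Nat.add_le_add_left ?_ _)
    refine (Finset.card_union_le _ _).trans (Nat.add_le_add_left ?_ _)
    refine (Finset.card_union_le _ _).trans (Nat.add_le_add_left ?_ _)
    exact Finset.card_union_le _ _
  clear_value F1 F2 F3 F4
  omega

theorem sw_final (K e : ℝ) (hK : 0 ≤ K) (he : 0 < e) : ∃ C N : ℕ, ∀ (n : ℕ) (p : ℕ → ℝ × ℝ)
    (R : Finset (ℝ × ℝ)), N ≤ n → Cvx n p → (∀ r ∈ R, ∀ i < n, r ≠ p i) →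
    (((SwS n p R).card : ℝ) ≤ K * n ∧ ((NE n p R).card : ℝ) ≤ K * n) ∨
      ((R.card : ℝ) ≤ n + K ∧ ((UL n p R).card : ℝ) ≤ K * n) →
    (∃ D : Finset (Finset (ℝ × ℝ)), D.card ≤ C ∧
      (∀ B ∈ D, B ⊆ (Finset.range n).image p ∪ R ∧ OnC B) ∧
      (((Finset.range n ×ˢ Finset.range n).filter (fun e => e.1 < e.2 ∧
        ∀ B ∈ D, ¬ Cg p R B e)).card : ℝ) ≤ e * (n : ℝ) ^ 2) ∧
    (∃ B : Finset (ℝ × ℝ), B ⊆ (Finset.range n).image p ∪ R ∧ OnC B ∧
      n ≤ C * ((Finset.range n).filter (fun i => p i ∈ B)).card ∧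
      n ≤ C * (R.filter (fun r => r ∈ B)).card) := by
  obtain ⟨C, N, h⟩ := gen_core (13 * K + 4) e (by positivity) he
  refine ⟨C, N + 1, fun n p R hn hp hR hor => h n p R (by omega) hp hR ?_⟩
  have n0 : (0 : ℝ) ≤ n := Nat.cast_nonneg _
  rcases hor with ⟨hS, hN⟩ | ⟨hRc, hUc⟩
  · have h1 : ((Dgs n p R).card : ℝ) ≤ ((NE n p R).card : ℝ) + 4 * ((SwS n p R).card : ℝ) := by
      exact_mod_cast dgs_sw n p hp R hR
    have : 0 ≤ K * n := by positivity
    nlinarith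
  · have h1 : ((Dgs n p R).card : ℝ) + 4 * ((n : ℝ) * ((n : ℝ) - 1)) ≤
        4 * ((R.card : ℝ) * n) + 9 * ((UL n p R).card : ℝ) := by
      have e : ((n - 1 : ℕ) : ℝ) = (n : ℝ) - 1 := by
        rw [Nat.cast_sub (by omega)]; simp
      rw [← e]
      exact_mod_cast dgs_card n p hp R hR
    have := mul_le_mul_of_nonneg_left hRc n0
    nlinarith

end MP9b2b.PG
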