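import Pool.Agent.Lib.MP_9b2b7a_co.PG.Gen
import Pool.Agent.Lib.MP_9b2b7a_co.SW.Main

/-! Convex polygons whose lines are pierced by few points: counting, the structure theorem. -/

set_option autoImplicit false
open scoped Classical

namespace MP9b2b.PG

/-- the unpierced lines -/
noncomputable def UL (n : ℕ) (p : ℕ → ℝ × ℝ) (R : Finset (ℝ × ℝ)) : Finset (ℕ × ℕ) :=
  (Finset.range n ×ˢ Finset.range n).filter (fun e => e.1 < e.2 ∧
      ∀ r ∈ R, ¬ Collinear ℝ ({p e.1, p e.2, r} : Set (ℝ × ℝ)))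

/-- bad chords in the range -/
noncomputable def Dgs (n : ℕ) (p : ℕ → ℝ × ℝ) (R : Finset (ℝ × ℝ)) : Finset (ℕ × ℕ) :=
  (Finset.range n ×ˢ Finset.range n).filter (fun e => e.1 + 1 < e.2 ∧ e.2 + 1 < n ∧
    Dg n p R e.1 e.2)

/-- unjoined pairs -/
noncomputable def NJ (n : ℕ) (p : ℕ → ℝ × ℝ) (R : Finset (ℝ × ℝ)) : Finset ((ℝ × ℝ) × ℕ) :=
  (R ×ˢ Finset.range n).filter (fun t => ¬ Jn n p t.1 t.2)

theorem fcount {n : ℕ} {p : ℕ → ℝ × ℝ} {R : Finset (ℝ × ℝ)} (S : Finset (ℕ × ℕ)) (g : ℕ × ℕ → ℕ)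
    (hg : ∀ e ∈ S, ∃ r ∈ R, Mt n p r e.1 e.2 ∧ ¬ Jn n p r (g e) ∧ g e < n)
    (hinj : ∀ e ∈ S, ∀ e' ∈ S, ∀ r ∈ R, Mt n p r e.1 e.2 → Mt n p r e'.1 e'.2 → g e = g e' →
      e = e') : S.card ≤ (NJ n p R).card := by
  have h : ∀ e : ℕ × ℕ, ∃ r, e ∈ S → r ∈ R ∧ Mt n p r e.1 e.2 ∧ ¬ Jn n p r (g e) ∧ g e < n := by
    intro e
    by_cases he : e ∈ S
    · obtain ⟨r, h1, h2⟩ := hg e he
      exact ⟨r, fun _ => ⟨h1, h2⟩⟩
    · exact ⟨(0, 0), fun h => absurd h he⟩
  choose f hf using h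
  apply Finset.card_le_card_of_injOn (fun e => (f e, g e))
  · intro e he
    obtain ⟨h1, h2, h3, h4⟩ := hf e he
    unfold NJ
    rw [Finset.mem_coe, Finset.mem_filter, Finset.mem_product, Finset.mem_range]
    exact ⟨⟨h1, h4⟩, h3⟩
  · intro e he e' he' heq
    have heq : (f e, g e) = (f e', g e') := heq
    rw [Prod.mk.injEq] at heq
    obtain ⟨h1, h2, -⟩ := hf e he
    obtain ⟨-, h2', -⟩ := hf e' he'
    rw [← heq.1] at h2'
    exact hinj e he e' he' _ h1 h2 h2' heq.2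

theorem dgs_card (n : ℕ) (p : ℕ → ℝ × ℝ) (hp : Cvx n p) (R : Finset (ℝ × ℝ))
    (hR : ∀ r ∈ R, ∀ i < n, r ≠ p i) :
    (Dgs n p R).card + 4 * (n * (n - 1)) ≤ 4 * (R.card * n) + 9 * (UL n p R).card := by
  set U := (Finset.range n ×ˢ Finset.range n).filter
      (fun e => e.1 < e.2 ∧ ¬ ∃ r ∈ R, Mt n p r e.1 e.2) with hU
  set PL := (Finset.range n ×ˢ Finset.range n).filter
      (fun e => e.1 < e.2 ∧ ∃ r ∈ R, Mt n p r e.1 e.2) with hPL
  set DL := (Finset.range n ×ˢ Finset.range n).filter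
      (fun e => e.1 < e.2 ∧ ∃ r ∈ R, ∃ r' ∈ R, r ≠ r' ∧ Mt n p r e.1 e.2 ∧
        Mt n p r' e.1 e.2) with hDL
  set JJ := (R ×ˢ Finset.range n).filter (fun t => ∃ k, Mt n p t.1 t.2 k) with hJJ
  have q2 : 2 * PL.card + 2 * DL.card ≤ JJ.card := by
    have g := pierce_card hp R hR
    have g1 : ((Finset.range n ×ˢ Finset.range n).filter
        (fun e => e.1 ≠ e.2 ∧ ∃ r ∈ R, Mt n p r e.1 e.2)).card = 2 * PL.card := by
      rw [hPL]
      convert sym_card n (fun i j => ∃ r ∈ R, Mt n p r i j)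
        (fun i j ⟨r, hr, hm⟩ => ⟨r, hr, hm.symm⟩)
    have g2 : ((Finset.range n ×ˢ Finset.range n).filter
        (fun e => e.1 ≠ e.2 ∧ ∃ r ∈ R, ∃ r' ∈ R, r ≠ r' ∧ Mt n p r e.1 e.2 ∧
          Mt n p r' e.1 e.2)).card = 2 * DL.card := by
      rw [hDL]
      convert sym_card n (fun i j => ∃ r ∈ R, ∃ r' ∈ R, r ≠ r' ∧ Mt n p r i j ∧ Mt n p r' i j)
        (fun i j ⟨r, hr, r', hr', hne, hm, hm'⟩ => ⟨r, hr, r', hr', hne, hm.symm, hm'.symm⟩)
    rw [← g1, ← g2]
    refine le_trans (add_le_add (Finset.card_le_card ?_) (Finset.card_le_card ?_)) g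
    · intro e he
      rw [Finset.mem_filter] at he ⊢
      exact ⟨he.1, he.2.2⟩
    · intro e he
      rw [Finset.mem_filter] at he ⊢
      exact ⟨he.1, he.2.2⟩
  have q3 : 2 * (PL.card + U.card) = n * (n - 1) := by
    rw [← lt_card n]
    have : (Finset.range n ×ˢ Finset.range n).filter (fun e => e.1 < e.2) = PL ∪ U := by
      ext e
      rw [Finset.mem_union, hPL, hU, Finset.mem_filter, Finset.mem_filter, Finset.mem_filter]
      constructor
      · rintro ⟨h1, h2⟩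
        by_cases hh : ∃ r ∈ R, Mt n p r e.1 e.2
        · exact Or.inl ⟨h1, h2, hh⟩
        · exact Or.inr ⟨h1, h2, hh⟩
      · rintro (⟨h1, h2, -⟩ | ⟨h1, h2, -⟩)
        · exact ⟨h1, h2⟩
        · exact ⟨h1, h2⟩
    rw [this, Finset.card_union_of_disjoint]
    rw [Finset.disjoint_left]
    intro e he he'
    rw [hPL, Finset.mem_filter] at he
    rw [hU, Finset.mem_filter] at he'
    exact he'.2.2 he.2.2
  have q4 : JJ.card + (NJ n p R).card = R.card * n := by
    have h1 := Finset.card_filter_add_card_filter_not (s := R ×ˢ Finset.range n)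
      (fun t => Jn n p t.1 t.2)
    rw [Finset.card_product, Finset.card_range] at h1
    have e1 : JJ.card = ((R ×ˢ Finset.range n).filter (fun t => Jn n p t.1 t.2)).card := by
      rw [hJJ]
      congr 1
    rw [e1]
    unfold NJ
    exact h1
  have q5 : U.card ≤ (UL n p R).card := by
    apply Finset.card_le_card
    intro e he
    rw [hU, Finset.mem_filter, Finset.mem_product, Finset.mem_range, Finset.mem_range] at he
    unfold UL
    rw [Finset.mem_filter, Finset.mem_product, Finset.mem_range, Finset.mem_range]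
    obtain ⟨⟨h1, h2⟩, h3', h4⟩ := he
    refine ⟨⟨h1, h2⟩, h3', ?_⟩
    rintro r hr hc
    exact h4 ⟨r, hr, mt_iff.2 ⟨h1, h2, h3'.ne, hc⟩⟩
  set F1 := (Dgs n p R).filter (fun e => ∃ r ∈ R, Mt n p r e.1 e.2 ∧ ¬ Jn n p r (e.1 + 1)) with hF1
  set F2 := (Dgs n p R).filter (fun e => ∃ r ∈ R, Mt n p r e.1 e.2 ∧ ¬ Jn n p r (e.1 - 1)) with hF2
  set F3 := (Dgs n p R).filter (fun e => ∃ r ∈ R, Mt n p r e.1 e.2 ∧ ¬ Jn n p r (e.2 + 1)) with hF3
  set F4 := (Dgs n p R).filter (fun e => ∃ r ∈ R, Mt n p r e.1 e.2 ∧ ¬ Jn n p r (e.2 - 1)) with hF4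
  have mD : ∀ e ∈ Dgs n p R, e.1 < n ∧ e.2 < n ∧ e.1 + 1 < e.2 ∧ e.2 + 1 < n := by
    intro e he
    unfold Dgs at he
    rw [Finset.mem_filter, Finset.mem_product, Finset.mem_range, Finset.mem_range] at he
    exact ⟨he.1.1, he.1.2, he.2.1, he.2.2.1⟩
  have c1 : F1.card ≤ (NJ n p R).card := by
    refine fcount F1 (fun e => e.1 + 1) ?_ ?_
    · intro e he
      rw [hF1, Finset.mem_filter] at he
      obtain ⟨h1, r, h2, h3, h4⟩ := he
      have := mD e h1
      exact ⟨r, h2, h3, h4, by show e.1 + 1 < n; omega⟩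
    · intro e he e' he' r hr hm hm' h
      have h : e.1 + 1 = e'.1 + 1 := h
      have h0 : e.1 = e'.1 := by omega
      rw [← h0] at hm'
      exact Prod.ext h0 (Mt.uniq hp (hR r hr) hm hm')
  have c2 : F2.card ≤ (NJ n p R).card := by
    refine fcount F2 (fun e => e.1 - 1) ?_ ?_
    · intro e he
      rw [hF2, Finset.mem_filter] at he
      obtain ⟨h1, r, h2, h3, h4⟩ := he
      have := mD e h1
      exact ⟨r, h2, h3, h4, by show e.1 - 1 < n; omega⟩
    · intro e he e' he' r hr hm hm' h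
      have h : e.1 - 1 = e'.1 - 1 := h
      have key : ∀ e ∈ F2, 1 ≤ e.1 := by
        intro e he
        rw [hF2, Finset.mem_filter] at he
        obtain ⟨h1, r, h2, h3, h4⟩ := he
        by_contra h0
        have h00 : e.1 = 0 := by omega
        apply h4
        rw [h00] at h3 ⊢
        exact ⟨_, h3⟩
      have k1 := key e he
      have k2 := key e' he'
      have h0 : e.1 = e'.1 := by omega
      rw [← h0] at hm'
      exact Prod.ext h0 (Mt.uniq hp (hR r hr) hm hm')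
  have c3 : F3.card ≤ (NJ n p R).card := by
    refine fcount F3 (fun e => e.2 + 1) ?_ ?_
    · intro e he
      rw [hF3, Finset.mem_filter] at he
      obtain ⟨h1, r, h2, h3, h4⟩ := he
      have := mD e h1
      exact ⟨r, h2, h3, h4, by show e.2 + 1 < n; omega⟩
    · intro e he e' he' r hr hm hm' h
      have h : e.2 + 1 = e'.2 + 1 := h
      have h0 : e.2 = e'.2 := by omega
      rw [← h0] at hm'
      exact Prod.ext (Mt.uniq hp (hR r hr) hm.symm hm'.symm) h0
  have c4 : F4.card ≤ (NJ n p R).card := by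
    refine fcount F4 (fun e => e.2 - 1) ?_ ?_
    · intro e he
      rw [hF4, Finset.mem_filter] at he
      obtain ⟨h1, r, h2, h3, h4⟩ := he
      have := mD e h1
      exact ⟨r, h2, h3, h4, by show e.2 - 1 < n; omega⟩
    · intro e he e' he' r hr hm hm' h
      have h : e.2 - 1 = e'.2 - 1 := h
      have k1 := mD e (Finset.mem_filter.1 he).1
      have k2 := mD e' (Finset.mem_filter.1 he').1
      have h0 : e.2 = e'.2 := by omega
      rw [← h0] at hm'
      exact Prod.ext (Mt.uniq hp (hR r hr) hm.symm hm'.symm) h0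
  have q7 : (Dgs n p R).card ≤ U.card + (DL.card + (F1.card + (F2.card + (F3.card + F4.card)))) := by
    have hsub : Dgs n p R ⊆ U ∪ (DL ∪ (F1 ∪ (F2 ∪ (F3 ∪ F4)))) := by
      intro e he
      have he' := he
      unfold Dgs at he'
      rw [Finset.mem_filter, Finset.mem_product, Finset.mem_range, Finset.mem_range] at he'
      obtain ⟨⟨h1, h2⟩, h4, h5, h6⟩ := he'
      simp only [Finset.mem_union]
      rcases h6 with h6 | h6 | ⟨r, hr, hm, h6 | h6 | h6 | h6⟩
      · left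
        rw [hU, Finset.mem_filter, Finset.mem_product, Finset.mem_range, Finset.mem_range]
        exact ⟨⟨h1, h2⟩, by omega, h6⟩
      · right; left
        rw [hDL, Finset.mem_filter, Finset.mem_product, Finset.mem_range, Finset.mem_range]
        exact ⟨⟨h1, h2⟩, by omega, h6⟩
      · right; right; left
        exact Finset.mem_filter.2 ⟨he, r, hr, hm, h6⟩
      · right; right; right; left
        exact Finset.mem_filter.2 ⟨he, r, hr, hm, h6⟩
      · right; right; right; right; left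
        exact Finset.mem_filter.2 ⟨he, r, hr, hm, h6⟩
      · right; right; right; right; right
        exact Finset.mem_filter.2 ⟨he, r, hr, hm, h6⟩
    refine (Finset.card_le_card hsub).trans ?_
    refine (Finset.card_union_le _ _).trans (Nat.add_le_add_left ?_ _)
    refine (Finset.card_union_le _ _).trans (Nat.add_le_add_left ?_ _)
    refine (Finset.card_union_le _ _).trans (Nat.add_le_add_left ?_ _)
    refine (Finset.card_union_le _ _).trans (Nat.add_le_add_left ?_ _)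
    exact Finset.card_union_le _ _
  clear_value F1 F2 F3 F4 U PL DL JJ
  omega

/-- a window without bad chords -/
def WC (n : ℕ) (p : ℕ → ℝ × ℝ) (R : Finset (ℝ × ℝ)) (X Y : ℕ) : Prop :=
  ∀ s ≤ 8, ∀ t ≤ 8, ¬ Dg n p R (X + s) (Y + t)

/-- good windows of a class -/
noncomputable def Gc (n : ℕ) (p : ℕ → ℝ × ℝ) (R : Finset (ℝ × ℝ)) (u v : ℕ) : Finset (ℕ × ℕ) :=
  (Finset.range n ×ˢ Finset.range n).filter (fun c => (2 * c.1 + u + 9 < 2 * c.2 + v ∧
    2 * c.2 + v + 9 < n) ∧ WC n p R (2 * c.1 + u) (2 * c.2 + v))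

/-- bad windows of a class -/
noncomputable def Bc (n : ℕ) (p : ℕ → ℝ × ℝ) (R : Finset (ℝ × ℝ)) (u v : ℕ) : Finset (ℕ × ℕ) :=
  (Finset.range n ×ˢ Finset.range n).filter (fun c => (2 * c.1 + u + 9 < 2 * c.2 + v ∧
    2 * c.2 + v + 9 < n) ∧ ¬ WC n p R (2 * c.1 + u) (2 * c.2 + v))

theorem mem_Gc {n : ℕ} {p : ℕ → ℝ × ℝ} {R : Finset (ℝ × ℝ)} {u v : ℕ} {c : ℕ × ℕ} :
    c ∈ Gc n p R u v ↔ (2 * c.1 + u + 9 < 2 * c.2 + v ∧ 2 * c.2 + v + 9 < n) ∧
      WC n p R (2 * c.1 + u) (2 * c.2 + v) := by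
  unfold Gc
  rw [Finset.mem_filter, Finset.mem_product, Finset.mem_range, Finset.mem_range]
  constructor
  · rintro ⟨-, h⟩
    exact h
  · rintro ⟨⟨h1, h2⟩, h3⟩
    exact ⟨⟨by omega, by omega⟩, ⟨h1, h2⟩, h3⟩

theorem mem_Bc {n : ℕ} {p : ℕ → ℝ × ℝ} {R : Finset (ℝ × ℝ)} {u v : ℕ} {c : ℕ × ℕ} :
    c ∈ Bc n p R u v ↔ (2 * c.1 + u + 9 < 2 * c.2 + v ∧ 2 * c.2 + v + 9 < n) ∧
      ¬ WC n p R (2 * c.1 + u) (2 * c.2 + v) := by
  unfold Bc
  rw [Finset.mem_filter, Finset.mem_product, Finset.mem_range, Finset.mem_range]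
  constructor
  · rintro ⟨-, h⟩
    exact h
  · rintro ⟨⟨h1, h2⟩, h3⟩
    exact ⟨⟨by omega, by omega⟩, ⟨h1, h2⟩, h3⟩

theorem bc_card (n : ℕ) (p : ℕ → ℝ × ℝ) (R : Finset (ℝ × ℝ)) (u v : ℕ) :
    (Bc n p R u v).card ≤ 81 * (Dgs n p R).card := by
  have hsub : Bc n p R u v ⊆ (Finset.range 9 ×ˢ Finset.range 9).biUnion (fun st =>
      (Bc n p R u v).filter (fun c => Dg n p R (2 * c.1 + u + st.1) (2 * c.2 + v + st.2))) := by
    intro c hc
    have h2 := (mem_Bc.1 hc).2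
    unfold WC at h2
    push Not at h2
    obtain ⟨s, hs, t, ht, h4⟩ := h2
    rw [Finset.mem_biUnion]
    refine ⟨(s, t), ?_, Finset.mem_filter.2 ⟨hc, h4⟩⟩
    rw [Finset.mem_product, Finset.mem_range, Finset.mem_range]
    exact ⟨by show s < 9; omega, by show t < 9; omega⟩
  refine (Finset.card_le_card hsub).trans ?_
  have := Finset.card_biUnion_le_card_mul (Finset.range 9 ×ˢ Finset.range 9) (fun st =>
      (Bc n p R u v).filter (fun c => Dg n p R (2 * c.1 + u + st.1) (2 * c.2 + v + st.2)))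
      (Dgs n p R).card (by
    intro st hst
    rw [Finset.mem_product, Finset.mem_range, Finset.mem_range] at hst
    apply Finset.card_le_card_of_injOn (fun c => (2 * c.1 + u + st.1, 2 * c.2 + v + st.2))
    · intro c hc
      rw [Finset.mem_coe, Finset.mem_filter, mem_Bc] at hc
      rw [Finset.mem_coe]
      unfold Dgs
      rw [Finset.mem_filter, Finset.mem_product, Finset.mem_range, Finset.mem_range]
      obtain ⟨⟨⟨h1, h2⟩, -⟩, h3⟩ := hc
      refine ⟨⟨?_, ?_⟩, ?_, ?_, h3⟩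
      · show 2 * c.1 + u + st.1 < n; omega
      · show 2 * c.2 + v + st.2 < n; omega
      · show 2 * c.1 + u + st.1 + 1 < 2 * c.2 + v + st.2; omega
      · show 2 * c.2 + v + st.2 + 1 < n; omega
    · intro c _ c' _ h
      rw [Prod.mk.injEq] at h
      exact Prod.ext (by omega) (by omega))
  rw [Finset.card_product, Finset.card_range] at this
  exact this

theorem E1_gc (n : ℕ) (p : ℕ → ℝ × ℝ) (R : Finset (ℝ × ℝ)) (u v : ℕ) :
    (E1 (Gc n p R u v)).card ≤ 81 * (Dgs n p R).card + n := by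
  have hsub : E1 (Gc n p R u v) ⊆
      (Gc n p R u v).filter (fun c => (c.1, c.2 + 1) ∈ Bc n p R u v) ∪
      (Gc n p R u v).filter (fun c => n ≤ 2 * c.2 + v + 11) := by
    intro c hc
    unfold E1 at hc
    rw [Finset.mem_filter] at hc
    rw [Finset.mem_union, Finset.mem_filter, Finset.mem_filter]
    by_cases h : n ≤ 2 * c.2 + v + 11
    · exact Or.inr ⟨hc.1, h⟩
    · left
      refine ⟨hc.1, mem_Bc.2 ?_⟩
      have h1 := (mem_Gc.1 hc.1).1
      have h2 := hc.2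
      rw [mem_Gc] at h2
      simp only at h2 ⊢
      refine ⟨⟨by omega, by omega⟩, fun hw => h2 ⟨⟨by omega, by omega⟩, hw⟩⟩
  have h1 : ((Gc n p R u v).filter (fun c => (c.1, c.2 + 1) ∈ Bc n p R u v)).card ≤
      (Bc n p R u v).card := by
    apply Finset.card_le_card_of_injOn (fun c => (c.1, c.2 + 1))
    · intro c hc
      exact (Finset.mem_filter.1 hc).2
    · intro c _ c' _ h
      rw [Prod.mk.injEq] at h
      exact Prod.ext h.1 (by omega)
  have h2 : ((Gc n p R u v).filter (fun c => n ≤ 2 * c.2 + v + 11)).card ≤ (Finset.range n).card := by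
    apply Finset.card_le_card_of_injOn (fun c => c.1)
    · intro c hc
      rw [Finset.mem_coe, Finset.mem_filter] at hc
      have := (mem_Gc.1 hc.1).1
      rw [Finset.mem_coe, Finset.mem_range]
      show c.1 < n
      omega
    · intro c hc c' hc' h
      rw [Finset.mem_coe, Finset.mem_filter] at hc hc'
      have k1 := (mem_Gc.1 hc.1).1
      have k2 := (mem_Gc.1 hc'.1).1
      exact Prod.ext h (by omega)
  rw [Finset.card_range] at h2
  have h3 := (Finset.card_le_card hsub).trans (Finset.card_union_le _ _)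
  have h4 := bc_card n p R u v
  omega

theorem E2_gc (n : ℕ) (p : ℕ → ℝ × ℝ) (R : Finset (ℝ × ℝ)) (u v : ℕ) :
    (E2 (Gc n p R u v)).card ≤ 81 * (Dgs n p R).card + n := by
  have hsub : E2 (Gc n p R u v) ⊆
      (Gc n p R u v).filter (fun c => (c.1 + 1, c.2) ∈ Bc n p R u v) ∪
      (Gc n p R u v).filter (fun c => 2 * c.2 + v ≤ 2 * c.1 + u + 11) := by
    intro c hc
    unfold E2 at hc
    rw [Finset.mem_filter] at hc
    rw [Finset.mem_union, Finset.mem_filter, Finset.mem_filter]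
    by_cases h : 2 * c.2 + v ≤ 2 * c.1 + u + 11
    · exact Or.inr ⟨hc.1, h⟩
    · left
      refine ⟨hc.1, mem_Bc.2 ?_⟩
      have h1 := (mem_Gc.1 hc.1).1
      have h2 := hc.2
      rw [mem_Gc] at h2
      simp only at h2 ⊢
      refine ⟨⟨by omega, by omega⟩, fun hw => h2 ⟨⟨by omega, by omega⟩, hw⟩⟩
  have h1 : ((Gc n p R u v).filter (fun c => (c.1 + 1, c.2) ∈ Bc n p R u v)).card ≤
      (Bc n p R u v).card := by
    apply Finset.card_le_card_of_injOn (fun c => (c.1 + 1, c.2))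
    · intro c hc
      exact (Finset.mem_filter.1 hc).2
    · intro c _ c' _ h
      rw [Prod.mk.injEq] at h
      exact Prod.ext (by omega) h.2
  have h2 : ((Gc n p R u v).filter (fun c => 2 * c.2 + v ≤ 2 * c.1 + u + 11)).card ≤
      (Finset.range n).card := by
    apply Finset.card_le_card_of_injOn (fun c => c.1)
    · intro c hc
      rw [Finset.mem_coe, Finset.mem_filter] at hc
      have := (mem_Gc.1 hc.1).1
      rw [Finset.mem_coe, Finset.mem_range]
      show c.1 < n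
      omega
    · intro c hc c' hc' h
      rw [Finset.mem_coe, Finset.mem_filter] at hc hc'
      have k1 := (mem_Gc.1 hc.1).1
      have k2 := (mem_Gc.1 hc'.1).1
      have h : c.1 = c'.1 := h
      exact Prod.ext h (by omega)
  rw [Finset.card_range] at h2
  have h3 := (Finset.card_le_card hsub).trans (Finset.card_union_le _ _)
  have h4 := bc_card n p R u v
  omega

/-- chords that are not the centre of a window -/
theorem edge_card' (n : ℕ) : ((Finset.range n ×ˢ Finset.range n).filter (fun e => e.1 < e.2 ∧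
    ¬ (4 ≤ e.1 ∧ e.1 + 9 < e.2 ∧ e.2 + 5 < n))).card ≤ 18 * n := by
  have hsub : (Finset.range n ×ˢ Finset.range n).filter (fun e => e.1 < e.2 ∧
      ¬ (4 ≤ e.1 ∧ e.1 + 9 < e.2 ∧ e.2 + 5 < n)) ⊆
      (Finset.range 4 ×ˢ Finset.range n) ∪
      (((Finset.range n ×ˢ Finset.range 9).image (fun t => (t.1, t.1 + 1 + t.2))) ∪
      ((Finset.range n ×ˢ Finset.range 5).image (fun t => (t.1, n - 1 - t.2)))) := by
    intro e he
    rw [Finset.mem_filter, Finset.mem_product, Finset.mem_range, Finset.mem_range] at he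
    obtain ⟨⟨h1, h2⟩, h3, h4⟩ := he
    rw [Finset.mem_union, Finset.mem_union, Finset.mem_product, Finset.mem_range, Finset.mem_range,
      Finset.mem_image, Finset.mem_image]
    by_cases c1 : e.1 < 4
    · exact Or.inl ⟨c1, h2⟩
    · right
      by_cases c2 : e.1 + 9 < e.2
      · right
        refine ⟨(e.1, n - 1 - e.2), ?_, ?_⟩
        · rw [Finset.mem_product, Finset.mem_range, Finset.mem_range]
          exact ⟨h1, by show n - 1 - e.2 < 5; omega⟩
        · exact Prod.ext rfl (by show n - 1 - (n - 1 - e.2) = e.2; omega)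
      · left
        refine ⟨(e.1, e.2 - e.1 - 1), ?_, ?_⟩
        · rw [Finset.mem_product, Finset.mem_range, Finset.mem_range]
          exact ⟨h1, by show e.2 - e.1 - 1 < 9; omega⟩
        · exact Prod.ext rfl (by show e.1 + 1 + (e.2 - e.1 - 1) = e.2; omega)
  refine (Finset.card_le_card hsub).trans ?_
  have a1 := Finset.card_union_le (Finset.range 4 ×ˢ Finset.range n)
    (((Finset.range n ×ˢ Finset.range 9).image (fun t => (t.1, t.1 + 1 + t.2))) ∪
      ((Finset.range n ×ˢ Finset.range 5).image (fun t => (t.1, n - 1 - t.2))))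
  have a2 := Finset.card_union_le ((Finset.range n ×ˢ Finset.range 9).image (fun t => (t.1, t.1 + 1 + t.2)))
      ((Finset.range n ×ˢ Finset.range 5).image (fun t => (t.1, n - 1 - t.2)))
  have a3 : ((Finset.range n ×ˢ Finset.range 9).image (fun t => (t.1, t.1 + 1 + t.2))).card ≤
    (Finset.range n ×ˢ Finset.range 9).card := Finset.card_image_le
  have a4 : ((Finset.range n ×ˢ Finset.range 5).image (fun t => (t.1, n - 1 - t.2))).card ≤
    (Finset.range n ×ˢ Finset.range 5).card := Finset.card_image_le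
  rw [Finset.card_product, Finset.card_range, Finset.card_range] at a3 a4
  have a5 : (Finset.range 4 ×ˢ Finset.range n).card = 4 * n := by
    rw [Finset.card_product, Finset.card_range, Finset.card_range]
  omega

/-- a chord and a point on its line in a set -/
def Cg (p : ℕ → ℝ × ℝ) (R B : Finset (ℝ × ℝ)) (e : ℕ × ℕ) : Prop :=
  p e.1 ∈ B ∧ p e.2 ∈ B ∧ ∃ r ∈ R, r ∈ B ∧ Collinear ℝ ({p e.1, p e.2, r} : Set (ℝ × ℝ))

/-- one class -/
theorem class_thm0 {n : ℕ} {p : ℕ → ℝ × ℝ} {R : Finset (ℝ × ℝ)} {ρ : ℕ → ℕ → ℝ × ℝ} {ε : ℝ}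
    (D : Da n p R ρ ε) (u v : ℕ) (t b : ℝ) (ht : 0 < t) (hb1 : ((E1 (Gc n p R u v)).card : ℝ) ≤ b)
    (hb2 : ((E2 (Gc n p R u v)).card : ℝ) ≤ b) :
    ∃ F : Finset (Finset (ℝ × ℝ)), (∀ B ∈ F, B ⊆ (Finset.range n).image p ∪ R ∧ OnC B) ∧
      (F.card : ℝ) * t ≤ b ∧
      (((Gc n p R u v).filter (fun c => ∀ B ∈ F,
        ¬ Cg p R B (2 * c.1 + u + 4, 2 * c.2 + v + 4))).card : ℝ) ≤ t * b := by
  obtain ⟨Big, hBig, hB1, hB2⟩ := comps (Gc n p R u v) t ht
  have hpoly : ∀ c : ℕ × ℕ, ∃ P : MvPolynomial (Fin 2) ℝ, P ≠ 0 ∧ P.totalDegree ≤ 3 ∧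
      (c ∈ Gc n p R u v → BK p ρ P (2 * c.1 + u) (2 * c.2 + v)) := by
    intro c
    by_cases hc : c ∈ Gc n p R u v
    · obtain ⟨⟨a1, a2⟩, a3⟩ := mem_Gc.1 hc
      have H : Rg n p R (2 * c.1 + u) (2 * c.1 + u + 8) (2 * c.2 + v) (2 * c.2 + v + 8) := by
        refine ⟨?_, by omega, by omega⟩
        intro a b c1 c2 c3 c4
        have := a3 (a - (2 * c.1 + u)) (by omega) (b - (2 * c.2 + v)) (by omega)
        have e1 : 2 * c.1 + u + (a - (2 * c.1 + u)) = a := by omega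
        have e2 : 2 * c.2 + v + (b - (2 * c.2 + v)) = b := by omega
        rwa [e1, e2] at this
      obtain ⟨P, h1, h2, h4⟩ := D.g0 H
      exact ⟨P, h1, h2, fun _ => h4⟩
    · exact ⟨1, one_ne_zero, by simp, fun h => absurd h hc⟩
  choose Pf hP0 hPd hPB using hpoly
  set A := (Finset.range n).image p ∪ R with hA
  set Bf : ℕ × ℕ → Finset (ℝ × ℝ) := fun c => A.filter (fun q => Zz (Pf c) q) with hBf
  have hreach : ∀ c ∈ Big, ∀ d, Relation.ReflTransGen (Ad (Gc n p R u v)) c d →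
      BK p ρ (Pf c) (2 * d.1 + u) (2 * d.2 + v) := by
    intro c hc d hd
    refine along (G := Gc n p R u v)
      (fun d => BK p ρ (Pf c) (2 * d.1 + u) (2 * d.2 + v)) ?_ ?_ hd (hPB c (hBig hc))
    · intro x y h1 h2
      obtain ⟨⟨a1, a2⟩, a3⟩ := mem_Gc.1 h1
      obtain ⟨⟨b1, b2⟩, b3⟩ := mem_Gc.1 h2
      simp only at a1 a2 a3 b1 b2 b3
      have H : Rg n p R (2 * x + u) (2 * x + u + 10) (2 * y + v) (2 * y + v + 8) := by
        refine ⟨?_, by omega, by omega⟩
        intro a b c1 c2 c3 c4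
        by_cases h : a ≤ 2 * x + u + 8
        · have := a3 (a - (2 * x + u)) (by omega) (b - (2 * y + v)) (by omega)
          have e1 : 2 * x + u + (a - (2 * x + u)) = a := by omega
          have e2 : 2 * y + v + (b - (2 * y + v)) = b := by omega
          rwa [e1, e2] at this
        · have := b3 (a - (2 * (x + 1) + u)) (by omega) (b - (2 * y + v)) (by omega)
          have e1 : 2 * (x + 1) + u + (a - (2 * (x + 1) + u)) = a := by omega
          have e2 : 2 * y + v + (b - (2 * y + v)) = b := by omega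
          rwa [e1, e2] at this
      have e3 : 2 * (x + 1) + u = 2 * x + u + 2 := by ring
      show BK p ρ (Pf c) (2 * x + u) (2 * y + v) ↔ BK p ρ (Pf c) (2 * (x + 1) + u) (2 * y + v)
      rw [e3]
      exact D.gx H (hPd c)
    · intro x y h1 h2
      obtain ⟨⟨a1, a2⟩, a3⟩ := mem_Gc.1 h1
      obtain ⟨⟨b1, b2⟩, b3⟩ := mem_Gc.1 h2
      simp only at a1 a2 a3 b1 b2 b3
      have H : Rg n p R (2 * x + u) (2 * x + u + 8) (2 * y + v) (2 * y + v + 10) := by
        refine ⟨?_, by omega, by omega⟩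
        intro a b c1 c2 c3 c4
        by_cases h : b ≤ 2 * y + v + 8
        · have := a3 (a - (2 * x + u)) (by omega) (b - (2 * y + v)) (by omega)
          have e1 : 2 * x + u + (a - (2 * x + u)) = a := by omega
          have e2 : 2 * y + v + (b - (2 * y + v)) = b := by omega
          rwa [e1, e2] at this
        · have := b3 (a - (2 * x + u)) (by omega) (b - (2 * (y + 1) + v)) (by omega)
          have e1 : 2 * x + u + (a - (2 * x + u)) = a := by omega
          have e2 : 2 * (y + 1) + v + (b - (2 * (y + 1) + v)) = b := by omega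
          rwa [e1, e2] at this
      have e3 : 2 * (y + 1) + v = 2 * y + v + 2 := by ring
      show BK p ρ (Pf c) (2 * x + u) (2 * y + v) ↔ BK p ρ (Pf c) (2 * x + u) (2 * (y + 1) + v)
      rw [e3]
      exact D.gy H (hPd c)
  refine ⟨Big.image Bf, ?_, ?_, ?_⟩
  · intro B hB
    rw [Finset.mem_image] at hB
    obtain ⟨c, -, rfl⟩ := hB
    exact ⟨Finset.filter_subset _ _, Pf c, hP0 c, hPd c, fun x hx => (Finset.mem_filter.1 hx).2⟩
  · have k1 : ((Big.image Bf).card : ℝ) ≤ (Big.card : ℝ) := by exact_mod_cast Finset.card_image_le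
    have k2 := mul_le_mul_of_nonneg_right k1 ht.le
    have k3 := hb1
    linarith
  · have k3 := hb2
    have k4 : (((Gc n p R u v).filter (fun c => ∀ B ∈ Big.image Bf,
        ¬ Cg p R B (2 * c.1 + u + 4, 2 * c.2 + v + 4))).card : ℝ) ≤
        (((Gc n p R u v).filter (fun c => ∀ b ∈ Big,
          ¬ Relation.ReflTransGen (Ad (Gc n p R u v)) b c)).card : ℝ) := by
      have : ((Gc n p R u v).filter (fun c => ∀ B ∈ Big.image Bf,
        ¬ Cg p R B (2 * c.1 + u + 4, 2 * c.2 + v + 4))).card ≤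
        ((Gc n p R u v).filter (fun c => ∀ b ∈ Big,
          ¬ Relation.ReflTransGen (Ad (Gc n p R u v)) b c)).card := by
        apply Finset.card_le_card
        intro c hc
        rw [Finset.mem_filter] at hc ⊢
        refine ⟨hc.1, ?_⟩
        intro b hb hr
        apply hc.2 (Bf b) (Finset.mem_image_of_mem _ hb)
        have hblk := hreach b hb _ hr
        obtain ⟨⟨a1, a2⟩, a3⟩ := mem_Gc.1 hc.1
        have v1 := hblk.l 2 (by norm_num) (by norm_num)
        have v2 := hblk.r 2 (by norm_num) (by norm_num)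
        have v3 := hblk.c 2 2 (by norm_num) (by norm_num) (by norm_num) (by norm_num)
        have hnd := a3 4 (by norm_num) 4 (by norm_num)
        obtain ⟨m1, m2⟩ := D.hm _ _ hnd
        refine ⟨?_, ?_, ρ (2 * c.1 + u + 4) (2 * c.2 + v + 4), m1, ?_, ?_⟩
        · rw [hBf, Finset.mem_filter]
          exact ⟨Finset.mem_union_left _ (Finset.mem_image_of_mem _ (Finset.mem_range.2
            (by omega))), v1⟩
        · rw [hBf, Finset.mem_filter]
          exact ⟨Finset.mem_union_left _ (Finset.mem_image_of_mem _ (Finset.mem_range.2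
            (by omega))), v2⟩
        · rw [hBf, Finset.mem_filter]
          exact ⟨Finset.mem_union_right _ m1, v3⟩
        · exact (mt_iff.1 m2).2.2.2
      exact_mod_cast this
    have k5 := mul_le_mul_of_nonneg_left k3 ht.le
    linarith

/-- one class -/
theorem class_thm {n : ℕ} {p : ℕ → ℝ × ℝ} {R : Finset (ℝ × ℝ)} {ρ : ℕ → ℕ → ℝ × ℝ} {ε : ℝ}
    (D : Da n p R ρ ε) (u v : ℕ) (t : ℝ) (ht : 0 < t) :
    ∃ F : Finset (Finset (ℝ × ℝ)), (∀ B ∈ F, B ⊆ (Finset.range n).image p ∪ R ∧ OnC B) ∧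
      (F.card : ℝ) * t ≤ 81 * ((Dgs n p R).card : ℝ) + n ∧
      (((Gc n p R u v).filter (fun c => ∀ B ∈ F,
        ¬ Cg p R B (2 * c.1 + u + 4, 2 * c.2 + v + 4))).card : ℝ) ≤
        t * (81 * ((Dgs n p R).card : ℝ) + n) :=
  class_thm0 D u v t _ ht (by exact_mod_cast E1_gc n p R u v) (by exact_mod_cast E2_gc n p R u v)

theorem gen_struct0 (n : ℕ) (p : ℕ → ℝ × ℝ) (h3 : 3 ≤ n) (hp : Cvx n p) (R : Finset (ℝ × ℝ))
    (hR : ∀ r ∈ R, ∀ i < n, r ≠ p i) (t M : ℝ) (ht : 0 < t)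
    (hM : 324 * ((Dgs n p R).card : ℝ) + 18 * n ≤ M) :
    ∃ F : Finset (Finset (ℝ × ℝ)), (∀ B ∈ F, B ⊆ (Finset.range n).image p ∪ R ∧ OnC B) ∧
      (F.card : ℝ) * t ≤ M ∧
      (((Finset.range n ×ˢ Finset.range n).filter (fun e => e.1 < e.2 ∧
        ∀ B ∈ F, ¬ Cg p R B e)).card : ℝ) ≤ (1 + t) * M := by
  obtain ⟨ε, hε⟩ := exists_eps ((Finset.range n).image p)
  have hρ : ∀ e : ℕ × ℕ, ∃ r, ¬ Dg n p R e.1 e.2 → r ∈ R ∧ Mt n p r e.1 e.2 := by
    intro e
    by_cases h : Dg n p R e.1 e.2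
    · exact ⟨(0, 0), fun h' => absurd h h'⟩
    · have h' : ∃ r ∈ R, Mt n p r e.1 e.2 := by
        by_contra hc
        exact h (Or.inl hc)
      obtain ⟨r, h1, h2⟩ := h'
      exact ⟨r, fun _ => ⟨h1, h2⟩⟩
  choose ρ0 hρ0 using hρ
  have D : Da n p R (fun a b => ρ0 (a, b)) ε :=
    ⟨h3, hp, hR, fun a b h => hρ0 (a, b) h,
      fun i hi j hj hij he => hij (p_inj hp h3 hi hj (hε _
        (Finset.mem_image_of_mem _ (Finset.mem_range.2 hi)) _
        (Finset.mem_image_of_mem _ (Finset.mem_range.2 hj)) he))⟩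
  have hcl := fun uv : ℕ × ℕ => class_thm D uv.1 uv.2 t ht
  choose Ff hF1 hF2 hF3 using hcl
  set Δ : ℝ := ((Dgs n p R).card : ℝ) with hΔ
  have hn0 : (0 : ℝ) ≤ n := Nat.cast_nonneg _
  have hM1 : 324 * Δ + 18 * n ≤ M := hM
  set Q := Finset.range 2 ×ˢ Finset.range 2 with hQ
  have hQc : Q.card = 4 := by rw [hQ]; rfl
  have hQr : (Q.card : ℝ) = 4 := by rw [hQc]; norm_num
  refine ⟨Q.biUnion Ff, ?_, ?_, ?_⟩
  · intro B hB
    rw [Finset.mem_biUnion] at hB
    obtain ⟨uv, -, hB⟩ := hB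
    exact hF1 uv B hB
  · have k1 : ((Q.biUnion Ff).card : ℝ) ≤ ∑ uv ∈ Q, ((Ff uv).card : ℝ) := by
      exact_mod_cast Finset.card_biUnion_le
    have k2 := mul_le_mul_of_nonneg_right k1 ht.le
    rw [Finset.sum_mul] at k2
    have k3 : ∑ uv ∈ Q, ((Ff uv).card : ℝ) * t ≤ ∑ uv ∈ Q, (81 * Δ + n) :=
      Finset.sum_le_sum (fun uv _ => hF2 uv)
    rw [Finset.sum_const, nsmul_eq_mul, hQr] at k3
    linarith
  · have hsub : (Finset.range n ×ˢ Finset.range n).filter (fun e => e.1 < e.2 ∧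
        ∀ B ∈ Q.biUnion Ff, ¬ Cg p R B e) ⊆
        ((Finset.range n ×ˢ Finset.range n).filter (fun e => e.1 < e.2 ∧
        ¬ (4 ≤ e.1 ∧ e.1 + 9 < e.2 ∧ e.2 + 5 < n))) ∪
        ((Q.biUnion (fun uv => (Bc n p R uv.1 uv.2).image
          (fun c => (2 * c.1 + uv.1 + 4, 2 * c.2 + uv.2 + 4)))) ∪
        (Q.biUnion (fun uv => ((Gc n p R uv.1 uv.2).filter (fun c => ∀ B ∈ Ff uv,
        ¬ Cg p R B (2 * c.1 + uv.1 + 4, 2 * c.2 + uv.2 + 4))).image
          (fun c => (2 * c.1 + uv.1 + 4, 2 * c.2 + uv.2 + 4))))) := by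
      intro e he
      rw [Finset.mem_filter] at he
      obtain ⟨he1, he2, he3⟩ := he
      rw [Finset.mem_union, Finset.mem_union, Finset.mem_filter, Finset.mem_biUnion,
        Finset.mem_biUnion]
      by_cases c1 : 4 ≤ e.1 ∧ e.1 + 9 < e.2 ∧ e.2 + 5 < n
      · right
        obtain ⟨c1, c2, c3⟩ := c1
        set u := (e.1 - 4) % 2 with hu
        set v := (e.2 - 4) % 2 with hv
        have huv : (u, v) ∈ Q := by
          rw [hQ, Finset.mem_product, Finset.mem_range, Finset.mem_range]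
          exact ⟨by show u < 2; omega, by show v < 2; omega⟩
        have e1 : 2 * ((e.1 - 4) / 2) + u + 4 = e.1 := by omega
        have e2 : 2 * ((e.2 - 4) / 2) + v + 4 = e.2 := by omega
        have hee : (2 * ((e.1 - 4) / 2) + u + 4, 2 * ((e.2 - 4) / 2) + v + 4) = e :=
          Prod.ext e1 e2
        by_cases hG : WC n p R (2 * ((e.1 - 4) / 2) + u) (2 * ((e.2 - 4) / 2) + v)
        · right
          refine ⟨(u, v), huv, ?_⟩
          rw [Finset.mem_image]
          refine ⟨((e.1 - 4) / 2, (e.2 - 4) / 2), ?_, hee⟩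
          rw [Finset.mem_filter]
          refine ⟨mem_Gc.2 ⟨⟨by show 2 * ((e.1 - 4) / 2) + u + 9 < 2 * ((e.2 - 4) / 2) + v; omega,
            by show 2 * ((e.2 - 4) / 2) + v + 9 < n; omega⟩, hG⟩, ?_⟩
          intro B hB hcov
          apply he3 B (Finset.mem_biUnion.2 ⟨(u, v), huv, hB⟩)
          simp only at hcov
          rw [hee] at hcov
          exact hcov
        · left
          refine ⟨(u, v), huv, ?_⟩
          rw [Finset.mem_image]
          refine ⟨((e.1 - 4) / 2, (e.2 - 4) / 2), ?_, hee⟩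
          exact mem_Bc.2 ⟨⟨by show 2 * ((e.1 - 4) / 2) + u + 9 < 2 * ((e.2 - 4) / 2) + v; omega,
            by show 2 * ((e.2 - 4) / 2) + v + 9 < n; omega⟩, hG⟩
      · left
        exact ⟨he1, he2, c1⟩
    have k6 := Finset.card_le_card hsub
    have k7 := Finset.card_union_le ((Finset.range n ×ˢ Finset.range n).filter (fun e => e.1 < e.2 ∧
        ¬ (4 ≤ e.1 ∧ e.1 + 9 < e.2 ∧ e.2 + 5 < n)))
        ((Q.biUnion (fun uv => (Bc n p R uv.1 uv.2).image
          (fun c => (2 * c.1 + uv.1 + 4, 2 * c.2 + uv.2 + 4)))) ∪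
        (Q.biUnion (fun uv => ((Gc n p R uv.1 uv.2).filter (fun c => ∀ B ∈ Ff uv,
        ¬ Cg p R B (2 * c.1 + uv.1 + 4, 2 * c.2 + uv.2 + 4))).image
          (fun c => (2 * c.1 + uv.1 + 4, 2 * c.2 + uv.2 + 4)))))
    have k8 := Finset.card_union_le (Q.biUnion (fun uv => (Bc n p R uv.1 uv.2).image
          (fun c => (2 * c.1 + uv.1 + 4, 2 * c.2 + uv.2 + 4))))
        (Q.biUnion (fun uv => ((Gc n p R uv.1 uv.2).filter (fun c => ∀ B ∈ Ff uv,
        ¬ Cg p R B (2 * c.1 + uv.1 + 4, 2 * c.2 + uv.2 + 4))).image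
          (fun c => (2 * c.1 + uv.1 + 4, 2 * c.2 + uv.2 + 4))))
    have k9 : ((Q.biUnion (fun uv => (Bc n p R uv.1 uv.2).image
          (fun c => (2 * c.1 + uv.1 + 4, 2 * c.2 + uv.2 + 4)))).card : ℝ) ≤ 4 * (81 * Δ) := by
      have a1 := Finset.card_biUnion_le_card_mul Q (fun uv => (Bc n p R uv.1 uv.2).image
          (fun c => (2 * c.1 + uv.1 + 4, 2 * c.2 + uv.2 + 4))) (81 * (Dgs n p R).card)
        (fun uv _ => Finset.card_image_le.trans (bc_card n p R uv.1 uv.2))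
      rw [hQc] at a1
      rw [hΔ]
      exact_mod_cast a1
    have k10 : ((Q.biUnion (fun uv => ((Gc n p R uv.1 uv.2).filter (fun c => ∀ B ∈ Ff uv,
        ¬ Cg p R B (2 * c.1 + uv.1 + 4, 2 * c.2 + uv.2 + 4))).image
          (fun c => (2 * c.1 + uv.1 + 4, 2 * c.2 + uv.2 + 4)))).card : ℝ) ≤
          4 * (t * (81 * Δ + n)) := by
      have a1 : ((Q.biUnion (fun uv => ((Gc n p R uv.1 uv.2).filter (fun c => ∀ B ∈ Ff uv,
        ¬ Cg p R B (2 * c.1 + uv.1 + 4, 2 * c.2 + uv.2 + 4))).image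
          (fun c => (2 * c.1 + uv.1 + 4, 2 * c.2 + uv.2 + 4)))).card : ℝ) ≤
          ∑ uv ∈ Q, (((((Gc n p R uv.1 uv.2).filter (fun c => ∀ B ∈ Ff uv,
        ¬ Cg p R B (2 * c.1 + uv.1 + 4, 2 * c.2 + uv.2 + 4))).image
          (fun c => (2 * c.1 + uv.1 + 4, 2 * c.2 + uv.2 + 4))).card : ℕ) : ℝ) := by
        exact_mod_cast Finset.card_biUnion_le
      have a2 : ∑ uv ∈ Q, (((((Gc n p R uv.1 uv.2).filter (fun c => ∀ B ∈ Ff uv,
        ¬ Cg p R B (2 * c.1 + uv.1 + 4, 2 * c.2 + uv.2 + 4))).image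
          (fun c => (2 * c.1 + uv.1 + 4, 2 * c.2 + uv.2 + 4))).card : ℕ) : ℝ) ≤
          ∑ uv ∈ Q, (t * (81 * Δ + n)) := by
        apply Finset.sum_le_sum
        intro uv _
        refine le_trans ?_ (hF3 uv)
        exact_mod_cast Finset.card_image_le
      rw [Finset.sum_const, nsmul_eq_mul, hQr] at a2
      linarith
    have k11 : (((Finset.range n ×ˢ Finset.range n).filter (fun e => e.1 < e.2 ∧
        ¬ (4 ≤ e.1 ∧ e.1 + 9 < e.2 ∧ e.2 + 5 < n))).card : ℝ) ≤ 18 * n := by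
      exact_mod_cast edge_card' n
    have k12 : (((Finset.range n ×ˢ Finset.range n).filter (fun e => e.1 < e.2 ∧
        ∀ B ∈ Q.biUnion Ff, ¬ Cg p R B e)).card : ℝ) ≤
        (((Finset.range n ×ˢ Finset.range n).filter (fun e => e.1 < e.2 ∧
        ¬ (4 ≤ e.1 ∧ e.1 + 9 < e.2 ∧ e.2 + 5 < n))).card : ℝ) +
        (((Q.biUnion (fun uv => (Bc n p R uv.1 uv.2).image
          (fun c => (2 * c.1 + uv.1 + 4, 2 * c.2 + uv.2 + 4)))).card : ℝ) +
        ((Q.biUnion (fun uv => ((Gc n p R uv.1 uv.2).filter (fun c => ∀ B ∈ Ff uv,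
        ¬ Cg p R B (2 * c.1 + uv.1 + 4, 2 * c.2 + uv.2 + 4))).image
          (fun c => (2 * c.1 + uv.1 + 4, 2 * c.2 + uv.2 + 4)))).card : ℝ)) := by
      exact_mod_cast (k6.trans (k7.trans (Nat.add_le_add_left k8 _)))
    have k13 : t * (324 * Δ + 18 * n) ≤ t * M := mul_le_mul_of_nonneg_left hM1 ht.le
    have e13 : (1 + t) * M = M + t * M := by ring
    rw [e13]
    have k14 : 0 ≤ t * (n : ℝ) := by positivity
    nlinarith

theorem gen_struct (n : ℕ) (p : ℕ → ℝ × ℝ) (h3 : 3 ≤ n) (hp : Cvx n p) (R : Finset (ℝ × ℝ))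
    (hR : ∀ r ∈ R, ∀ i < n, r ≠ p i) (t M : ℝ) (ht : 0 < t)
    (hM : 324 * (9 * ((UL n p R).card : ℝ) + 4 * ((n : ℝ) * R.card - (n : ℝ) ^ 2 + n)) + 18 * n ≤ M) :
    ∃ F : Finset (Finset (ℝ × ℝ)), (∀ B ∈ F, B ⊆ (Finset.range n).image p ∪ R ∧ OnC B) ∧
      (F.card : ℝ) * t ≤ M ∧
      (((Finset.range n ×ˢ Finset.range n).filter (fun e => e.1 < e.2 ∧
        ∀ B ∈ F, ¬ Cg p R B e)).card : ℝ) ≤ (1 + t) * M := by
  refine gen_struct0 n p h3 hp R hR t M ht ?_
  have h1 : ((Dgs n p R).card : ℝ) + 4 * ((n : ℝ) * ((n : ℝ) - 1)) ≤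
      4 * ((R.card : ℝ) * n) + 9 * ((UL n p R).card : ℝ) := by
    have e : ((n - 1 : ℕ) : ℝ) = (n : ℝ) - 1 := by
      rw [Nat.cast_sub (by omega)]; simp
    rw [← e]
    exact_mod_cast dgs_card n p hp R hR
  have h2 : (n : ℝ) * ((n : ℝ) - 1) = (n : ℝ) ^ 2 - n := by ring
  have h4 : (R.card : ℝ) * n = (n : ℝ) * R.card := by ring
  rw [h2, h4] at h1
  linarith

end MP9b2b.PG
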