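import Pool.Agent.Lib.MP_9b2b7a_co.PG.Core

/-! Geometry of the polygon piercing theorem: the chords of a convex polygon whose lines pass
through a point `r` form a partial matching with the step property. -/

set_option autoImplicit false
open scoped Classical

namespace MP9b2b.PG

/-- twice the signed area of the triangle `abc` -/
def ori (a b c : ℝ × ℝ) : ℝ := (b.1 - a.1) * (c.2 - a.2) - (b.2 - a.2) * (c.1 - a.1)

/-- cross product -/
def cr (u v : ℝ × ℝ) : ℝ := u.1 * v.2 - u.2 * v.1

/-- dot product -/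
def dt (u v : ℝ × ℝ) : ℝ := u.1 * v.1 + u.2 * v.2

theorem dt_pos {u : ℝ × ℝ} (h : u ≠ 0) : 0 < dt u u := by
  unfold dt
  by_contra hc
  apply h
  have h1 := mul_self_nonneg u.1
  have h2 := mul_self_nonneg u.2
  have e1 : u.1 * u.1 = 0 := by linarith
  have e2 : u.2 * u.2 = 0 := by linarith
  exact Prod.ext (mul_self_eq_zero.1 e1) (mul_self_eq_zero.1 e2)

theorem par {u w z : ℝ × ℝ} (h : u ≠ 0) (h1 : cr w u = 0) (h2 : cr z u = 0) : cr w z = 0 := by
  have hp := dt_pos h
  have : cr w z * dt u u = 0 := by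
    have : cr w z * dt u u = cr w u * dt z u - cr z u * dt w u := by
      unfold cr dt; ring
    rw [this, h1, h2]; ring
  rcases mul_eq_zero.1 this with h' | h'
  · exact h'
  · exact absurd h' hp.ne'

theorem collinear_iff_ori (a b c : ℝ × ℝ) :
    Collinear ℝ ({a, b, c} : Set (ℝ × ℝ)) ↔ ori a b c = 0 := by
  rw [collinear_iff_of_mem (p₀ := a) (by simp)]
  constructor
  · rintro ⟨v, hv⟩
    obtain ⟨s, hs⟩ := hv b (by simp)
    obtain ⟨t, ht⟩ := hv c (by simp)
    rw [hs, ht]
    unfold ori
    simp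
    ring
  · intro h
    by_cases hab : b = a
    · refine ⟨c - a, ?_⟩
      rintro q hq
      simp only [Set.mem_insert_iff, Set.mem_singleton_iff] at hq
      rcases hq with rfl | rfl | rfl
      · exact ⟨0, by simp⟩
      · exact ⟨0, by simp [hab]⟩
      · exact ⟨1, by simp⟩
    · refine ⟨b - a, ?_⟩
      have hp := dt_pos (sub_ne_zero.2 hab)
      rintro q hq
      simp only [Set.mem_insert_iff, Set.mem_singleton_iff] at hq
      rcases hq with rfl | rfl | rfl
      · exact ⟨0, by simp⟩
      · exact ⟨1, by simp⟩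
      · refine ⟨dt (q - a) (b - a) / dt (b - a) (b - a), ?_⟩
        have e1 : dt (q - a) (b - a) / dt (b - a) (b - a) * (b.1 - a.1) = q.1 - a.1 := by
          rw [div_mul_eq_mul_div, div_eq_iff hp.ne']
          unfold ori at h
          simp only [dt, Prod.fst_sub, Prod.snd_sub]
          linear_combination (b.2 - a.2) * h
        have e2 : dt (q - a) (b - a) / dt (b - a) (b - a) * (b.2 - a.2) = q.2 - a.2 := by
          rw [div_mul_eq_mul_div, div_eq_iff hp.ne']
          unfold ori at h
          simp only [dt, Prod.fst_sub, Prod.snd_sub]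
          linear_combination (-(b.1 - a.1)) * h
        apply Prod.ext
        · simp only [vadd_eq_add, Prod.fst_add, Prod.smul_fst, smul_eq_mul, Prod.fst_sub]
          rw [e1]; ring
        · simp only [vadd_eq_add, Prod.snd_add, Prod.smul_snd, smul_eq_mul, Prod.snd_sub]
          rw [e2]; ring

/-- `k` lies strictly between `i` and `j` -/
def In (i j k : ℕ) : Prop := (i < k ∧ k < j) ∨ (j < k ∧ k < i)

/-- `p 0, ..., p (n-1)` are the vertices of a strictly convex polygon in counterclockwise order -/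
def Cvx (n : ℕ) (p : ℕ → ℝ × ℝ) : Prop :=
  ∀ i j k, i < j → j < k → k < n → 0 < ori (p i) (p j) (p k)

theorem ori_rot (a b c : ℝ × ℝ) : ori a b c = ori b c a := by unfold ori; ring
theorem ori_swap (a b c : ℝ × ℝ) : ori a b c = -ori b a c := by unfold ori; ring

variable {n : ℕ} {p : ℕ → ℝ × ℝ}

theorem tt (P Q R : Prop) : (Q ↔ R) ↔ ((P ↔ ¬ Q) ↔ (P ↔ ¬ R)) := by
  by_cases hP : P <;> by_cases hQ : Q <;> by_cases hR : R <;> simp [hP, hQ, hR]

theorem sgn (hp : Cvx n p) {i j k : ℕ} (hi : i < n) (hj : j < n) (hk : k < n) (hij : i ≠ j)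
    (hki : k ≠ i) (hkj : k ≠ j) :
    ori (p i) (p j) (p k) ≠ 0 ∧ (0 < ori (p i) (p j) (p k) ↔ (i < j ↔ ¬ In i j k)) := by
  have e1 := ori_rot (p i) (p j) (p k)
  have e2 := ori_rot (p j) (p k) (p i)
  have e3 := ori_swap (p i) (p j) (p k)
  have e4 := ori_rot (p j) (p i) (p k)
  have e5 := ori_rot (p i) (p k) (p j)
  rcases lt_or_gt_of_ne hij with h1 | h1 <;> rcases lt_or_gt_of_ne hki with h2 | h2 <;>
    rcases lt_or_gt_of_ne hkj with h3 | h3
  · have := hp k i j h2 h1 hj
    have hI : ¬ In i j k := by unfold In; omega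
    have : 0 < ori (p i) (p j) (p k) := by linarith
    exact ⟨this.ne', by simp [this, h1, hI]⟩
  · omega
  · have := hp i k j h2 h3 hj
    have hI : In i j k := by unfold In; omega
    have : ori (p i) (p j) (p k) < 0 := by linarith
    exact ⟨this.ne, by simp [this.le, h1, hI]⟩
  · have := hp i j k h1 h3 hk
    have hI : ¬ In i j k := by unfold In; omega
    exact ⟨this.ne', by simp [this, h1, hI]⟩
  · have := hp k j i h3 h1 hi
    have hI : ¬ In i j k := by unfold In; omega
    have : ori (p i) (p j) (p k) < 0 := by linarith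
    exact ⟨this.ne, ⟨fun h => absurd h this.not_gt, fun h => by have := h.2 hI; omega⟩⟩
  · have := hp j k i h3 h2 hi
    have hI : In i j k := by unfold In; omega
    have : 0 < ori (p i) (p j) (p k) := by linarith
    exact ⟨this.ne', by simp [this, h1.le, hI]⟩
  · omega
  · have := hp j i k h1 h2 hk
    have hI : ¬ In i j k := by unfold In; omega
    have : ori (p i) (p j) (p k) < 0 := by linarith
    exact ⟨this.ne, ⟨fun h => absurd h this.not_gt, fun h => by have := h.2 hI; omega⟩⟩

/-- `i` and `j` are different vertices on a line through `r` -/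
def Mt (n : ℕ) (p : ℕ → ℝ × ℝ) (r : ℝ × ℝ) (i j : ℕ) : Prop :=
  i < n ∧ j < n ∧ i ≠ j ∧ ori (p i) (p j) r = 0

variable {r : ℝ × ℝ}

theorem Mt.symm {i j : ℕ} (h : Mt n p r i j) : Mt n p r j i :=
  ⟨h.2.1, h.1, h.2.2.1.symm, by rw [ori_swap, h.2.2.2, neg_zero]⟩

theorem Mt.cr0 {i j : ℕ} (h : Mt n p r i j) : cr (p i - r) (p j - r) = 0 := by
  have := h.2.2.2
  unfold ori at this
  simp only [cr, Prod.fst_sub, Prod.snd_sub]
  linarith

theorem ori_cr {a b r q : ℝ × ℝ} (h : ori a b r = 0) : ori a b q = cr (b - a) (q - r) := by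
  unfold ori at *
  simp only [cr, Prod.fst_sub, Prod.snd_sub]
  linarith

theorem Mt.par {i j : ℕ} (h : Mt n p r i j) : cr (p j - p i) (p i - r) = 0 := by
  have := h.2.2.2
  unfold ori at this
  simp only [cr, Prod.fst_sub, Prod.snd_sub]
  linarith

theorem Mt.uniq (hp : Cvx n p) (hr : ∀ i < n, r ≠ p i) {i j k : ℕ} (h : Mt n p r i j)
    (h' : Mt n p r i k) : j = k := by
  by_contra hjk
  have hne := (sgn hp h.1 h.2.1 h'.2.1 h.2.2.1 h'.2.2.1.symm (Ne.symm hjk)).1
  apply hne
  have hu : p i - r ≠ 0 := sub_ne_zero.2 (hr i h.1).symm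
  have h1 : cr (p j - r) (p i - r) = 0 := h.symm.cr0
  have h2 : cr (p k - r) (p i - r) = 0 := h'.symm.cr0
  have h3 := PG.par hu h1 h2
  have : ori (p i) (p j) (p k) = cr (p j - r) (p k - r) - cr (p j - r) (p i - r) +
      cr (p k - r) (p i - r) := by
    simp only [cr, ori, Prod.fst_sub, Prod.snd_sub]; ring
  rw [this, h1, h2, h3]; ring

theorem type_iff (hp : Cvx n p) (hr : ∀ i < n, r ≠ p i) {i j k l : ℕ} (h : Mt n p r i j)
    (h' : Mt n p r k l) (hki : k ≠ i) (hkj : k ≠ j) (hli : l ≠ i) (hlj : l ≠ j) :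
    (In i j k ↔ In i j l) ↔ 0 < dt (p k - r) (p l - r) := by
  obtain ⟨hA, sA⟩ := sgn hp h.1 h.2.1 h'.1 h.2.2.1 hki hkj
  obtain ⟨hB, sB⟩ := sgn hp h.1 h.2.1 h'.2.1 h.2.2.1 hli hlj
  have hu : p k - r ≠ 0 := sub_ne_zero.2 (hr k h'.1).symm
  have hQ := dt_pos hu
  have hc := h'.cr0
  have eA : ori (p i) (p j) (p k) = cr (p j - p i) (p k - r) := ori_cr h.2.2.2
  have eB : ori (p i) (p j) (p l) = cr (p j - p i) (p l - r) := ori_cr h.2.2.2
  have key : ori (p i) (p j) (p k) * dt (p k - r) (p l - r) =
      ori (p i) (p j) (p l) * dt (p k - r) (p k - r) := by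
    rw [eA, eB]
    have : cr (p j - p i) (p k - r) * dt (p k - r) (p l - r) -
      cr (p j - p i) (p l - r) * dt (p k - r) (p k - r) =
      -(cr (p k - r) (p l - r) * dt (p j - p i) (p k - r)) := by
      unfold cr dt; ring
    rw [hc] at this
    linarith
  set A := ori (p i) (p j) (p k)
  set B := ori (p i) (p j) (p l)
  set D := dt (p k - r) (p l - r)
  set Q := dt (p k - r) (p k - r)
  have hD : D ≠ 0 := by
    intro h0
    rw [h0, mul_zero] at key
    rcases mul_eq_zero.1 key.symm with h1 | h1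
    · exact hB h1
    · exact hQ.ne' h1
  have hs : (In i j k ↔ In i j l) ↔ (0 < A ↔ 0 < B) := by
    rw [sA, sB]
    exact tt _ _ _
  rw [hs]
  rcases lt_or_gt_of_ne hD with hd | hd
  · constructor
    · intro hiff
      exfalso
      rcases lt_or_gt_of_ne hA with ha | ha
      · have : 0 < B * Q := by rw [← key]; exact mul_pos_of_neg_of_neg ha hd
        have : 0 < B := pos_of_mul_pos_left this hQ.le
        have := hiff.2 this
        linarith
      · have hb := hiff.1 ha
        have h1 : A * D < 0 := mul_neg_of_pos_of_neg ha hd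
        have h2 : 0 < B * Q := mul_pos hb hQ
        linarith
    · intro h0
      linarith
  · constructor
    · intro _
      exact hd
    · intro _
      constructor
      · intro ha
        have : 0 < B * Q := by rw [← key]; exact mul_pos ha hd
        exact pos_of_mul_pos_left this hQ.le
      · intro hb
        have : 0 < A * D := by rw [key]; exact mul_pos hb hQ
        exact pos_of_mul_pos_left this hd.le

/-- either all pairs lie on one side of `r`, or `r` separates all pairs -/
theorem types (hp : Cvx n p) (hr : ∀ i < n, r ≠ p i) :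
    (∀ i j k l, Mt n p r i j → Mt n p r k l → k ≠ i → k ≠ j → l ≠ i → l ≠ j →
      (In i j k ↔ In i j l)) ∨
    (∀ i j k l, Mt n p r i j → Mt n p r k l → k ≠ i → k ≠ j → l ≠ i → l ≠ j →
      ¬ (In i j k ↔ In i j l)) := by
  by_cases h : ∃ i j, Mt n p r i j ∧ 0 < dt (p i - r) (p j - r)
  · left
    obtain ⟨i0, j0, h0, hd⟩ := h
    intro i j k l hij hkl h1 h2 h3 h4
    rw [type_iff hp hr hij hkl h1 h2 h3 h4]
    by_cases c1 : i0 = k
    · subst c1
      have := hij.2.2.1
      have e := Mt.uniq hp hr h0 hkl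
      rw [← e]
      exact hd
    · by_cases c2 : i0 = l
      · subst c2
        have e := Mt.uniq hp hr h0 hkl.symm
        rw [← e]
        have : dt (p j0 - r) (p i0 - r) = dt (p i0 - r) (p j0 - r) := by unfold dt; ring
        rw [this]
        exact hd
      · have c3 : j0 ≠ k := by
          rintro rfl
          exact c2 (Mt.uniq hp hr h0.symm hkl)
        have c4 : j0 ≠ l := by
          rintro rfl
          exact c1 (Mt.uniq hp hr h0.symm hkl.symm)
        rw [← type_iff hp hr h0 hkl (Ne.symm c1) (Ne.symm c3) (Ne.symm c2) (Ne.symm c4)]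
        have hiff := (type_iff hp hr hkl h0 c1 c2 c3 c4).2 hd
        have n1 := h0.2.2.1
        have n2 := hkl.2.2.1
        unfold In at *
        omega
  · right
    push Not at h
    intro i j k l hij hkl h1 h2 h3 h4 hiff
    have := (type_iff hp hr hij hkl h1 h2 h3 h4).1 hiff
    have := h k l hkl
    linarith

/-- three concurrent chords: one of them separates the other two -/
theorem three (hp : Cvx n p) (hr : ∀ i < n, r ≠ p i) {i j k l s t : ℕ} (h1 : Mt n p r i j)
    (h2 : Mt n p r k l) (h3 : Mt n p r s t) (a1 : k ≠ i) (a2 : k ≠ j) (a3 : s ≠ i) (a4 : s ≠ j)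
    (a5 : i ≠ l) (a6 : s ≠ k) (a7 : s ≠ l) (a8 : i ≠ t) (a9 : k ≠ t) :
    ¬ ((In i j k ↔ In i j s) ∧ (In k l i ↔ In k l s) ∧ (In s t i ↔ In s t k)) := by
  rintro ⟨q1, q2, q3⟩
  have key : ∀ {i j k s : ℕ}, Mt n p r i j → k < n → s < n → k ≠ i → k ≠ j → s ≠ i → s ≠ j →
      (In i j k ↔ In i j s) → 0 < cr (p i - r) (p k - r) * cr (p i - r) (p s - r) := by
    intro i j k s h hk hs b1 b2 b3 b4 hiff
    obtain ⟨hA, sA⟩ := sgn hp h.1 h.2.1 hk h.2.2.1 b1 b2
    obtain ⟨hB, sB⟩ := sgn hp h.1 h.2.1 hs h.2.2.1 b3 b4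
    have eA : ori (p i) (p j) (p k) = cr (p j - p i) (p k - r) := ori_cr h.2.2.2
    have eB : ori (p i) (p j) (p s) = cr (p j - p i) (p s - r) := ori_cr h.2.2.2
    have hAB : 0 < ori (p i) (p j) (p k) * ori (p i) (p j) (p s) := by
      have : (0 < ori (p i) (p j) (p k) ↔ 0 < ori (p i) (p j) (p s)) := by
        rw [sA, sB]; exact (tt _ _ _).1 hiff
      rcases lt_or_gt_of_ne hA with ha | ha <;> rcases lt_or_gt_of_ne hB with hb | hb
      · exact mul_pos_of_neg_of_neg ha hb
      · have := this.2 hb; linarith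
      · have := this.1 ha; linarith
      · exact mul_pos ha hb
    rw [eA, eB] at hAB
    have hc := h.par
    have i1 : cr (p j - p i) (p k - r) * dt (p i - r) (p i - r) =
        cr (p i - r) (p k - r) * dt (p j - p i) (p i - r) := by
      have : cr (p j - p i) (p k - r) * dt (p i - r) (p i - r) -
        cr (p i - r) (p k - r) * dt (p j - p i) (p i - r) =
        cr (p j - p i) (p i - r) * dt (p k - r) (p i - r) := by
        unfold cr dt; ring
      rw [hc] at this
      linarith
    have i2 : cr (p j - p i) (p s - r) * dt (p i - r) (p i - r) =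
        cr (p i - r) (p s - r) * dt (p j - p i) (p i - r) := by
      have : cr (p j - p i) (p s - r) * dt (p i - r) (p i - r) -
        cr (p i - r) (p s - r) * dt (p j - p i) (p i - r) =
        cr (p j - p i) (p i - r) * dt (p s - r) (p i - r) := by
        unfold cr dt; ring
      rw [hc] at this
      linarith
    have hQ := dt_pos (sub_ne_zero.2 (hr i h.1).symm)
    have h5 : 0 < (cr (p i - r) (p k - r) * cr (p i - r) (p s - r)) *
        (dt (p j - p i) (p i - r)) ^ 2 := by
      have : (cr (p i - r) (p k - r) * cr (p i - r) (p s - r)) *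
        (dt (p j - p i) (p i - r)) ^ 2 =
        (cr (p j - p i) (p k - r) * cr (p j - p i) (p s - r)) *
        (dt (p i - r) (p i - r)) ^ 2 := by
        calc (cr (p i - r) (p k - r) * cr (p i - r) (p s - r)) *
            (dt (p j - p i) (p i - r)) ^ 2 =
            (cr (p i - r) (p k - r) * dt (p j - p i) (p i - r)) *
            (cr (p i - r) (p s - r) * dt (p j - p i) (p i - r)) := by ring
          _ = _ := by rw [← i1, ← i2]; ring
      rw [this]
      positivity
    exact pos_of_mul_pos_left h5 (sq_nonneg _)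
  have f1 := key h1 h2.1 h3.1 a1 a2 a3 a4 q1
  have f2 := key h2 h1.1 h3.1 (Ne.symm a1) a5 a6 a7 q2
  have f3 := key h3 h1.1 h2.1 (Ne.symm a3) a8 (Ne.symm a6) a9 q3
  have s1 : cr (p k - r) (p i - r) = -cr (p i - r) (p k - r) := by unfold cr; ring
  have s2 : cr (p s - r) (p i - r) = -cr (p i - r) (p s - r) := by unfold cr; ring
  have s3 : cr (p s - r) (p k - r) = -cr (p k - r) (p s - r) := by unfold cr; ring
  rw [s1] at f2
  rw [s2, s3] at f3
  set a := cr (p i - r) (p k - r)
  set b := cr (p i - r) (p s - r)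
  set c := cr (p k - r) (p s - r)
  have g1 : 0 < (a * b) * (-a * c) * (-b * -c) := mul_pos (mul_pos f1 f2) f3
  have g2 : (a * b) * (-a * c) * (-b * -c) = -(a * b * c) ^ 2 := by ring
  have := sq_nonneg (a * b * c)
  linarith

/-- the chords through `r` form a partial matching with the step property -/
theorem rel (hp : Cvx n p) (hr : ∀ i < n, r ≠ p i) : Rel n n (Mt n p r) := by
  have U : ∀ {i j k : ℕ}, Mt n p r i j → Mt n p r i k → j = k := fun h h' => Mt.uniq hp hr h h'
  refine ⟨fun h => h.1, fun h => h.2.1, fun h h' => U h h', fun h h' => U h.symm h'.symm, ?_⟩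
  rcases types hp hr with hs | hd
  · left
    intro i j j' hi hi'
    by_contra hcon
    push Not at hcon
    obtain ⟨hj0, ⟨v, hv⟩, hne⟩ := hcon
    have n1 := hi.2.2.1
    have n2 := hi'.2.2.1
    have n3 : j' ≠ i := by
      rintro rfl
      have := U hi hi'.symm
      omega
    have n4 : j ≠ i + 1 := by
      rintro rfl
      exact n3 (U hi' hi.symm)
    have n5 : j' ≠ j := by
      rintro rfl
      have := U hi.symm hi'.symm
      omega
    have N1 := hs i j (i + 1) j' hi hi' (by omega) (Ne.symm n4) n3 n5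
    have N2 := hs (i + 1) j' i j hi' hi (by omega) (Ne.symm n3) n4 (Ne.symm n5)
    have n6 : j - 1 ≠ i + 1 := by
      intro he
      unfold In at N1
      omega
    have n7 : v ≠ i := by
      rintro rfl
      have := U hi hv
      omega
    have n8 : v ≠ j := by
      rintro rfl
      have := U hi.symm hv
      omega
    have n9 : v ≠ i + 1 := by
      rintro rfl
      have := U hi' hv
      omega
    have n10 : v ≠ j' := by
      rintro rfl
      have := U hi'.symm hv
      omega
    have hv' := hv.symm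
    refine three hp hr hi hi' hv' (by omega) (Ne.symm n4) (by omega) (by omega) (Ne.symm n3)
      n6 (by omega) (Ne.symm n7) (Ne.symm n9) ⟨?_, ?_, ?_⟩
    · unfold In; omega
    · unfold In at N2 ⊢; omega
    · unfold In; omega
  · right
    intro i j j' hi hi'
    by_contra hcon
    push Not at hcon
    obtain ⟨⟨v, hv⟩, hne⟩ := hcon
    have n1 := hi.2.2.1
    have n2 := hi'.2.2.1
    have n4 : j ≠ i + 1 := by
      rintro rfl
      have n7 : v ≠ i := by
        rintro rfl
        have := U hi hv
        omega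
      have n9 : v ≠ i + 1 := by
        rintro rfl
        have := U hi.symm hv
        omega
      have := hd i (i + 1) (i + 1 + 1) v hi hv.symm (by omega) (by omega) n7 n9
      apply this
      unfold In; omega
    have n3 : j' ≠ i := by
      rintro rfl
      exact n4 (U hi hi'.symm)
    have n5 : j' ≠ j := by
      rintro rfl
      have := U hi.symm hi'.symm
      omega
    have N1 := hd i j (i + 1) j' hi hi' (by omega) (Ne.symm n4) n3 n5
    have n6 : j + 1 ≠ i := by
      intro he
      apply N1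
      unfold In; omega
    have n7 : v ≠ i := by
      rintro rfl
      have := U hi hv
      omega
    have n8 : v ≠ j := by
      rintro rfl
      have := U hi.symm hv
      omega
    have n9 : v ≠ i + 1 := by
      rintro rfl
      have := U hi' hv
      omega
    have n10 : v ≠ j' := by
      rintro rfl
      have := U hi'.symm hv
      omega
    have N2 := hd i j (j + 1) v hi hv.symm (by omega) (by omega) n7 n8
    have N3 := hd (i + 1) j' (j + 1) v hi' hv.symm (by omega) (by omega) n9 n10
    unfold In at N1 N2 N3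
    omega

/-- two chords determine the point -/
theorem det_pt (hp : Cvx n p) {r r' : ℝ × ℝ} {i j k l : ℕ} (h1 : Mt n p r i j)
    (h1' : Mt n p r' i j) (h2 : Mt n p r k l) (h2' : Mt n p r' k l) (hki : k ≠ i) (hkj : k ≠ j) :
    r = r' := by
  by_contra hne
  have hd : r' - r ≠ 0 := sub_ne_zero.2 (Ne.symm hne)
  have aux : ∀ {i j k : ℕ}, Mt n p r i j → Mt n p r' i j → k < n → k ≠ i → k ≠ j →
      cr (p i - r) (r' - r) = 0 ∧ cr (p j - r) (r' - r) = 0 := by
    intro i j k g g' hk q1 q2
    have hnz : p j - p i ≠ 0 := by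
      intro h0
      apply (sgn hp g.1 g.2.1 hk g.2.2.1 q1 q2).1
      have : p j = p i := sub_eq_zero.1 h0
      rw [this]; unfold ori; ring
    have e1 : cr (r' - r) (p j - p i) = 0 := by
      have x1 := g.2.2.2
      have x2 := g'.2.2.2
      unfold ori at x1 x2
      simp only [cr, Prod.fst_sub, Prod.snd_sub]
      linarith
    have e2 : cr (p i - r) (p j - p i) = 0 := by
      have x1 := g.2.2.2
      unfold ori at x1
      simp only [cr, Prod.fst_sub, Prod.snd_sub]
      linarith
    have e3 : cr (p j - r) (p j - p i) = 0 := by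
      have x1 := g.2.2.2
      unfold ori at x1
      simp only [cr, Prod.fst_sub, Prod.snd_sub]
      linarith
    exact ⟨PG.par hnz e2 e1, PG.par hnz e3 e1⟩
  obtain ⟨a1, a2⟩ := aux h1 h1' h2.1 hki hkj
  have hil : i ≠ l ∨ j ≠ l := by
    by_contra hc
    push Not at hc
    exact h1.2.2.1 (hc.1.trans hc.2.symm)
  obtain ⟨a3, -⟩ : cr (p k - r) (r' - r) = 0 ∧ cr (p l - r) (r' - r) = 0 := by
    rcases hil with hil | hil
    · exact aux h2 h2' h1.1 (Ne.symm hki) hil
    · exact aux h2 h2' h1.2.1 (Ne.symm hkj) hil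
  apply (sgn hp h1.1 h1.2.1 h2.1 h1.2.2.1 hki hkj).1
  have b1 := PG.par hd a1 a2
  have b2 := PG.par hd a1 a3
  have b3 := PG.par hd a2 a3
  have : ori (p i) (p j) (p k) = cr (p j - r) (p k - r) - cr (p i - r) (p k - r) +
      cr (p i - r) (p j - r) := by
    simp only [cr, ori, Prod.fst_sub, Prod.snd_sub]; ring
  rw [this, b1, b2, b3]; ring

theorem no_three (hp : Cvx n p) {r r' : ℝ × ℝ} (hne : r ≠ r')
    (i j0 j1 j2 : ℕ) : ¬ (Mt n p r i j0 ∧ Mt n p r' i j0 ∧
      Mt n p r (i + 1) j1 ∧ Mt n p r' (i + 1) j1 ∧ Mt n p r (i + 2) j2 ∧ Mt n p r' (i + 2) j2) := by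
  rintro ⟨h0, h0', h1, h1', h2, h2'⟩
  by_cases hj : i + 1 = j0
  · exact hne (det_pt hp h0 h0' h2 h2' (by omega) (by omega))
  · exact hne (det_pt hp h0 h0' h1 h1' (by omega) hj)

end MP9b2b.PG
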