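import Pool.Agent.Lib.MP_9b2b7a_co.PG.Geo

/-! A `3 x 3` grid and any tenth point lie on a cubic. -/

set_option autoImplicit false
open scoped Classical

namespace MP9b2b.PG

/-- `A` contains ten points on a cubic curve -/
def Ten (A : Finset (ℝ × ℝ)) : Prop :=
  ∃ B : Finset (ℝ × ℝ), B ⊆ A ∧ B.card = 10 ∧
    ∃ q : MvPolynomial (Fin 2) ℝ, q ≠ 0 ∧ q.totalDegree ≤ 3 ∧
      ∀ x ∈ B, MvPolynomial.eval ![x.1, x.2] q = 0

/-- the line through `a` and `b` as a polynomial -/
noncomputable def ln (a b : ℝ × ℝ) : MvPolynomial (Fin 2) ℝ :=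
  MvPolynomial.C (b.1 - a.1) * MvPolynomial.X 1 + MvPolynomial.C (-(b.2 - a.2)) * MvPolynomial.X 0 +
    MvPolynomial.C ((b.2 - a.2) * a.1 - (b.1 - a.1) * a.2)

theorem eval_ln (a b x : ℝ × ℝ) : MvPolynomial.eval ![x.1, x.2] (ln a b) = ori a b x := by
  unfold ln ori
  simp
  ring

theorem deg_ln (a b : ℝ × ℝ) : (ln a b).totalDegree ≤ 1 := by
  unfold ln
  refine (MvPolynomial.totalDegree_add _ _).trans (max_le ?_ ?_)
  · refine (MvPolynomial.totalDegree_add _ _).trans (max_le ?_ ?_)
    · refine (MvPolynomial.totalDegree_mul _ _).trans ?_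
      rw [MvPolynomial.totalDegree_C, MvPolynomial.totalDegree_X]
    · refine (MvPolynomial.totalDegree_mul _ _).trans ?_
      rw [MvPolynomial.totalDegree_C, MvPolynomial.totalDegree_X]
  · rw [MvPolynomial.totalDegree_C]
    norm_num

theorem deg3 {a b c : MvPolynomial (Fin 2) ℝ} (ha : a.totalDegree ≤ 1) (hb : b.totalDegree ≤ 1)
    (hc : c.totalDegree ≤ 1) : (a * b * c).totalDegree ≤ 3 := by
  have h1 := MvPolynomial.totalDegree_mul (a * b) c
  have h2 := MvPolynomial.totalDegree_mul a b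
  omega

theorem ten_of {A U : Finset (ℝ × ℝ)} (hU : U ⊆ A) (hk : 10 ≤ U.card)
    {q : MvPolynomial (Fin 2) ℝ} (hp : q ≠ 0) (hd : q.totalDegree ≤ 3)
    (hv : ∀ x ∈ U, MvPolynomial.eval ![x.1, x.2] q = 0) : Ten A := by
  obtain ⟨B, hB, hc⟩ := Finset.exists_subset_card_eq hk
  exact ⟨B, hB.trans hU, hc, q, hp, hd, fun x hx => hv x (hB hx)⟩

theorem ori_self (a b : ℝ × ℝ) : ori a b a = 0 := by unfold ori; ring
theorem ori_self' (a b : ℝ × ℝ) : ori a b b = 0 := by unfold ori; ring

theorem grid_ten' {A : Finset (ℝ × ℝ)} {g : Fin 3 → Fin 3 → ℝ × ℝ} (hA : 10 ≤ A.card)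
    (hg : ∀ i j, g i j ∈ A)
    (hinj : Function.Injective (fun t : Fin 3 × Fin 3 => g t.1 t.2))
    (hrow : ∀ i, ori (g i 0) (g i 1) (g i 2) = 0) (hcol : ∀ j, ori (g 0 j) (g 1 j) (g 2 j) = 0)
    (hnd : ∀ j, ∃ i, ori (g 0 0) (g 0 1) (g i j) ≠ 0) : Ten A := by
  have hnine : ((Finset.univ : Finset (Fin 3 × Fin 3)).image (fun t => g t.1 t.2)).card = 9 := by
    rw [Finset.card_image_of_injective _ hinj]
    simp
  set N := (Finset.univ : Finset (Fin 3 × Fin 3)).image (fun t => g t.1 t.2) with hN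
  have hNA : N ⊆ A := by
    intro x hx
    rw [hN, Finset.mem_image] at hx
    obtain ⟨t, -, rfl⟩ := hx
    exact hg _ _
  obtain ⟨z, hzA, hzN⟩ : ∃ z ∈ A, z ∉ N := by
    by_contra hc
    push Not at hc
    have : A ⊆ N := fun x hx => hc x hx
    have := Finset.card_le_card this
    omega
  have hrow' : ∀ i j, ori (g i 0) (g i 1) (g i j) = 0 := by
    intro i j
    fin_cases j
    · exact ori_self _ _
    · exact ori_self' _ _
    · exact hrow i
  have hcol' : ∀ i j, ori (g 0 j) (g 1 j) (g i j) = 0 := by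
    intro i j
    fin_cases i
    · exact ori_self _ _
    · exact ori_self' _ _
    · exact hcol j
  set R : MvPolynomial (Fin 2) ℝ := ln (g 0 0) (g 0 1) * ln (g 1 0) (g 1 1) * ln (g 2 0) (g 2 1)
    with hR
  set C : MvPolynomial (Fin 2) ℝ := ln (g 0 0) (g 1 0) * ln (g 0 1) (g 1 1) * ln (g 0 2) (g 1 2)
    with hC
  have eR : ∀ x : ℝ × ℝ, MvPolynomial.eval ![x.1, x.2] R =
      ori (g 0 0) (g 0 1) x * ori (g 1 0) (g 1 1) x * ori (g 2 0) (g 2 1) x := by
    intro x
    rw [hR, map_mul, map_mul, eval_ln, eval_ln, eval_ln]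
  have eC : ∀ x : ℝ × ℝ, MvPolynomial.eval ![x.1, x.2] C =
      ori (g 0 0) (g 1 0) x * ori (g 0 1) (g 1 1) x * ori (g 0 2) (g 1 2) x := by
    intro x
    rw [hC, map_mul, map_mul, eval_ln, eval_ln, eval_ln]
  have hRg : ∀ x ∈ N, MvPolynomial.eval ![x.1, x.2] R = 0 := by
    intro x hx
    rw [hN, Finset.mem_image] at hx
    obtain ⟨⟨i, j⟩, -, rfl⟩ := hx
    rw [eR]
    have := hrow' i j
    fin_cases i
    · have h' : ori (g 0 0) (g 0 1) (g 0 j) = 0 := this
      show ori (g 0 0) (g 0 1) (g 0 j) * _ * _ = 0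
      rw [h']; ring
    · have h' : ori (g 1 0) (g 1 1) (g 1 j) = 0 := this
      show _ * ori (g 1 0) (g 1 1) (g 1 j) * _ = 0
      rw [h']; ring
    · have h' : ori (g 2 0) (g 2 1) (g 2 j) = 0 := this
      show _ * _ * ori (g 2 0) (g 2 1) (g 2 j) = 0
      rw [h']; ring
  have hCg : ∀ x ∈ N, MvPolynomial.eval ![x.1, x.2] C = 0 := by
    intro x hx
    rw [hN, Finset.mem_image] at hx
    obtain ⟨⟨i, j⟩, -, rfl⟩ := hx
    rw [eC]
    have := hcol' i j
    fin_cases j
    · have h' : ori (g 0 0) (g 1 0) (g i 0) = 0 := this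
      show ori (g 0 0) (g 1 0) (g i 0) * _ * _ = 0
      rw [h']; ring
    · have h' : ori (g 0 1) (g 1 1) (g i 1) = 0 := this
      show _ * ori (g 0 1) (g 1 1) (g i 1) * _ = 0
      rw [h']; ring
    · have h' : ori (g 0 2) (g 1 2) (g i 2) = 0 := this
      show _ * _ * ori (g 0 2) (g 1 2) (g i 2) = 0
      rw [h']; ring
  have hne : ∀ i j i' j', (i, j) ≠ (i', j') → g i j ≠ g i' j' := by
    intro i j i' j' h he
    exact h (hinj he)
  -- a point on the first row off the columns
  obtain ⟨s, hs⟩ := Infinite.exists_notMem_finset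
    ((Finset.univ : Finset (Fin 3)).image (fun j => -(ori (g 0 j) (g 1 j) (g 0 0)) /
      (ori (g 0 j) (g 1 j) (g 0 1) - ori (g 0 j) (g 1 j) (g 0 0))))
  set x : ℝ × ℝ := g 0 0 + s • (g 0 1 - g 0 0) with hx
  have ex : ∀ a b : ℝ × ℝ, ori a b x = ori a b (g 0 0) + s * (ori a b (g 0 1) - ori a b (g 0 0)) := by
    intro a b
    rw [hx]
    unfold ori
    simp only [Prod.fst_add, Prod.snd_add, Prod.smul_fst, Prod.smul_snd, smul_eq_mul, Prod.fst_sub,
      Prod.snd_sub]
    ring
  have hsj : ∀ j, ori (g 0 j) (g 1 j) x ≠ 0 := by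
    intro j hj
    rw [ex] at hj
    by_cases hb : ori (g 0 j) (g 1 j) (g 0 1) - ori (g 0 j) (g 1 j) (g 0 0) = 0
    · rw [hb, mul_zero, add_zero] at hj
      rw [hj, sub_zero] at hb
      obtain ⟨i, hi⟩ := hnd j
      apply hi
      have he : g 1 j - g 0 j ≠ 0 := sub_ne_zero.2 (hne 1 j 0 j (by simp))
      have hc := hcol' i j
      have f : ∀ q : ℝ × ℝ, ori (g 0 j) (g 1 j) q = 0 → cr (q - g 0 j) (g 1 j - g 0 j) = 0 := by
        intro q hq
        unfold ori at hq
        simp only [cr, Prod.fst_sub, Prod.snd_sub]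
        linarith
      have b1 := PG.par he (f _ hj) (f _ hb)
      have b2 := PG.par he (f _ hj) (f _ hc)
      have b3 := PG.par he (f _ hb) (f _ hc)
      have : ori (g 0 0) (g 0 1) (g i j) = cr (g 0 1 - g 0 j) (g i j - g 0 j) -
          cr (g 0 0 - g 0 j) (g i j - g 0 j) + cr (g 0 0 - g 0 j) (g 0 1 - g 0 j) := by
        simp only [cr, ori, Prod.fst_sub, Prod.snd_sub]; ring
      rw [this, b1, b2, b3]; ring
    · apply hs
      rw [Finset.mem_image]
      refine ⟨j, Finset.mem_univ _, ?_⟩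
      rw [div_eq_iff hb]
      linarith
  have hRx : MvPolynomial.eval ![x.1, x.2] R = 0 := by
    rw [eR, ex (g 0 0) (g 0 1), ori_self, ori_self']; ring
  have hCx : MvPolynomial.eval ![x.1, x.2] C ≠ 0 := by
    rw [eC]
    exact mul_ne_zero (mul_ne_zero (hsj 0) (hsj 1)) (hsj 2)
  have hC0 : C ≠ 0 := by
    intro h0
    apply hCx
    rw [h0]; simp
  have hRd : R.totalDegree ≤ 3 := deg3 (deg_ln _ _) (deg_ln _ _) (deg_ln _ _)
  have hCd : C.totalDegree ≤ 3 := deg3 (deg_ln _ _) (deg_ln _ _) (deg_ln _ _)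
  have hUcard : 10 ≤ (insert z N).card := by
    rw [Finset.card_insert_of_notMem hzN, hnine]
  have hUA : insert z N ⊆ A := by
    intro x hx
    rw [Finset.mem_insert] at hx
    rcases hx with rfl | hx
    · exact hzA
    · exact hNA hx
  by_cases hz : MvPolynomial.eval ![z.1, z.2] C = 0
  · refine ten_of hUA hUcard hC0 hCd ?_
    intro x hx
    rw [Finset.mem_insert] at hx
    rcases hx with rfl | hx
    · exact hz
    · exact hCg x hx
  · by_cases hz' : MvPolynomial.eval ![z.1, z.2] R = 0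
    · -- R vanishes at z; R is nonzero because ... use R if it is nonzero
      by_cases hR0 : R = 0
      · exfalso
        -- a product of lines is nonzero
        have hl : ∀ a b : ℝ × ℝ, a ≠ b → ln a b ≠ 0 := by
          intro a b hab h0
          have h1 : ∀ y : ℝ × ℝ, ori a b y = 0 := by
            intro y
            rw [← eval_ln, h0]; simp
          have h2 := h1 (a.1 - (b.2 - a.2), a.2 + (b.1 - a.1))
          have hd := dt_pos (sub_ne_zero.2 (Ne.symm hab))
          unfold ori at h2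
          simp only [dt, Prod.fst_sub, Prod.snd_sub] at hd
          simp only at h2
          have e : (b.1 - a.1) * (b.1 - a.1) + (b.2 - a.2) * (b.2 - a.2) = 0 := by
            linear_combination h2
          linarith
        exact (mul_ne_zero (mul_ne_zero (hl _ _ (hne 0 0 0 1 (by simp)))
          (hl _ _ (hne 1 0 1 1 (by simp)))) (hl _ _ (hne 2 0 2 1 (by simp)))) hR0
      · refine ten_of hUA hUcard hR0 hRd ?_
        intro x hx
        rw [Finset.mem_insert] at hx
        rcases hx with rfl | hx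
        · exact hz'
        · exact hRg x hx
    · set P : MvPolynomial (Fin 2) ℝ := MvPolynomial.C (MvPolynomial.eval ![z.1, z.2] C) * R -
        MvPolynomial.C (MvPolynomial.eval ![z.1, z.2] R) * C with hP
      have hP0 : P ≠ 0 := by
        intro hc
        have : MvPolynomial.eval ![x.1, x.2] P = 0 := by rw [hc]; simp
        rw [hP] at this
        simp only [map_sub, map_mul, MvPolynomial.eval_C] at this
        rw [hRx, mul_zero, zero_sub, neg_eq_zero] at this
        rcases mul_eq_zero.1 this with h' | h'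
        · exact hz' h'
        · exact hCx h'
      refine ten_of hUA hUcard hP0 ?_ ?_
      · refine (MvPolynomial.totalDegree_sub _ _).trans (max_le ?_ ?_)
        · refine (MvPolynomial.totalDegree_mul _ _).trans ?_
          rw [MvPolynomial.totalDegree_C]
          omega
        · refine (MvPolynomial.totalDegree_mul _ _).trans ?_
          rw [MvPolynomial.totalDegree_C]
          omega
      · intro y hy
        rw [hP]
        simp only [map_sub, map_mul, MvPolynomial.eval_C]
        rw [Finset.mem_insert] at hy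
        rcases hy with rfl | hy
        · ring
        · rw [hRg y hy, hCg y hy]; ring

end MP9b2b.PG
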