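import Pool.Agent.Lib.MP_9b2b7a_co.PG.Fin

/-! Convex polygons all of whose chords are pierced from outside by fewer than `5n/4` points:
geometry of a `3 x 3` window. -/

set_option autoImplicit false
open scoped Classical

namespace MP9b2b.PG

variable {n : ℕ} {p : ℕ → ℝ × ℝ} {r : ℝ × ℝ}

/-- `r` lies outside the segment for some chord -/
def IsOut (n : ℕ) (p : ℕ → ℝ × ℝ) (r : ℝ × ℝ) : Prop :=
  ∃ i j, Mt n p r i j ∧ 0 < dt (p i - r) (p j - r)

theorem dt_comm (u v : ℝ × ℝ) : dt u v = dt v u := by unfold dt; ring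

theorem out_all (hp : Cvx n p) (hr : ∀ i < n, r ≠ p i) (h : IsOut n p r) {k l : ℕ}
    (hkl : Mt n p r k l) : 0 < dt (p k - r) (p l - r) := by
  obtain ⟨i0, j0, h0, hd⟩ := h
  by_cases c1 : i0 = k
  · subst c1
    have e := Mt.uniq hp hr h0 hkl
    rw [← e]
    exact hd
  · by_cases c2 : i0 = l
    · subst c2
      have e := Mt.uniq hp hr h0 hkl.symm
      rw [← e, dt_comm]
      exact hd
    · have c3 : j0 ≠ k := by
        rintro rfl
        exact c2 (Mt.uniq hp hr h0.symm hkl)
      have c4 : j0 ≠ l := by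
        rintro rfl
        exact c1 (Mt.uniq hp hr h0.symm hkl.symm)
      rw [← type_iff hp hr h0 hkl (Ne.symm c1) (Ne.symm c3) (Ne.symm c2) (Ne.symm c4)]
      have hiff := (type_iff hp hr hkl h0 c1 c2 c3 c4).2 hd
      have n1 := h0.2.2.1
      have n2 := hkl.2.2.1
      unfold In at *
      omega

/-- the line through `r` and `p j` strictly separates `p i` and `p (i+1)` -/
def X (p : ℕ → ℝ × ℝ) (r : ℝ × ℝ) (j i : ℕ) : Prop :=
  cr (p j - r) (p i - r) * cr (p j - r) (p (i + 1) - r) < 0

/-- cyclic order -/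
def Cyc (j k l : ℕ) : Prop := (j < k ∧ k < l) ∨ (k < l ∧ l < j) ∨ (l < j ∧ j < k)

theorem cyc_pos (hp : Cvx n p) {j k l : ℕ} (hj : j < n) (hk : k < n) (hl : l < n)
    (h : Cyc j k l) : 0 < ori (p j) (p k) (p l) := by
  rcases h with ⟨h1, h2⟩ | ⟨h1, h2⟩ | ⟨h1, h2⟩
  · exact hp j k l h1 h2 hl
  · rw [ori_rot]
    exact hp k l j h1 h2 hj
  · rw [ori_rot, ori_rot]
    exact hp l j k h1 h2 hk

theorem mid (hp : Cvx n p) {j k1 k2 k3 : ℕ} (hj : j < n) (h1 : k1 < n) (h2 : k2 < n) (h3 : k3 < n)
    (c1 : Cyc j k1 k2) (c2 : Cyc j k2 k3) :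
    ∃ x y z : ℝ, 0 < x ∧ 0 < y ∧ 0 < z ∧
      cr (p j - r) (p k2 - r) * x = cr (p j - r) (p k1 - r) * y + cr (p j - r) (p k3 - r) * z := by
  have c3 : Cyc j k1 k3 := by unfold Cyc at *; omega
  refine ⟨_, _, _, cyc_pos hp hj h1 h3 c3, cyc_pos hp hj h2 h3 c2, cyc_pos hp hj h1 h2 c1, ?_⟩
  simp only [cr, ori, Prod.fst_sub, Prod.snd_sub]
  ring

theorem X_unique (hp : Cvx n p) {j i i' : ℕ} (hj : j < n) (hi : i + 1 < n) (hi' : i' + 1 < n)
    (d1 : i ≠ j) (d2 : i + 1 ≠ j) (d3 : i' ≠ j) (d4 : i' + 1 ≠ j)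
    (h : X p r j i) (h' : X p r j i') : i = i' := by
  -- the sign cannot change twice
  have main : ∀ {i i' : ℕ}, i + 1 < n → i' + 1 < n → i ≠ j → i + 1 ≠ j → i' ≠ j → i' + 1 ≠ j →
      X p r j i → X p r j i' → (i + 1 = i' ∨ Cyc j (i + 1) i') → False := by
    intro i i' hi hi' d1 d2 d3 d4 h h' hc
    unfold X at h h'
    have C1 : Cyc j i (i + 1) := by unfold Cyc; omega
    have C2 : Cyc j i' (i' + 1) := by unfold Cyc; omega
    have C3 : Cyc j (i + 1) (i' + 1) := by
      rcases hc with hc | hc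
      · rw [hc]; exact C2
      · unfold Cyc at *; omega
    rcases mul_neg_iff.1 h with ⟨a1, a2⟩ | ⟨a1, a2⟩ <;>
      rcases mul_neg_iff.1 h' with ⟨b1, b2⟩ | ⟨b1, b2⟩
    · -- + - + -
      rcases hc with hc | hc
      · rw [hc] at a2; linarith
      · obtain ⟨x, y, z, hx, hy, hz, he⟩ := mid (r := r) hp hj (by omega) hi (by omega) C1 hc
        have := mul_pos a1 hy
        have := mul_pos b1 hz
        have := mul_neg_of_neg_of_pos a2 hx
        linarith
    · -- + - - +
      obtain ⟨x, y, z, hx, hy, hz, he⟩ := mid (r := r) hp hj (by omega) hi hi' C1 C3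
      have := mul_pos a1 hy
      have := mul_pos b2 hz
      have := mul_neg_of_neg_of_pos a2 hx
      linarith
    · -- - + + -
      obtain ⟨x, y, z, hx, hy, hz, he⟩ := mid (r := r) hp hj (by omega) hi hi' C1 C3
      have := mul_neg_of_neg_of_pos a1 hy
      have := mul_neg_of_neg_of_pos b2 hz
      have := mul_pos a2 hx
      linarith
    · rcases hc with hc | hc
      · rw [hc] at a2; linarith
      · obtain ⟨x, y, z, hx, hy, hz, he⟩ := mid (r := r) hp hj (by omega) hi (by omega) C1 hc
        have := mul_neg_of_neg_of_pos a1 hy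
        have := mul_neg_of_neg_of_pos b1 hz
        have := mul_pos a2 hx
        linarith
  by_contra hne
  by_cases hc : i + 1 = i' ∨ Cyc j (i + 1) i'
  · exact main hi hi' d1 d2 d3 d4 h h' hc
  · refine main hi' hi d3 d4 d1 d2 h' h ?_
    unfold Cyc at *
    omega

theorem joined_noX (hp : Cvx n p) (hr : ∀ i < n, r ≠ p i) {j k i : ℕ} (h : Mt n p r j k)
    (hi : i + 1 < n) (d1 : i ≠ j) (d2 : i + 1 ≠ j) : ¬ X p r j i := by
  unfold X
  intro hX
  by_cases e1 : i = k
  · subst e1
    rw [h.cr0, zero_mul] at hX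
    exact lt_irrefl _ hX
  by_cases e2 : i + 1 = k
  · subst e2
    rw [h.cr0, mul_zero] at hX
    exact lt_irrefl _ hX
  obtain ⟨hA, sA⟩ := sgn hp h.1 h.2.1 (by omega : i < n) h.2.2.1 d1 e1
  obtain ⟨hB, sB⟩ := sgn hp h.1 h.2.1 hi h.2.2.1 d2 e2
  have hiff : (In j k i ↔ In j k (i + 1)) := by unfold In; omega
  have hAB : 0 < ori (p j) (p k) (p i) * ori (p j) (p k) (p (i + 1)) := by
    have : (0 < ori (p j) (p k) (p i) ↔ 0 < ori (p j) (p k) (p (i + 1))) := by
      rw [sA, sB]; exact (tt _ _ _).1 hiff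
    rcases lt_or_gt_of_ne hA with ha | ha <;> rcases lt_or_gt_of_ne hB with hb | hb
    · exact mul_pos_of_neg_of_neg ha hb
    · have := this.2 hb; linarith
    · have := this.1 ha; linarith
    · exact mul_pos ha hb
  have hc := h.par
  have key : ∀ q : ℝ × ℝ, ori (p j) (p k) q * dt (p j - r) (p j - r) =
      cr (p j - r) (q - r) * dt (p k - p j) (p j - r) := by
    intro q
    rw [ori_cr h.2.2.2]
    have : cr (p k - p j) (q - r) * dt (p j - r) (p j - r) -
        cr (p j - r) (q - r) * dt (p k - p j) (p j - r) =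
        cr (p k - p j) (p j - r) * dt (q - r) (p j - r) := by
      unfold cr dt; ring
    rw [hc] at this
    linarith
  have hQ := dt_pos (sub_ne_zero.2 (hr j h.1).symm)
  have e : (ori (p j) (p k) (p i) * ori (p j) (p k) (p (i + 1))) * (dt (p j - r) (p j - r)) ^ 2 =
      (cr (p j - r) (p i - r) * cr (p j - r) (p (i + 1) - r)) * (dt (p k - p j) (p j - r)) ^ 2 := by
    calc _ = (ori (p j) (p k) (p i) * dt (p j - r) (p j - r)) *
          (ori (p j) (p k) (p (i + 1)) * dt (p j - r) (p j - r)) := by ring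
      _ = _ := by rw [key, key]; ring
  have h1 : 0 < (ori (p j) (p k) (p i) * ori (p j) (p k) (p (i + 1))) *
      (dt (p j - r) (p j - r)) ^ 2 := by positivity
  rw [e] at h1
  have h2 : (cr (p j - r) (p i - r) * cr (p j - r) (p (i + 1) - r)) *
      (dt (p k - p j) (p j - r)) ^ 2 ≤ 0 :=
    mul_nonpos_of_nonpos_of_nonneg hX.le (sq_nonneg _)
  linarith

/-- a sign change along consecutive vertices -/
theorem ivt (f : ℕ → ℝ) : ∀ (m i : ℕ), f i * f (i + m) < 0 →
    (∃ k, i < k ∧ k < i + m ∧ f k = 0) ∨ (∃ k, i ≤ k ∧ k < i + m ∧ f k * f (k + 1) < 0) := by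
  intro m
  induction m with
  | zero =>
    intro i h
    have := mul_self_nonneg (f i)
    simp only [add_zero] at h
    linarith
  | succ m ih =>
    intro i h
    by_cases h0 : f (i + 1) = 0
    · by_cases hm : m = 0
      · subst hm
        simp only [zero_add] at h
        rw [h0, mul_zero] at h
        exact absurd h (lt_irrefl _)
      · left
        exact ⟨i + 1, by omega, by omega, h0⟩
    · by_cases h1 : f i * f (i + 1) < 0
      · right
        exact ⟨i, le_rfl, by omega, h1⟩
      · have h2 : f (i + 1) * f (i + 1 + m) < 0 := by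
          have e : i + (m + 1) = i + 1 + m := by ring
          rw [e] at h
          have hi0 : f i ≠ 0 := by
            rintro hi
            rw [hi, zero_mul] at h
            exact lt_irrefl _ h
          have h3 : 0 < f i * f (i + 1) :=
            lt_of_le_of_ne (not_lt.1 h1) (Ne.symm (mul_ne_zero hi0 h0))
          have h4 : (f (i + 1) * f (i + 1 + m)) * (f i) ^ 2 < 0 := by
            have : (f (i + 1) * f (i + 1 + m)) * (f i) ^ 2 =
              (f i * f (i + 1)) * (f i * f (i + 1 + m)) := by ring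
            rw [this]
            exact mul_neg_of_pos_of_neg h3 h
          by_contra hcon
          have := mul_nonneg (not_lt.1 hcon) (sq_nonneg (f i))
          linarith
        rcases ih (i + 1) h2 with ⟨k, k1, k2, k3⟩ | ⟨k, k1, k2, k3⟩
        · left; exact ⟨k, by omega, by omega, k3⟩
        · right; exact ⟨k, by omega, by omega, k3⟩

theorem ori_of_cr {a b r : ℝ × ℝ} (h : cr (a - r) (b - r) = 0) : ori a b r = 0 := by
  unfold ori
  simp only [cr, Prod.fst_sub, Prod.snd_sub] at h
  linarith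

/-- a point that pierces the chord `{i, j}` of the window from outside passes through a vertex of
the window on the rows `b` or the column `a+2`. -/
theorem chain (hp : Cvx n p) (hr : ∀ i < n, r ≠ p i) (ho : IsOut n p r) {A B i j : ℕ}
    (hAB : A < B) (hiA : i < A) (hBj : B < j) (hij : Mt n p r i j)
    (hX1 : ∀ k, i ≤ k → k < A → ¬ X p r B k) (hX2 : ∀ k, B ≤ k → k < j → ¬ X p r A k) :
    Mt n p r A B ∨ (∃ k, i < k ∧ k < A ∧ Mt n p r k B) ∨ (∃ k, B < k ∧ k < j ∧ Mt n p r A k) := by
  have hjn := hij.2.1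
  have hout := out_all hp hr ho hij
  obtain ⟨hA, sA⟩ := sgn hp hij.1 hij.2.1 (by omega : A < n) hij.2.2.1 (by omega) (by omega)
  obtain ⟨hB, sB⟩ := sgn hp hij.1 hij.2.1 (by omega : B < n) hij.2.2.1 (by omega) (by omega)
  have IA : In i j A := by unfold In; omega
  have IB : In i j B := by unfold In; omega
  have nA : ori (p i) (p j) (p A) < 0 := by
    rcases lt_or_gt_of_ne hA with h | h
    · exact h
    · exact absurd IA ((sA.1 h).1 (by omega))
  have nB : ori (p i) (p j) (p B) < 0 := by
    rcases lt_or_gt_of_ne hB with h | h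
    · exact h
    · exact absurd IB ((sB.1 h).1 (by omega))
  -- signs of the cross products from r
  have hc := hij.par
  have hQ := dt_pos (sub_ne_zero.2 (hr i hij.1).symm)
  have key : ∀ q : ℝ × ℝ, ori (p i) (p j) q * dt (p i - r) (p i - r) =
      cr (p i - r) (q - r) * dt (p j - p i) (p i - r) := by
    intro q
    rw [ori_cr hij.2.2.2]
    have : cr (p j - p i) (q - r) * dt (p i - r) (p i - r) -
        cr (p i - r) (q - r) * dt (p j - p i) (p i - r) =
        cr (p j - p i) (p i - r) * dt (q - r) (p i - r) := by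
      unfold cr dt; ring
    rw [hc] at this
    linarith
  have hABs : 0 < cr (p i - r) (p A - r) * cr (p i - r) (p B - r) := by
    have h1 : 0 < (ori (p i) (p j) (p A) * ori (p i) (p j) (p B)) *
        (dt (p i - r) (p i - r)) ^ 2 := by
      have := mul_pos_of_neg_of_neg nA nB
      positivity
    have h2 : (ori (p i) (p j) (p A) * ori (p i) (p j) (p B)) * (dt (p i - r) (p i - r)) ^ 2 =
        (cr (p i - r) (p A - r) * cr (p i - r) (p B - r)) * (dt (p j - p i) (p i - r)) ^ 2 := by
      calc _ = (ori (p i) (p j) (p A) * dt (p i - r) (p i - r)) *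
            (ori (p i) (p j) (p B) * dt (p i - r) (p i - r)) := by ring
        _ = _ := by rw [key, key]; ring
    rw [h2] at h1
    exact pos_of_mul_pos_left h1 (sq_nonneg _)
  by_cases h0 : cr (p A - r) (p B - r) = 0
  · left
    exact ⟨by omega, by omega, by omega, ori_of_cr h0⟩
  right
  have s1 : cr (p A - r) (p i - r) = -cr (p i - r) (p A - r) := by unfold cr; ring
  have s2 : cr (p B - r) (p i - r) = -cr (p i - r) (p B - r) := by unfold cr; ring
  have s3 : cr (p B - r) (p A - r) = -cr (p A - r) (p B - r) := by unfold cr; ring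
  by_cases hs : 0 < cr (p A - r) (p B - r) * cr (p i - r) (p A - r)
  · -- the ray to p A lies between: it separates p B and p j
    right
    have hj : cr (p A - r) (p j - r) * dt (p i - r) (p i - r) =
        cr (p A - r) (p i - r) * dt (p i - r) (p j - r) := by
      have := hij.cr0
      have e : cr (p A - r) (p j - r) * dt (p i - r) (p i - r) -
        cr (p A - r) (p i - r) * dt (p i - r) (p j - r) =
        cr (p i - r) (p j - r) * dt (p A - r) (p i - r) := by
        unfold cr dt; ring
      rw [this] at e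
      linarith
    have hprod : cr (p A - r) (p B - r) * cr (p A - r) (p j - r) < 0 := by
      have h1 : (cr (p A - r) (p B - r) * cr (p A - r) (p j - r)) * dt (p i - r) (p i - r) =
          -((cr (p A - r) (p B - r) * cr (p i - r) (p A - r)) * dt (p i - r) (p j - r)) := by
        calc _ = cr (p A - r) (p B - r) * (cr (p A - r) (p j - r) * dt (p i - r) (p i - r)) := by
              ring
          _ = _ := by rw [hj, s1]; ring
      have h2 := mul_pos hs hout
      by_contra hcon
      have := mul_nonneg (not_lt.1 hcon) hQ.le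
      linarith
    have e : j = B + (j - B) := by omega
    rw [e] at hprod
    rcases ivt (fun k => cr (p A - r) (p k - r)) (j - B) B hprod with ⟨k, k1, k2, k3⟩ |
        ⟨k, k1, k2, k3⟩
    · exact ⟨k, k1, by omega, by omega, by omega, by omega, ori_of_cr k3⟩
    · exact absurd k3 (hX2 k k1 (by omega))
  · -- the ray to p B lies between: it separates p i and p A
    left
    have hne : cr (p A - r) (p B - r) * cr (p i - r) (p A - r) ≠ 0 := by
      refine mul_ne_zero h0 ?_
      rintro h
      rw [h, zero_mul] at hABs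
      exact lt_irrefl _ hABs
    have hs' : cr (p A - r) (p B - r) * cr (p i - r) (p A - r) < 0 :=
      lt_of_le_of_ne (not_lt.1 hs) hne
    have hprod : cr (p B - r) (p i - r) * cr (p B - r) (p A - r) < 0 := by
      rw [s2, s3]
      -- cr(i,B) * cr(A,B) < 0 from cr(A,B) cr(i,A) < 0 and cr(i,A) cr(i,B) > 0
      have h1 : (cr (p i - r) (p B - r) * cr (p A - r) (p B - r)) *
          (cr (p i - r) (p A - r)) ^ 2 < 0 := by
        have : (cr (p i - r) (p B - r) * cr (p A - r) (p B - r)) *
          (cr (p i - r) (p A - r)) ^ 2 =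
          (cr (p i - r) (p A - r) * cr (p i - r) (p B - r)) *
          (cr (p A - r) (p B - r) * cr (p i - r) (p A - r)) := by ring
        rw [this]
        exact mul_neg_of_pos_of_neg hABs hs'
      by_contra hcon
      have h2 : 0 ≤ cr (p i - r) (p B - r) * cr (p A - r) (p B - r) := by
        have := not_lt.1 hcon
        linarith
      have := mul_nonneg h2 (sq_nonneg (cr (p i - r) (p A - r)))
      linarith
    have e : A = i + (A - i) := by omega
    have hprod' : (fun k => cr (p B - r) (p k - r)) i *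
        (fun k => cr (p B - r) (p k - r)) (i + (A - i)) < 0 := by
      rw [← e]; exact hprod
    rcases ivt (fun k => cr (p B - r) (p k - r)) (A - i) i hprod' with ⟨k, k1, k2, k3⟩ |
        ⟨k, k1, k2, k3⟩
    · refine ⟨k, k1, by omega, Mt.symm ⟨by omega, by omega, by omega, ori_of_cr k3⟩⟩
    · exact absurd k3 (hX1 k k1 (by omega))

/-- a good `3 x 3` window contains a grid -/
theorem window (hp : Cvx n p) {R : Finset (ℝ × ℝ)} (hR : ∀ r ∈ R, ∀ i < n, r ≠ p i)
    (hcard : 10 ≤ ((Finset.range n).image p ∪ R).card) {a b : ℕ} (hab : a + 2 < b)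
    (hbn : b + 2 < n)
    (hX : ∀ r ∈ R, IsOut n p r → ¬ X p r b a ∧ ¬ X p r b (a + 1) ∧ ¬ X p r (a + 2) b ∧
      ¬ X p r (a + 2) (b + 1))
    (h01 : ∃ r ∈ R, IsOut n p r ∧ Mt n p r a (b + 1))
    (h02 : ∃ r ∈ R, IsOut n p r ∧ Mt n p r a (b + 2))
    (h11 : ∃ r ∈ R, IsOut n p r ∧ Mt n p r (a + 1) (b + 1))
    (h12 : ∃ r ∈ R, IsOut n p r ∧ Mt n p r (a + 1) (b + 2))
    (s10 : ∀ r ∈ R, ∀ r' ∈ R, IsOut n p r → IsOut n p r' → Mt n p r (a + 1) b →
      Mt n p r' (a + 1) b → r = r')
    (s20 : ∀ r ∈ R, ∀ r' ∈ R, IsOut n p r → IsOut n p r' → Mt n p r (a + 2) b →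
      Mt n p r' (a + 2) b → r = r')
    (s21 : ∀ r ∈ R, ∀ r' ∈ R, IsOut n p r → IsOut n p r' → Mt n p r (a + 2) (b + 1) →
      Mt n p r' (a + 2) (b + 1) → r = r') :
    Ten ((Finset.range n).image p ∪ R) := by
  obtain ⟨r01, m01, o01, M01⟩ := h01
  obtain ⟨r02, m02, o02, M02⟩ := h02
  obtain ⟨r11, m11, o11, M11⟩ := h11
  obtain ⟨r12, m12, o12, M12⟩ := h12
  have U : ∀ {r : ℝ × ℝ}, r ∈ R → ∀ {i j k : ℕ}, Mt n p r i j → Mt n p r i k → j = k :=
    fun hr _ _ _ h h' => Mt.uniq hp (hR _ hr) h h'
  have C : ∀ {r : ℝ × ℝ}, r ∈ R → IsOut n p r → ∀ {i j : ℕ}, a ≤ i → i < a + 2 → b < j →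
      j ≤ b + 2 → Mt n p r i j → Mt n p r (a + 2) b ∨ (∃ k, i < k ∧ k < a + 2 ∧ Mt n p r k b) ∨
      (∃ k, b < k ∧ k < j ∧ Mt n p r (a + 2) k) := by
    intro r hr ho i j h1 h2 h3 h4 hM
    obtain ⟨x1, x2, x3, x4⟩ := hX r hr ho
    refine chain hp (hR r hr) ho hab h2 h3 hM ?_ ?_
    · intro k k1 k2
      have : k = a ∨ k = a + 1 := by omega
      rcases this with rfl | rfl
      · exact x1
      · exact x2
    · intro k k1 k2
      have : k = b ∨ k = b + 1 := by omega
      rcases this with rfl | rfl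
      · exact x3
      · exact x4
  have N11 : Mt n p r11 (a + 2) b := by
    rcases C m11 o11 (by omega) (by omega) (by omega) (by omega) M11 with h | ⟨k, k1, k2, -⟩ |
        ⟨k, k1, k2, -⟩
    · exact h
    · omega
    · omega
  have N01 : Mt n p r01 (a + 1) b := by
    rcases C m01 o01 (by omega) (by omega) (by omega) (by omega) M01 with h | ⟨k, k1, k2, h⟩ |
        ⟨k, k1, k2, -⟩
    · exfalso
      have e := s20 r01 m01 r11 m11 o01 o11 h N11
      subst e
      have := U m01 M01.symm M11.symm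
      omega
    · have : k = a + 1 := by omega
      subst this
      exact h
    · omega
  have N12 : Mt n p r12 (a + 2) (b + 1) := by
    rcases C m12 o12 (by omega) (by omega) (by omega) (by omega) M12 with h | ⟨k, k1, k2, -⟩ |
        ⟨k, k1, k2, h⟩
    · exfalso
      have e := s20 r12 m12 r11 m11 o12 o11 h N11
      subst e
      have := U m12 M12 M11
      omega
    · omega
    · have : k = b + 1 := by omega
      subst this
      exact h
  have N02 : Mt n p r02 (a + 2) b := by
    rcases C m02 o02 (by omega) (by omega) (by omega) (by omega) M02 with h | ⟨k, k1, k2, h⟩ |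
        ⟨k, k1, k2, h⟩
    · exact h
    · exfalso
      have : k = a + 1 := by omega
      subst this
      have e := s10 r02 m02 r01 m01 o02 o01 h N01
      subst e
      have := U m02 M02 M01
      omega
    · exfalso
      have : k = b + 1 := by omega
      subst this
      have e := s21 r02 m02 r12 m12 o02 o12 h N12
      subst e
      have := U m02 M02.symm M12.symm
      omega
  have d1 : r01 ≠ r12 := by
    rintro rfl
    have := U m01 M01.symm N12.symm
    omega
  have d2 : r01 ≠ r02 := by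
    rintro rfl
    have := U m01 M01 M02
    omega
  have d3 : r12 ≠ r02 := by
    rintro rfl
    have := U m12 M12.symm M02.symm
    omega
  exact hexa hp hR hcard m01 m12 m02 d1 d2 d3 M01 M02 M12 N01 N02 N12 (by omega) (by omega)
    (by omega) (by omega) (by omega) (by omega) (by omega) (by omega) (by omega)

end MP9b2b.PG
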