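import Pool.Agent.Lib.MP_9b2b7a_co.PG.Blk

/-! Strips: two sequences of vertices of a convex polygon whose chords are pierced by points that
depend on the sum of the indices only. Chasles' theorem moves a cubic along a strip. -/

set_option autoImplicit false
open scoped Classical

namespace MP9b2b.PG

/-- vanishing -/
def Zz (P : MvPolynomial (Fin 2) ℝ) (q : ℝ × ℝ) : Prop := MvPolynomial.eval ![q.1, q.2] P = 0

/-- a strip -/
structure Strip (n : ℕ) (p : ℕ → ℝ × ℝ) (ε : ℝ) (N1 N2 : ℕ) (l q : ℕ → ℕ) (κ : ℕ → ℝ × ℝ) :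
    Prop where
  h3 : 3 ≤ n
  hp : Cvx n p
  ln : ∀ i ≤ N1, l i < n
  qn : ∀ j ≤ N2, q j < n
  li : ∀ i ≤ N1, ∀ i' ≤ N1, l i = l i' → i = i'
  qi : ∀ j ≤ N2, ∀ j' ≤ N2, q j = q j' → j = j'
  lq : ∀ i ≤ N1, ∀ j ≤ N2, l i ≠ q j
  kr : ∀ s ≤ N1 + N2, ∀ i < n, κ s ≠ p i
  m : ∀ i ≤ N1, ∀ j ≤ N2, Mt n p (κ (i + j)) (l i) (q j)
  hε : ∀ i < n, ∀ j < n, i ≠ j → (p i).1 + ε * (p i).2 ≠ (p j).1 + ε * (p j).2

variable {n : ℕ} {p : ℕ → ℝ × ℝ} {ε : ℝ} {N1 N2 : ℕ} {l q : ℕ → ℕ} {κ : ℕ → ℝ × ℝ}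

/-- coded points -/
noncomputable def sp (p : ℕ → ℝ × ℝ) (l q : ℕ → ℕ) (κ : ℕ → ℝ × ℝ) (c : ℕ) : ℝ × ℝ :=
  if c % 3 = 0 then p (l (c / 3)) else if c % 3 = 1 then p (q (c / 3)) else κ (c / 3)

theorem sp0 (i : ℕ) : sp p l q κ (3 * i) = p (l i) := by
  unfold sp
  rw [if_pos (by omega)]
  have : 3 * i / 3 = i := by omega
  rw [this]

theorem sp1 (i : ℕ) : sp p l q κ (3 * i + 1) = p (q i) := by
  unfold sp
  rw [if_neg (by omega), if_pos (by omega)]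
  have : (3 * i + 1) / 3 = i := by omega
  rw [this]

theorem sp2 (i : ℕ) : sp p l q κ (3 * i + 2) = κ i := by
  unfold sp
  rw [if_neg (by omega), if_neg (by omega)]
  have : (3 * i + 2) / 3 = i := by omega
  rw [this]

theorem Strip.ori_sp (S : Strip n p ε N1 N2 l q κ) {x y : ℕ} (hx : x + 2 ≤ N1) (hy : y + 2 ≤ N2)
    {a b c : ℕ} (a1 : x ≤ a) (a2 : a ≤ x + 2) (b1 : y ≤ b) (b2 : b ≤ y + 2)
    (s1 : x + y + 1 ≤ a + b) (s2 : a + b ≤ x + y + 3)
    (hc : (∃ i, c = 3 * i ∧ x ≤ i ∧ i ≤ x + 2) ∨ (∃ j, c = 3 * j + 1 ∧ y ≤ j ∧ j ≤ y + 2) ∨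
      (∃ s, c = 3 * s + 2 ∧ x + y + 1 ≤ s ∧ s ≤ x + y + 3)) :
    ori (p (l a)) (p (q b)) (sp p l q κ c) = 0 ↔ c = 3 * a ∨ c = 3 * b + 1 ∨ c = 3 * (a + b) + 2 := by
  have hla := S.ln a (by omega)
  have hqb := S.qn b (by omega)
  have hne := S.lq a (by omega) b (by omega)
  rcases hc with ⟨i, rfl, i1, i2⟩ | ⟨j, rfl, j1, j2⟩ | ⟨s, rfl, k1, k2⟩
  · rw [sp0]
    constructor
    · intro h0
      left
      by_contra hcon
      have h1 : l i ≠ l a := fun h => hcon (by rw [S.li i (by omega) a (by omega) h])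
      have h2 : l i ≠ q b := S.lq i (by omega) b (by omega)
      exact (sgn S.hp hla hqb (S.ln i (by omega)) hne h1 h2).1 h0
    · rintro (h | h | h)
      · have : i = a := by omega
        rw [this]; exact ori_self _ _
      · omega
      · omega
  · rw [sp1]
    constructor
    · intro h0
      right; left
      by_contra hcon
      have h1 : q j ≠ l a := (S.lq a (by omega) j (by omega)).symm
      have h2 : q j ≠ q b := fun h => hcon (by rw [S.qi j (by omega) b (by omega) h])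
      exact (sgn S.hp hla hqb (S.qn j (by omega)) hne h1 h2).1 h0
    · rintro (h | h | h)
      · omega
      · have : j = b := by omega
        rw [this]; exact ori_self' _ _
      · omega
  · rw [sp2]
    constructor
    · intro h0
      right; right
      have hM : Mt n p (κ s) (l a) (q b) := ⟨hla, hqb, hne, h0⟩
      have hr := S.kr s (by omega)
      by_cases hs : a + y ≤ s ∧ s ≤ a + y + 2
      · obtain ⟨w, hw⟩ : ∃ w, s = a + w := ⟨s - a, by omega⟩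
        have m1 := S.m a (by omega) w (by omega)
        rw [← hw] at m1
        have e1 := Mt.uniq S.hp hr hM m1
        have := S.qi b (by omega) w (by omega) e1
        omega
      · obtain ⟨w, hw⟩ : ∃ w, s = w + b := ⟨s - b, by omega⟩
        have m1 := S.m w (by omega) b (by omega)
        rw [← hw] at m1
        have e1 := Mt.uniq S.hp hr hM.symm m1.symm
        have := S.li a (by omega) w (by omega) e1
        omega
    · rintro (h | h | h)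
      · omega
      · omega
      · have : s = a + b := by omega
        rw [this]
        exact (S.m a (by omega) b (by omega)).2.2.2

section
variable (x y : ℕ)
def sc : Fin 3 → Fin 3 → ℕ :=
  ![![3 * (x + y + 1) + 2, 3 * x, 3 * (y + 1) + 1], ![3 * y + 1, 3 * (x + y + 2) + 2, 3 * (x + 2)],
    ![3 * (x + 1), 3 * (y + 2) + 1, 3 * (x + y + 3) + 2]]

theorem sc_bd (i j : Fin 3) : (∃ k, sc x y i j = 3 * k ∧ x ≤ k ∧ k ≤ x + 2) ∨
    (∃ k, sc x y i j = 3 * k + 1 ∧ y ≤ k ∧ k ≤ y + 2) ∨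
    (∃ s, sc x y i j = 3 * s + 2 ∧ x + y + 1 ≤ s ∧ s ≤ x + y + 3) := by
  fin_cases i <;> fin_cases j
  · exact Or.inr (Or.inr ⟨x + y + 1, rfl, by omega, by omega⟩)
  · exact Or.inl ⟨x, rfl, by omega, by omega⟩
  · exact Or.inr (Or.inl ⟨y + 1, rfl, by omega, by omega⟩)
  · exact Or.inr (Or.inl ⟨y, rfl, by omega, by omega⟩)
  · exact Or.inr (Or.inr ⟨x + y + 2, rfl, by omega, by omega⟩)
  · exact Or.inl ⟨x + 2, rfl, by omega, by omega⟩
  · exact Or.inl ⟨x + 1, rfl, by omega, by omega⟩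
  · exact Or.inr (Or.inl ⟨y + 2, rfl, by omega, by omega⟩)
  · exact Or.inr (Or.inr ⟨x + y + 3, rfl, by omega, by omega⟩)

theorem sc_r (i i' j : Fin 3) :
    (sc x y i' j = 3 * ra x i ∨ sc x y i' j = 3 * rb y i + 1 ∨
      sc x y i' j = 3 * (ra x i + rb y i) + 2) ↔ i' = i := by
  fin_cases i <;> fin_cases i' <;> fin_cases j <;> simp [sc, ra, rb] <;> omega

theorem sc_c (j i j' : Fin 3) :
    (sc x y i j' = 3 * ca x j ∨ sc x y i j' = 3 * cb y j + 1 ∨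
      sc x y i j' = 3 * (ca x j + cb y j) + 2) ↔ j' = j := by
  fin_cases j <;> fin_cases i <;> fin_cases j' <;> simp [sc, ca, cb] <;> omega

end

theorem Strip.hr (S : Strip n p ε N1 N2 l q κ) {x y : ℕ} (hx : x + 2 ≤ N1) (hy : y + 2 ≤ N2)
    (i i' j : Fin 3) :
    ori (p (l (ra x i))) (p (q (rb y i))) (sp p l q κ (sc x y i' j)) = 0 ↔ i' = i := by
  obtain ⟨b1, b2, b3, b4, b5, b6⟩ := bd_r x y i
  rw [S.ori_sp hx hy b1 b2 b3 b4 b5 b6 (sc_bd x y i' j)]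
  exact sc_r x y i i' j

theorem Strip.hc (S : Strip n p ε N1 N2 l q κ) {x y : ℕ} (hx : x + 2 ≤ N1) (hy : y + 2 ≤ N2)
    (j i j' : Fin 3) :
    ori (p (l (ca x j))) (p (q (cb y j))) (sp p l q κ (sc x y i j')) = 0 ↔ j' = j := by
  obtain ⟨b1, b2, b3, b4, b5, b6⟩ := bd_c x y j
  rw [S.ori_sp hx hy b1 b2 b3 b4 b5 b6 (sc_bd x y i j')]
  exact sc_c x y j i j'

theorem Strip.gd (S : Strip n p ε N1 N2 l q κ) {x y : ℕ} (hx : x + 2 ≤ N1) (hy : y + 2 ≤ N2)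
    {P : MvPolynomial (Fin 2) ℝ} (hP : P.totalDegree ≤ 3) :
    Gd (fun a => Zz P (p (l a))) (fun b => Zz P (p (q b))) (fun s => Zz P (κ s)) x y := by
  set Q : Fin 3 → Fin 3 → Prop := fun i j => Zz P (sp p l q κ (sc x y i j)) with hQ
  have e01 : Q 0 1 ↔ Zz P (p (l x)) := by
    show Zz P (sp p l q κ (3 * x)) ↔ _
    rw [sp0]
  have e02 : Q 0 2 ↔ Zz P (p (q (y + 1))) := by
    show Zz P (sp p l q κ (3 * (y + 1) + 1)) ↔ _
    rw [sp1]
  have e10 : Q 1 0 ↔ Zz P (p (q y)) := by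
    show Zz P (sp p l q κ (3 * y + 1)) ↔ _
    rw [sp1]
  have e12 : Q 1 2 ↔ Zz P (p (l (x + 2))) := by
    show Zz P (sp p l q κ (3 * (x + 2))) ↔ _
    rw [sp0]
  have e20 : Q 2 0 ↔ Zz P (p (l (x + 1))) := by
    show Zz P (sp p l q κ (3 * (x + 1))) ↔ _
    rw [sp0]
  have e21 : Q 2 1 ↔ Zz P (p (q (y + 2))) := by
    show Zz P (sp p l q κ (3 * (y + 2) + 1)) ↔ _
    rw [sp1]
  have e00 : Q 0 0 ↔ Zz P (κ (x + y + 1)) := by
    show Zz P (sp p l q κ (3 * (x + y + 1) + 2)) ↔ _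
    rw [sp2]
  have e11 : Q 1 1 ↔ Zz P (κ (x + y + 2)) := by
    show Zz P (sp p l q κ (3 * (x + y + 2) + 2)) ↔ _
    rw [sp2]
  have e22 : Q 2 2 ↔ Zz P (κ (x + y + 3)) := by
    show Zz P (sp p l q κ (3 * (x + y + 3) + 2)) ↔ _
    rw [sp2]
  have cl : ∀ a b : Fin 3, (∀ i j, ¬ (i = a ∧ j = b) → Q i j) → Q a b := by
    intro a b h
    exact chasles_any P hP ε (fun i => p (l (ra x i))) (fun i => p (q (rb y i)))
      (fun i => p (l (ca x i))) (fun i => p (q (cb y i))) (fun i j => sp p l q κ (sc x y i j))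
      (fun i => by
        obtain ⟨b1, b2, b3, b4, -⟩ := bd_r x y i
        exact S.hε _ (S.ln _ (by omega)) _ (S.qn _ (by omega)) (S.lq _ (by omega) _ (by omega)))
      (fun i => by
        obtain ⟨b1, b2, b3, b4, -⟩ := bd_c x y i
        exact S.hε _ (S.ln _ (by omega)) _ (S.qn _ (by omega)) (S.lq _ (by omega) _ (by omega)))
      (S.hr hx hy) (S.hc hx hy) a b h
  have nine : ∀ (a b : Fin 3), (¬ ((0 : Fin 3) = a ∧ (0 : Fin 3) = b) → Q 0 0) →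
      (¬ ((0 : Fin 3) = a ∧ (1 : Fin 3) = b) → Q 0 1) →
      (¬ ((0 : Fin 3) = a ∧ (2 : Fin 3) = b) → Q 0 2) →
      (¬ ((1 : Fin 3) = a ∧ (0 : Fin 3) = b) → Q 1 0) →
      (¬ ((1 : Fin 3) = a ∧ (1 : Fin 3) = b) → Q 1 1) →
      (¬ ((1 : Fin 3) = a ∧ (2 : Fin 3) = b) → Q 1 2) →
      (¬ ((2 : Fin 3) = a ∧ (0 : Fin 3) = b) → Q 2 0) →
      (¬ ((2 : Fin 3) = a ∧ (1 : Fin 3) = b) → Q 2 1) →
      (¬ ((2 : Fin 3) = a ∧ (2 : Fin 3) = b) → Q 2 2) →
      ∀ i j, ¬ (i = a ∧ j = b) → Q i j := by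
    intro a b g1 g2 g3 g4 g5 g6 g7 g8 g9 i j
    fin_cases i <;> fin_cases j <;> assumption
  constructor
  · intro l1 l2 r0 r1 r2 c1 c2 c3
    exact e01.1 (cl 0 1 (nine 0 1 (fun _ => e00.2 c1) (fun h => absurd ⟨rfl, rfl⟩ h)
      (fun _ => e02.2 r1) (fun _ => e10.2 r0) (fun _ => e11.2 c2) (fun _ => e12.2 l2)
      (fun _ => e20.2 l1) (fun _ => e21.2 r2) (fun _ => e22.2 c3)))
  · intro l0 l1 r0 r1 r2 c1 c2 c3
    exact e12.1 (cl 1 2 (nine 1 2 (fun _ => e00.2 c1) (fun _ => e01.2 l0)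
      (fun _ => e02.2 r1) (fun _ => e10.2 r0) (fun _ => e11.2 c2) (fun h => absurd ⟨rfl, rfl⟩ h)
      (fun _ => e20.2 l1) (fun _ => e21.2 r2) (fun _ => e22.2 c3)))
  · intro l0 l1 l2 r1 r2 c1 c2 c3
    exact e10.1 (cl 1 0 (nine 1 0 (fun _ => e00.2 c1) (fun _ => e01.2 l0)
      (fun _ => e02.2 r1) (fun h => absurd ⟨rfl, rfl⟩ h) (fun _ => e11.2 c2) (fun _ => e12.2 l2)
      (fun _ => e20.2 l1) (fun _ => e21.2 r2) (fun _ => e22.2 c3)))
  · intro l0 l1 l2 r0 r1 c1 c2 c3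
    exact e21.1 (cl 2 1 (nine 2 1 (fun _ => e00.2 c1) (fun _ => e01.2 l0)
      (fun _ => e02.2 r1) (fun _ => e10.2 r0) (fun _ => e11.2 c2) (fun _ => e12.2 l2)
      (fun _ => e20.2 l1) (fun h => absurd ⟨rfl, rfl⟩ h) (fun _ => e22.2 c3)))
  · intro l0 l1 l2 r0 r1 r2 c2 c3
    exact e00.1 (cl 0 0 (nine 0 0 (fun h => absurd ⟨rfl, rfl⟩ h) (fun _ => e01.2 l0)
      (fun _ => e02.2 r1) (fun _ => e10.2 r0) (fun _ => e11.2 c2) (fun _ => e12.2 l2)
      (fun _ => e20.2 l1) (fun _ => e21.2 r2) (fun _ => e22.2 c3)))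
  · intro l0 l1 l2 r0 r1 r2 c1 c2
    exact e22.1 (cl 2 2 (nine 2 2 (fun _ => e00.2 c1) (fun _ => e01.2 l0)
      (fun _ => e02.2 r1) (fun _ => e10.2 r0) (fun _ => e11.2 c2) (fun _ => e12.2 l2)
      (fun _ => e20.2 l1) (fun _ => e21.2 r2) (fun h => absurd ⟨rfl, rfl⟩ h)))

/-- everything near a block of a strip -/
def SF (p : ℕ → ℝ × ℝ) (l q : ℕ → ℕ) (κ : ℕ → ℝ × ℝ) (P : MvPolynomial (Fin 2) ℝ) (x y : ℕ) : Prop :=
  Fl (fun a => Zz P (p (l a))) (fun b => Zz P (p (q b))) (fun s => Zz P (κ s)) x y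

theorem Strip.sx (S : Strip n p ε N1 N2 l q κ) (h1 : 5 ≤ N1) (h2 : 4 ≤ N2)
    {P : MvPolynomial (Fin 2) ℝ} (hP : P.totalDegree ≤ 3) :
    SF p l q κ P 1 1 ↔ SF p l q κ P 2 1 := by
  constructor
  · intro h
    exact step_fwd (S.gd (by omega) (by omega) hP) (S.gd (by omega) (by omega) hP)
      (S.gd (by omega) (by omega) hP) h
  · intro h
    exact step_bwd (S.gd (by omega) (by omega) hP) (S.gd (by omega) (by omega) hP)
      (S.gd (by omega) (by omega) hP) h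

theorem Strip.sy (S : Strip n p ε N1 N2 l q κ) (h1 : 4 ≤ N1) (h2 : 5 ≤ N2)
    {P : MvPolynomial (Fin 2) ℝ} (hP : P.totalDegree ≤ 3) :
    SF p l q κ P 1 1 ↔ SF p l q κ P 1 2 := by
  constructor
  · intro h
    exact (step_fwd (S.gd (x := 1) (y := 2) (by omega) (by omega) hP).swap
      (S.gd (x := 2) (y := 1) (by omega) (by omega) hP).swap
      (S.gd (x := 2) (y := 2) (by omega) (by omega) hP).swap (Fl.swap h)).swap
  · intro h
    exact (step_bwd (S.gd (x := 1) (y := 1) (by omega) (by omega) hP).swap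
      (S.gd (x := 0) (y := 2) (by omega) (by omega) hP).swap
      (S.gd (x := 0) (y := 1) (by omega) (by omega) hP).swap (Fl.swap h)).swap

/-- the cubic of a strip -/
theorem Strip.init (S : Strip n p ε N1 N2 l q κ) (h1 : 4 ≤ N1) (h2 : 4 ≤ N2) :
    ∃ P : MvPolynomial (Fin 2) ℝ, P ≠ 0 ∧ P.totalDegree ≤ 3 ∧ SF p l q κ P 1 1 := by
  have hx : 1 + 2 ≤ N1 := by omega
  have hy : 1 + 2 ≤ N2 := by omega
  obtain ⟨P, hP0, hPd, hPg, hPz⟩ := pencil9 (r1 := fun i => p (l (ra 1 i)))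
    (r2 := fun i => p (q (rb 1 i))) (c1 := fun i => p (l (ca 1 i)))
    (c2 := fun i => p (q (cb 1 i))) (g := fun i j => sp p l q κ (sc 1 1 i j))
    (fun i he => by
      obtain ⟨b1, b2, b3, b4, -⟩ := bd_r 1 1 i
      exact S.lq _ (by omega) _ (by omega)
        (p_inj S.hp S.h3 (S.ln _ (by omega)) (S.qn _ (by omega)) he))
    (fun i he => by
      obtain ⟨b1, b2, b3, b4, -⟩ := bd_c 1 1 i
      exact S.lq _ (by omega) _ (by omega)
        (p_inj S.hp S.h3 (S.ln _ (by omega)) (S.qn _ (by omega)) he))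
    (S.hr hx hy) (S.hc hx hy) (κ 6)
  refine ⟨P, hP0, hPd, ?_⟩
  have v01 : Zz P (p (l 1)) := by
    have : Zz P (sp p l q κ (3 * 1)) := hPg 0 1
    rwa [sp0] at this
  have v12 : Zz P (p (l 3)) := by
    have : Zz P (sp p l q κ (3 * 3)) := hPg 1 2
    rwa [sp0] at this
  have v20 : Zz P (p (l 2)) := by
    have : Zz P (sp p l q κ (3 * 2)) := hPg 2 0
    rwa [sp0] at this
  have v10 : Zz P (p (q 1)) := by
    have : Zz P (sp p l q κ (3 * 1 + 1)) := hPg 1 0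
    rwa [sp1] at this
  have v02 : Zz P (p (q 2)) := by
    have : Zz P (sp p l q κ (3 * 2 + 1)) := hPg 0 2
    rwa [sp1] at this
  have v21 : Zz P (p (q 3)) := by
    have : Zz P (sp p l q κ (3 * 3 + 1)) := hPg 2 1
    rwa [sp1] at this
  have v00 : Zz P (κ 3) := by
    have : Zz P (sp p l q κ (3 * 3 + 2)) := hPg 0 0
    rwa [sp2] at this
  have v11 : Zz P (κ 4) := by
    have : Zz P (sp p l q κ (3 * 4 + 2)) := hPg 1 1
    rwa [sp2] at this
  have v22 : Zz P (κ 5) := by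
    have : Zz P (sp p l q κ (3 * 5 + 2)) := hPg 2 2
    rwa [sp2] at this
  exact start (x := 0) (y := 1) (S.gd (by omega) (by omega) hPd) (S.gd (by omega) (by omega) hPd)
    (S.gd (by omega) (by omega) hPd) v01 v20 v12 v10 v02 v21 v00 v11 v22 hPz

end MP9b2b.PG
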